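import Pool.Agent.REL.Defs
import Pool.Agent.VNP.AsDef
import Pool.Agent.HYP.Ash
/-!
# Groups with a relative length function have finite asymptotic dimension if the peripheral
subgroups do
-/
namespace Pool.Agent.REL

section
variable {G ι : Type} [Group G] {P : ι → Subgroup G} {A : Set G}

private def Asd_d (L : PLen P A) (x y : G) : ℕ := L.l (x⁻¹ * y)

private theorem Asd_one (L : PLen P A) (x : G) : Asd_d L 1 x = L.l x := by
  rw [Asd_d, inv_one, one_mul]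

private theorem Asd_comm (L : PLen P A) (x y : G) : Asd_d L x y = Asd_d L y x := by
  rw [Asd_d, Asd_d, ← L.inv (x⁻¹ * y), mul_inv_rev, inv_inv]

private theorem Asd_tri (L : PLen P A) (x y z : G) : Asd_d L x z ≤ Asd_d L x y + Asd_d L y z := by
  have h := L.mul (x⁻¹ * y) (y⁻¹ * z)
  have h1 : x⁻¹ * y * (y⁻¹ * z) = x⁻¹ * z := by group
  rw [h1] at h
  exact h

private theorem Asd_u1 (L : PLen P A) (a b c : G) :
    (Asd_d L a c : ℤ) - L.l a - L.l c ≤
      max ((Asd_d L a b : ℤ) - L.l a - L.l b) ((Asd_d L b c : ℤ) - L.l b - L.l c) + L.δ := by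
  have h := L.hyp a 1 c b
  have h1 : L.l (a⁻¹ * c) = Asd_d L a c := rfl
  have h2 : L.l ((1 : G)⁻¹ * b) = L.l b := by rw [inv_one, one_mul]
  have h3 : L.l (a⁻¹ * 1) = L.l a := by rw [mul_one, L.inv]
  have h4 : L.l (c⁻¹ * b) = Asd_d L b c := Asd_comm L c b
  have h5 : L.l (a⁻¹ * b) = Asd_d L a b := rfl
  have h6 : L.l ((1 : G)⁻¹ * c) = L.l c := by rw [inv_one, one_mul]
  rw [h1, h2, h3, h4, h5, h6] at h
  omega

private theorem Asd_u2 (L : PLen P A) (i : ι) (g a b c : G) :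
    (Asd_d L a c : ℤ) - L.β i (g⁻¹ * a) - L.β i (g⁻¹ * c) ≤
      max ((Asd_d L a b : ℤ) - L.β i (g⁻¹ * a) - L.β i (g⁻¹ * b))
        ((Asd_d L b c : ℤ) - L.β i (g⁻¹ * b) - L.β i (g⁻¹ * c)) + L.δ := by
  have h := L.β_hyp i (g⁻¹ * a) (g⁻¹ * c) (g⁻¹ * b)
  have h0 : ∀ x y : G, L.l ((g⁻¹ * x)⁻¹ * (g⁻¹ * y)) = Asd_d L x y := by
    intro x y
    have : (g⁻¹ * x)⁻¹ * (g⁻¹ * y) = x⁻¹ * y := by group
    rw [this]
    rfl
  rw [h0, h0, h0, Asd_comm L c b] at h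
  omega

private theorem Asd_blip (L : PLen P A) (i : ι) (g a b : G) :
    L.β i (g⁻¹ * a) ≤ L.β i (g⁻¹ * b) + Asd_d L a b := by
  have h := L.β_lip i (g⁻¹ * a) (g⁻¹ * b)
  have : (g⁻¹ * a)⁻¹ * (g⁻¹ * b) = a⁻¹ * b := by group
  rw [this] at h
  exact h

/-- The points at height about `t` on geodesics to two close points are close. -/
private theorem Asd_short (L : PLen P A) (x x' w w' : G) (t r K : ℕ)
    (hx' : t + 3 * r ≤ L.l x') (hd : Asd_d L x x' ≤ r)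
    (h1 : t ≤ L.l w + K) (h2 : L.l w ≤ t + K) (h3 : Asd_d L w x + L.l w = L.l x)
    (h1' : t ≤ L.l w' + K) (h2' : L.l w' ≤ t + K) (h3' : Asd_d L w' x' + L.l w' = L.l x') :
    Asd_d L w w' ≤ 4 * K + 2 * L.δ := by
  have e1 := Asd_u1 L w x x'
  have e2 := Asd_u1 L w x' w'
  rw [Asd_comm L x' w'] at e2
  omega

/-- Two close points whose geodesics go deep in a horoball at height `t`: it is the same horoball. -/
private theorem Asd_deep (L : PLen P A) (i : ι) (x x' u y u' y' : G) (t r K : ℕ)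
    (hK : K = 5 * L.δ + 1) (hr : K ≤ r) (hx : t + 3 * r ≤ L.l x)
    (hx' : t + 3 * r ≤ L.l x') (hd : Asd_d L x x' ≤ r)
    (h1 : L.l u + K < t) (h2 : t + K < L.l y) (h3 : Asd_d L u y + L.l u = L.l y)
    (h4 : Asd_d L y x + L.l y = L.l x) (h5 : u⁻¹ * y ∈ P i)
    (h1' : L.l u' + K < t) (h2' : t + K < L.l y')
    (h4' : Asd_d L y' x' + L.l y' = L.l x') (h5' : u'⁻¹ * y' ∈ P i) : u⁻¹ * u' ∈ P i := by
  by_contra hne
  have b1 : L.β i (u⁻¹ * u) ≤ L.δ := L.β_on i _ (by rw [inv_mul_cancel]; exact (P i).one_mem)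
  have b2 : L.β i (u⁻¹ * y) ≤ L.δ := L.β_on i _ h5
  have b3 := Asd_blip L i u 1 u
  rw [Asd_one] at b3
  have b4 := Asd_u2 L i u 1 u y
  rw [Asd_one, Asd_one] at b4
  have b5 := L.β_sep i i (u⁻¹ * u') (fun _ => hne) 1 (P i).one_mem (u'⁻¹ * y') h5'
  have e1 : (1 : G)⁻¹ * (u'⁻¹ * y') = u'⁻¹ * y' := by group
  have e2 : u⁻¹ * u' * 1 = u⁻¹ * u' := by group
  have e3 : u⁻¹ * u' * (u'⁻¹ * y') = u⁻¹ * y' := by group
  rw [e1, e2, e3] at b5
  have b6 : L.l (u'⁻¹ * y') = Asd_d L u' y' := rfl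
  rw [b6] at b5
  have b7 := Asd_u2 L i u 1 u' y'
  rw [Asd_one, Asd_one] at b7
  have b8 := Asd_u1 L y x x'
  have b9 := Asd_u1 L y x' y'
  rw [Asd_comm L x' y'] at b9
  have b10 := Asd_u2 L i u 1 y' y
  rw [Asd_one, Asd_one, Asd_comm L y' y] at b10
  have b11 := Asd_u2 L i u 1 y u
  omega

/-- The geodesic to `x` at height `t`: a point of height about `t`, or a deep excursion into a
horoball. -/
private theorem Asd_st (L : PLen P A) (x : G) (t K : ℕ) (hK : 1 ≤ K) (hx : t < L.l x) :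
    (∃ w, t ≤ L.l w + K ∧ L.l w ≤ t + K ∧ Asd_d L w x + L.l w = L.l x) ∨
    ∃ (i : ι) (u y : G), L.l u + K < t ∧ t + K < L.l y ∧ Asd_d L u y + L.l u = L.l y ∧
      Asd_d L y x + L.l y = L.l x ∧ u⁻¹ * y ∈ P i := by
  obtain ⟨n, z, hz0, hzn, hz1, hz2⟩ := L.geo x
  have hg : ∀ j k, j ≤ k → k ≤ n → Asd_d L (z j) (z k) + L.l (z j) = L.l (z k) := by
    intro j k hjk hk
    have h1 := hz2 0 j k (Nat.zero_le _) hjk hk
    rw [hz0, inv_one, one_mul, one_mul] at h1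
    rw [h1, Asd_d]
    exact add_comm _ _
  have hex : ∃ j, t < L.l (z j) := ⟨n, by rw [hzn]; exact hx⟩
  classical
  have hj := Nat.find_spec hex
  have hmin : ∀ k, k < Nat.find hex → L.l (z k) ≤ t := fun k hk =>
    not_lt.1 (Nat.find_min hex hk)
  have hle : Nat.find hex ≤ n := Nat.find_min' hex (by rw [hzn]; exact hx)
  have hpos : Nat.find hex ≠ 0 := by
    intro h0
    rw [h0, hz0, L.one] at hj
    omega
  obtain ⟨j, hj'⟩ := Nat.exists_eq_succ_of_ne_zero hpos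
  rw [hj'] at hj hle
  have hu : L.l (z j) ≤ t := hmin j (by rw [hj']; exact Nat.lt_succ_self j)
  have g1 := hg j (j + 1) (Nat.le_succ j) hle
  have g2 := hg (j + 1) n hle le_rfl
  have g3 := hg j n (by omega) le_rfl
  rw [hzn] at g2 g3
  have hj2 : t < L.l (z (j + 1)) := hj
  by_cases c1 : t ≤ L.l (z j) + K
  · exact Or.inl ⟨z j, c1, by omega, g3⟩
  · by_cases c2 : L.l (z (j + 1)) ≤ t + K
    · exact Or.inl ⟨z (j + 1), by omega, c2, g2⟩
    · right
      rcases (hz1 j hle).1 with ha | ⟨i, hi⟩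
      · have h1 := L.le_one _ ha
        have h2 : Asd_d L (z j) (z (j + 1)) ≤ 1 := h1
        omega
      · exact ⟨i, z j, z (j + 1), by omega, by omega, g1, g2, hi⟩

end

/-- Colours in a finite type. -/
private theorem Asd_type {G T : Type} [Group G] [Finite T] [Nonempty T]
    (h : ∀ F : Set G, F.Finite → ∃ K : Set G, K.Finite ∧ ∃ c : G → T, ∀ x y : G,
      Relation.ReflTransGen (fun u v => c u = c v ∧ u⁻¹ * v ∈ F) x y → x⁻¹ * y ∈ K) :
    ∃ D, VNP.AsdimLE G D := by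
  obtain ⟨k, ⟨e⟩⟩ := Finite.exists_equiv_fin T
  have hk : k ≠ 0 := by
    intro h0
    have := e (Classical.arbitrary T)
    rw [h0] at this
    exact this.elim0
  obtain ⟨m, rfl⟩ := Nat.exists_eq_succ_of_ne_zero hk
  refine ⟨m, fun F hF => ?_⟩
  obtain ⟨K, hK, c, hc⟩ := h F hF
  refine ⟨K, hK, fun x => e (c x), fun x y hxy => hc x y ?_⟩
  refine Relation.ReflTransGen.mono ?_ _ _ hxy
  rintro u v ⟨h1, h2⟩
  exact ⟨e.injective h1, h2⟩

/-- Groups with a relative length function whose peripheral subgroups have finite asymptotic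
dimension have finite asymptotic dimension. -/
theorem plen_asdim {G ι : Type} [Group G] [Finite ι] {P : ι → Subgroup G} {A : Set G}
    (L : PLen P A) (ha : ∀ i, ∃ D, VNP.AsdimLE (P i) D) : ∃ D, VNP.AsdimLE G D := by
  classical
  choose Dm hDm using ha
  obtain ⟨K, hK⟩ : ∃ K, K = 5 * L.δ + 1 := ⟨_, rfl⟩
  obtain ⟨M, χ, hχ⟩ := HYP.greedy_col {g : G | L.l g ≤ 4 * K + 2 * L.δ} (L.fin _)
    (fun b hb => by
      show L.l b⁻¹ ≤ _
      rw [L.inv]
      exact hb)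
  refine Asd_type (T := Fin 2 × (Fin (M + 1) ⊕ Σ i, Fin (Dm i + 1))) fun F hF => ?_
  obtain ⟨r0, hr0⟩ : ∃ r, ∀ f ∈ F, L.l f ≤ r := by
    obtain ⟨r, hr⟩ := (hF.image L.l).bddAbove
    exact ⟨r, fun f hf => hr ⟨f, hf, rfl⟩⟩
  obtain ⟨r, hrr, hrK⟩ : ∃ r, r0 ≤ r ∧ K + L.δ + 1 ≤ r :=
    ⟨max r0 (K + L.δ + 1), le_max_left _ _, le_max_right _ _⟩
  have hr : ∀ f ∈ F, L.l f ≤ r := fun f hf => (hr0 f hf).trans hrr
  have hN : 0 < 3 * r := by omega
  let n : G → ℕ := fun x => L.l x / (3 * r)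
  let tt : G → ℕ := fun x => 3 * r * (n x - 1)
  have hn1 : ∀ x, n x ≠ 0 → tt x + 3 * r ≤ L.l x := by
    intro x hx
    have h1 : n x * (3 * r) ≤ L.l x := Nat.div_mul_le_self _ _
    obtain ⟨k, hk⟩ := Nat.exists_eq_succ_of_ne_zero hx
    show 3 * r * (n x - 1) + 3 * r ≤ L.l x
    rw [hk] at h1 ⊢
    have h2 : 3 * r * (k.succ - 1) + 3 * r = k.succ * (3 * r) := by
      rw [Nat.succ_sub_one, Nat.succ_eq_add_one]
      ring
    omega
  have hn2 : ∀ x, n x ≠ 0 → L.l x < tt x + 6 * r := by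
    intro x hx
    have h1 := Nat.lt_mul_div_succ (L.l x) hN
    obtain ⟨k, hk⟩ := Nat.exists_eq_succ_of_ne_zero hx
    have h3 : L.l x / (3 * r) = k + 1 := hk
    show L.l x < 3 * r * (n x - 1) + 6 * r
    rw [hk, Nat.succ_sub_one]
    rw [h3] at h1
    have h4 : 3 * r * (k + 1 + 1) = 3 * r * k + 6 * r := by ring
    omega
  have hn0 : ∀ x, n x = 0 → L.l x < 3 * r := by
    intro x hx
    exact (Nat.div_eq_zero_iff_lt hN).1 hx
  -- the data of a point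
  have hst : ∀ x, ∃ s : G ⊕ (ι × G × G),
      (∀ w, s = Sum.inl w → (n x = 0 → w = 1) ∧ (n x ≠ 0 → tt x ≤ L.l w + K ∧
        L.l w ≤ tt x + K ∧ Asd_d L w x + L.l w = L.l x)) ∧
      (∀ i u y, s = Sum.inr (i, u, y) → n x ≠ 0 ∧ L.l u + K < tt x ∧ tt x + K < L.l y ∧
        Asd_d L u y + L.l u = L.l y ∧ Asd_d L y x + L.l y = L.l x ∧ u⁻¹ * y ∈ P i) := by
    intro x
    by_cases h0 : n x = 0
    · refine ⟨Sum.inl 1, fun w hw => ⟨fun _ => (Sum.inl_injective hw).symm, fun h => absurd h0 h⟩,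
        fun i u y h => by simp at h⟩
    · have h1 := hn1 x h0
      rcases Asd_st L x (tt x) K (by omega) (by omega) with ⟨w, hw⟩ | ⟨i, u, y, hy⟩
      · refine ⟨Sum.inl w, fun w' hw' => ⟨fun h => absurd h h0, fun _ => ?_⟩,
          fun i u y h => by simp at h⟩
        rw [← Sum.inl_injective hw']
        exact hw
      · refine ⟨Sum.inr (i, u, y), fun w' hw' => by simp at hw', fun i' u' y' h => ?_⟩
        have h2 := Sum.inr_injective h
        simp only [Prod.mk.injEq] at h2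
        obtain ⟨rfl, rfl, rfl⟩ := h2
        exact ⟨h0, hy⟩
  choose st hst1 hst2 using hst
  have hcol : ∀ i, ∃ Kc : Set (P i), Kc.Finite ∧ ∃ c : P i → Fin (Dm i + 1), ∀ x y : P i,
      Relation.ReflTransGen (fun u v => c u = c v ∧
        u⁻¹ * v ∈ {p : P i | L.l (p : G) ≤ 13 * r}) x y → x⁻¹ * y ∈ Kc := fun i =>
    hDm i _ ((L.fin (13 * r)).preimage Subtype.val_injective.injOn)
  choose Kc hKc c hc using hcol
  let b : ∀ i : ι, G → G := fun i u => (QuotientGroup.mk u : G ⧸ P i).out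
  have hb1 : ∀ i u, (b i u)⁻¹ * u ∈ P i := fun i u =>
    QuotientGroup.eq.1 (QuotientGroup.out_eq' (QuotientGroup.mk u : G ⧸ P i))
  have hb2 : ∀ i u u', u⁻¹ * u' ∈ P i → b i u = b i u' := fun i u u' h => by
    show (QuotientGroup.mk u : G ⧸ P i).out = (QuotientGroup.mk u' : G ⧸ P i).out
    rw [QuotientGroup.eq.2 h]
  let c' : ∀ i : ι, G → Fin (Dm i + 1) := fun i g => if h : g ∈ P i then c i ⟨g, h⟩ else 0
  let col : G → Fin 2 × (Fin (M + 1) ⊕ Σ i, Fin (Dm i + 1)) := fun x =>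
    (⟨n x % 2, Nat.mod_lt _ (by norm_num)⟩,
      Sum.elim (fun w => Sum.inl (χ w)) (fun q => Sum.inr ⟨q.1, c' q.1 ((b q.1 q.2.1)⁻¹ * q.2.2)⟩)
        (st x))
  obtain ⟨R, hR⟩ : ∃ R, ∀ i, ∀ p ∈ Kc i, L.l (p : G) ≤ R := by
    have h1 : ∀ i, ∃ R, ∀ p ∈ Kc i, L.l (p : G) ≤ R := by
      intro i
      obtain ⟨R, hR⟩ := ((hKc i).image (fun p : P i => L.l (p : G))).bddAbove
      exact ⟨R, fun p hp => hR ⟨p, hp, rfl⟩⟩
    choose R hR using h1
    obtain ⟨R', hR'⟩ := (Set.finite_range R).bddAbove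
    exact ⟨R', fun i p hp => (hR i p hp).trans (hR' ⟨i, rfl⟩)⟩
  refine ⟨{g | L.l g ≤ 12 * r + 2 * K + R}, L.fin _, col, fun x y hxy => ?_⟩
  have hnn : ∀ u v, col u = col v → L.l (u⁻¹ * v) ≤ r → n u = n v := by
    intro u v huv hd
    have h1 : n u % 2 = n v % 2 := congrArg (fun q => (q.1 : ℕ)) huv
    have h2 := Asd_tri L 1 u v
    have h3 := Asd_tri L 1 v u
    rw [Asd_one, Asd_one] at h2 h3
    rw [Asd_comm L v u] at h3
    have h4 : Asd_d L u v ≤ r := hd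
    have h5 : n u ≤ n v + 1 := by
      have h8 : L.l u / (3 * r) ≤ (L.l v + 3 * r) / (3 * r) := Nat.div_le_div_right (by omega)
      rwa [Nat.add_div_right _ hN] at h8
    have h6 : n v ≤ n u + 1 := by
      have h8 : L.l v / (3 * r) ≤ (L.l u + 3 * r) / (3 * r) := Nat.div_le_div_right (by omega)
      rwa [Nat.add_div_right _ hN] at h8
    omega
  have htt : ∀ u v, n u = n v → tt u = tt v := fun u v h => by
    show 3 * r * (n u - 1) = 3 * r * (n v - 1)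
    rw [h]
  -- one step, short points
  have hS : ∀ u v w, col u = col v → u⁻¹ * v ∈ F → st u = Sum.inl w → st v = Sum.inl w := by
    intro u v w huv hF hw
    have hd := hr _ hF
    have h1 := hnn u v huv hd
    have h2 : Sum.elim (fun w => Sum.inl (χ w))
        (fun q => Sum.inr (⟨q.1, c' q.1 ((b q.1 q.2.1)⁻¹ * q.2.2)⟩ : Σ i, Fin (Dm i + 1))) (st u)
        = Sum.elim (fun w => Sum.inl (χ w))
        (fun q => Sum.inr ⟨q.1, c' q.1 ((b q.1 q.2.1)⁻¹ * q.2.2)⟩) (st v) :=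
      congrArg (fun q => q.2) huv
    rcases hv : st v with w' | q
    · rw [hw, hv, Sum.elim_inl, Sum.elim_inl] at h2
      have h3 : χ w = χ w' := Sum.inl_injective h2
      by_cases h0 : n u = 0
      · rw [((hst1 u w hw).1 h0), ((hst1 v w' hv).1 (h1 ▸ h0))]
      · by_contra hne
        obtain ⟨a1, a2, a3⟩ := (hst1 u w hw).2 h0
        obtain ⟨b1, b2, b3⟩ := (hst1 v w' hv).2 (h1 ▸ h0)
        have c1 := hn1 v (h1 ▸ h0)
        rw [← htt u v h1] at b1 b2 c1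
        refine hχ w w' ?_ (fun h => hne (by rw [h])) h3
        exact Asd_short L u v w w' (tt u) r K c1 hd a1 a2 a3 b1 b2 b3
    · rw [hw, hv, Sum.elim_inl, Sum.elim_inr] at h2
      exact absurd h2 (by simp)
  -- one step, deep points
  have hDp : ∀ x x' i u y, col x = col x' → x⁻¹ * x' ∈ F → st x = Sum.inr (i, u, y) →
      ∃ u' y', st x' = Sum.inr (i, u', y') ∧ u⁻¹ * u' ∈ P i ∧ Asd_d L y y' ≤ 13 * r ∧
        c' i ((b i u)⁻¹ * y) = c' i ((b i u')⁻¹ * y') := by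
    intro x x' i u y hxx hF hx
    have hd := hr _ hF
    have h1 := hnn x x' hxx hd
    have h2 : Sum.elim (fun w => Sum.inl (χ w))
        (fun q => Sum.inr (⟨q.1, c' q.1 ((b q.1 q.2.1)⁻¹ * q.2.2)⟩ : Σ i, Fin (Dm i + 1))) (st x)
        = Sum.elim (fun w => Sum.inl (χ w))
        (fun q => Sum.inr ⟨q.1, c' q.1 ((b q.1 q.2.1)⁻¹ * q.2.2)⟩) (st x') :=
      congrArg (fun q => q.2) hxx
    rcases hv : st x' with w' | ⟨i', u', y'⟩
    · rw [hx, hv, Sum.elim_inl, Sum.elim_inr] at h2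
      exact absurd h2 (by simp)
    · rw [hx, hv, Sum.elim_inr, Sum.elim_inr] at h2
      have h3 := Sum.inr_injective h2
      simp only [Sigma.mk.injEq] at h3
      obtain ⟨rfl, h4⟩ := h3
      have h5 := eq_of_heq h4
      obtain ⟨a0, a1, a2, a3, a4, a5⟩ := hst2 x i u y hx
      obtain ⟨b0, b1, b2, b3, b4, b5⟩ := hst2 x' i u' y' hv
      have c1 := hn1 x a0
      have c2 := hn1 x' b0
      have c3 := hn2 x a0
      have c4 := hn2 x' b0
      rw [← htt x x' h1] at b1 b2 c2 c4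
      refine ⟨u', y', rfl, ?_, ?_, h5⟩
      · exact Asd_deep L i x x' u y u' y' (tt x) r K hK (by omega) c1 c2 hd a1 a2 a3 a4 a5 b1 b2
          b4 b5
      · have d1 := Asd_tri L y x y'
        have d2 := Asd_tri L x x' y'
        rw [Asd_comm L x' y'] at d2
        have d3 : Asd_d L x x' ≤ r := hd
        omega
  show Asd_d L x y ≤ 12 * r + 2 * K + R
  rcases hx : st x with w | ⟨i, u, z⟩
  · have h1 : n x = n y ∧ st y = Sum.inl w := by
      induction hxy with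
      | refl => exact ⟨rfl, hx⟩
      | tail _ hab ih =>
        exact ⟨ih.1.trans (hnn _ _ hab.1 (hr _ hab.2)), hS _ _ w hab.1 hab.2 ih.2⟩
    obtain ⟨h1, h2⟩ := h1
    by_cases h0 : n x = 0
    · have e1 := hn0 x h0
      have e2 := hn0 y (h1 ▸ h0)
      have e3 := Asd_tri L x 1 y
      rw [Asd_comm L x 1, Asd_one, Asd_one] at e3
      omega
    · obtain ⟨a1, a2, a3⟩ := (hst1 x w hx).2 h0
      obtain ⟨b1, b2, b3⟩ := (hst1 y w h2).2 (h1 ▸ h0)
      have c3 := hn2 x h0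
      have c4 := hn2 y (h1 ▸ h0)
      rw [← htt x y h1] at b1 c4
      have e3 := Asd_tri L x w y
      rw [Asd_comm L x w] at e3
      omega
  · obtain ⟨a0, a1, a2, a3, a4, a5⟩ := hst2 x i u z hx
    have hm : ∀ u' z' : G, u⁻¹ * u' ∈ P i → u'⁻¹ * z' ∈ P i → (b i u)⁻¹ * z' ∈ P i := by
      intro u' z' h1 h2
      have h3 : (b i u)⁻¹ * z' = (b i u)⁻¹ * u * (u⁻¹ * u') * (u'⁻¹ * z') := by group
      rw [h3]
      exact (P i).mul_mem ((P i).mul_mem (hb1 i u) h1) h2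
    have hz0 : (b i u)⁻¹ * z ∈ P i := hm u z (by rw [inv_mul_cancel]; exact (P i).one_mem) a5
    have h1 : n x = n y ∧ ∃ u' z', st y = Sum.inr (i, u', z') ∧ u⁻¹ * u' ∈ P i ∧
        ∃ h : (b i u)⁻¹ * z' ∈ P i, Relation.ReflTransGen (fun u v => c i u = c i v ∧
          u⁻¹ * v ∈ {p : P i | L.l (p : G) ≤ 13 * r}) ⟨(b i u)⁻¹ * z, hz0⟩
            ⟨(b i u)⁻¹ * z', h⟩ := by
      induction hxy with
      | refl =>
        exact ⟨rfl, u, z, hx, by rw [inv_mul_cancel]; exact (P i).one_mem, hz0,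
          Relation.ReflTransGen.refl⟩
      | @tail v v' _ hab ih =>
        obtain ⟨i1, u1, z1, i2, i3, i4, i5⟩ := ih
        obtain ⟨u2, z2, j1, j2, j3, j4⟩ := hDp v v' i u1 z1 hab.1 hab.2 i2
        have j5 : u⁻¹ * u2 ∈ P i := by
          have h3 : u⁻¹ * u2 = (u⁻¹ * u1) * (u1⁻¹ * u2) := by group
          rw [h3]
          exact (P i).mul_mem i3 j2
        obtain ⟨_, _, _, _, _, k5⟩ := hst2 v' i u2 z2 j1
        have j6 := hm u2 z2 j5 k5
        refine ⟨i1.trans (hnn _ _ hab.1 (hr _ hab.2)), u2, z2, j1, j5, j6, i5.tail ⟨?_, ?_⟩⟩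
        · rw [← hb2 i u u1 i3, ← hb2 i u u2 j5] at j4
          simp only [c'] at j4
          rw [dif_pos i4, dif_pos j6] at j4
          exact j4
        · show L.l (((b i u)⁻¹ * z1)⁻¹ * ((b i u)⁻¹ * z2)) ≤ 13 * r
          have h3 : ((b i u)⁻¹ * z1)⁻¹ * ((b i u)⁻¹ * z2) = z1⁻¹ * z2 := by group
          rw [h3]
          exact j3
    obtain ⟨h1, u', z', h2, h3, h4, h5⟩ := h1
    obtain ⟨b0, b1, b2, b3, b4, b5⟩ := hst2 y i u' z' h2
    have h6 := hR i _ (hc i _ _ h5)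
    have h7 : L.l (((b i u)⁻¹ * z)⁻¹ * ((b i u)⁻¹ * z')) ≤ R := h6
    have h8 : ((b i u)⁻¹ * z)⁻¹ * ((b i u)⁻¹ * z') = z⁻¹ * z' := by group
    rw [h8] at h7
    have h9 : Asd_d L z z' ≤ R := h7
    have c3 := hn2 x a0
    have c4 := hn2 y b0
    rw [← htt x y h1] at b1 b2 c4
    have e3 := Asd_tri L x z y
    have e4 := Asd_tri L z z' y
    rw [Asd_comm L x z] at e3
    omega

end Pool.Agent.REL
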