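import Mathlib
/-!
# Relatively hyperbolic groups: the cusped graph
-/
namespace Pool.Agent.REL

/-- `g` is a product of at most `k` elements of `S`. -/
def Pow {G : Type} [Group G] (S : Set G) (k : ℕ) (g : G) : Prop :=
  ∃ w : List G, (∀ x ∈ w, x ∈ S) ∧ w.length ≤ k ∧ w.prod = g

/-- The edges of the cusped graph of Groves and Manning: the Cayley graph of `G` for `A`, with a
combinatorial horoball glued to each coset `g (P i)`, where `P i` is generated by `S i`. The vertex
`(g, none)` is the vertex `g` of the Cayley graph; the vertex `(g, some (i, n))` lies at depth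
`n + 1` below `g` in the horoball of `g (P i)`. -/
inductive CAdj {G ι : Type} [Group G] (A : Set G) (S : ι → Set G) :
    G × Option (ι × ℕ) → G × Option (ι × ℕ) → Prop
  | cay (g a : G) (h : a ∈ A) : CAdj A S (g, none) (g * a, none)
  | down (g : G) (i : ι) : CAdj A S (g, none) (g, some (i, 0))
  | vert (g : G) (i : ι) (n : ℕ) : CAdj A S (g, some (i, n)) (g, some (i, n + 1))
  | hor (g p : G) (i : ι) (n : ℕ) (h : Pow (S i) (2 ^ (n + 1)) p) :
      CAdj A S (g, some (i, n)) (g * p, some (i, n))

/-- The cusped graph. -/
def cusped {G ι : Type} [Group G] (A : Set G) (S : ι → Set G) :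
    SimpleGraph (G × Option (ι × ℕ)) :=
  SimpleGraph.fromRel (CAdj A S)

/-- `G` is hyperbolic relative to the subgroups `P i`: for some finite generating set `A` of `G`
which contains finite symmetric generating sets `S i` of the `P i`, the cusped graph is hyperbolic
(four point condition). -/
def RelHyp {G ι : Type} [Group G] (P : ι → Subgroup G) : Prop :=
  ∃ (A : Set G) (S : ι → Set G), A.Finite ∧ Subgroup.closure A = ⊤ ∧
    (∀ i, S i ⊆ A ∧ (∀ s ∈ S i, s⁻¹ ∈ S i) ∧ Subgroup.closure (S i) = P i) ∧
    ∃ δ : ℕ, ∀ x y z w : G × Option (ι × ℕ),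
      (cusped A S).dist x z + (cusped A S).dist y w ≤
        max ((cusped A S).dist x y + (cusped A S).dist z w)
          ((cusped A S).dist x w + (cusped A S).dist y z) + δ

/-- `G` is word-hyperbolic: it is hyperbolic relative to the empty family, that is, the Cayley graph
for some finite generating set satisfies the four point condition. -/
def Hyp (G : Type) [Group G] : Prop := RelHyp (fun e : Empty => (e.elim : Subgroup G))

end Pool.Agent.REL
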