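import Mathlib
import Pool.Agent.REL.RelDef
/-!
# The cusped graph: the action of the group, connectedness
-/
namespace Pool.Agent.REL

section
variable {G ι : Type} [Group G] {A : Set G} {S : ι → Set G}

theorem a1_cadj (g : G) {x y : G × Option (ι × ℕ)} (h : CAdj A S x y) :
    CAdj A S (g * x.1, x.2) (g * y.1, y.2) := by
  cases h with
  | cay u a h => simpa [mul_assoc] using CAdj.cay (A := A) (S := S) (g * u) a h
  | down u i => exact CAdj.down (g * u) i
  | vert u i n => exact CAdj.vert (g * u) i n
  | hor u p i n h => simpa [mul_assoc] using CAdj.hor (A := A) (S := S) (g * u) p i n h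

theorem a1_adj (g : G) {x y : G × Option (ι × ℕ)} (h : (cusped A S).Adj x y) :
    (cusped A S).Adj (g * x.1, x.2) (g * y.1, y.2) := by
  rw [cusped, SimpleGraph.fromRel_adj] at h ⊢
  obtain ⟨hne, h⟩ := h
  refine ⟨?_, ?_⟩
  · intro he
    apply hne
    have h1 := congrArg Prod.fst he
    have h2 := congrArg Prod.snd he
    exact Prod.ext (mul_left_cancel h1) h2
  · rcases h with h | h
    · exact Or.inl (a1_cadj g h)
    · exact Or.inr (a1_cadj g h)

/-- The action as a graph homomorphism. -/
def a1Hom (A : Set G) (S : ι → Set G) (g : G) : cusped A S →g cusped A S where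
  toFun x := (g * x.1, x.2)
  map_rel' h := a1_adj g h

theorem a1_reach (g : G) {x y : G × Option (ι × ℕ)} (h : (cusped A S).Reachable x y) :
    (cusped A S).Reachable (g * x.1, x.2) (g * y.1, y.2) := h.map (a1Hom A S g)

theorem a1_le (g : G) {x y : G × Option (ι × ℕ)} (h : (cusped A S).Reachable x y) :
    (cusped A S).dist (g * x.1, x.2) (g * y.1, y.2) ≤ (cusped A S).dist x y := by
  obtain ⟨p, hp⟩ := h.exists_walk_length_eq_dist
  rw [← hp, ← SimpleGraph.Walk.length_map (a1Hom A S g) p]
  exact SimpleGraph.dist_le _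

/-! A1 (CAct.lean) -/
theorem cd_act (g : G) (x y : G × Option (ι × ℕ)) :
    (cusped A S).dist (g * x.1, x.2) (g * y.1, y.2) = (cusped A S).dist x y := by
  have hinv : ∀ z : G × Option (ι × ℕ), (g⁻¹ * (g * z.1), z.2) = z := by
    intro z
    simp
  by_cases h : (cusped A S).Reachable x y
  · apply le_antisymm (a1_le g h)
    have := a1_le (A := A) (S := S) g⁻¹ (a1_reach g h)
    simpa [hinv] using this
  · have h' : ¬ (cusped A S).Reachable (g * x.1, x.2) (g * y.1, y.2) := by
      intro h2
      apply h
      have := a1_reach (A := A) (S := S) g⁻¹ h2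
      simpa [hinv] using this
    rw [SimpleGraph.dist_eq_zero_of_not_reachable h,
      SimpleGraph.dist_eq_zero_of_not_reachable h']

theorem a1_of_cadj {x y : G × Option (ι × ℕ)} (h : CAdj A S x y) :
    (cusped A S).Reachable x y := by
  by_cases hxy : x = y
  · rw [hxy]
  · apply SimpleGraph.Adj.reachable
    rw [cusped, SimpleGraph.fromRel_adj]
    exact ⟨hxy, Or.inl h⟩

theorem a1_down (g : G) (i : ι) (n : ℕ) :
    (cusped A S).Reachable (g, none) (g, some (i, n)) := by
  induction n with
  | zero => exact a1_of_cadj (CAdj.down g i)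
  | succ n ih => exact ih.trans (a1_of_cadj (CAdj.vert g i n))

theorem a1_one (hA : Subgroup.closure A = ⊤) (g : G) :
    ∀ u : G, (cusped A S).Reachable (u, none) (u * g, none) := by
  have hg : g ∈ Subgroup.closure A := by
    rw [hA]
    exact Subgroup.mem_top g
  induction hg using Subgroup.closure_induction with
  | mem x hx => exact fun u => a1_of_cadj (CAdj.cay u x hx)
  | one => 
    intro u
    rw [mul_one]
  | mul x y _ _ ihx ihy =>
    intro u
    have := (ihx u).trans (ihy (u * x))
    rwa [mul_assoc] at this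
  | inv x _ ih =>
    intro u
    have := (ih (u * x⁻¹)).symm
    rwa [inv_mul_cancel_right] at this

theorem cd_conn (hA : Subgroup.closure A = ⊤) : (cusped A S).Connected := by
  have h1 : ∀ x : G × Option (ι × ℕ), (cusped A S).Reachable (1, none) x := by
    rintro ⟨g, o⟩
    have h := a1_one (A := A) (S := S) hA g 1
    rw [one_mul] at h
    rcases o with _ | ⟨i, n⟩
    · exact h
    · exact h.trans (a1_down g i n)
  have : Nonempty (G × Option (ι × ℕ)) := ⟨(1, none)⟩
  exact ⟨fun x y => (h1 x).symm.trans (h1 y)⟩

end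

end Pool.Agent.REL
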