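import Pool.Agent.REL.Defs
/-!
# The depth function of the cusped graph
-/
namespace Pool.Agent.REL
open Pool.Agent.SLX

section
variable {G ι : Type} [Group G] {A : Set G} {S : ι → Set G} {P : ι → Subgroup G}

private theorem A2_reach_down (x : G) (i : ι) (n : ℕ) :
    (cusped A S).Reachable (x, none) (x, some (i, n)) := by
  induction n with
  | zero =>
    refine SimpleGraph.Adj.reachable ?_
    rw [cusped, SimpleGraph.fromRel_adj]
    exact ⟨by simp, Or.inl (CAdj.down x i)⟩
  | succ n ih =>
    refine ih.trans (SimpleGraph.Adj.reachable ?_)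
    rw [cusped, SimpleGraph.fromRel_adj]
    exact ⟨by simp, Or.inl (CAdj.vert x i n)⟩

private theorem A2_reach_top (hA : Subgroup.closure A = ⊤) (g : G) :
    ∀ x : G, (cusped A S).Reachable (x, none) (x * g, none) := by
  have hg : g ∈ Subgroup.closure A := by rw [hA]; trivial
  induction hg using Subgroup.closure_induction with
  | mem a ha =>
    intro x
    by_cases h : x = x * a
    · rw [← h]
    · refine SimpleGraph.Adj.reachable ?_
      rw [cusped, SimpleGraph.fromRel_adj]
      refine ⟨?_, Or.inl (CAdj.cay x a ha)⟩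
      intro h'
      exact h (congrArg Prod.fst h')
  | one => intro x; rw [mul_one]
  | mul a b _ _ iha ihb =>
    intro x
    rw [← mul_assoc]
    exact (iha x).trans (ihb (x * a))
  | inv a _ iha =>
    intro x
    have h := iha (x * a⁻¹)
    rw [inv_mul_cancel_right] at h
    exact h.symm

private theorem A2_conn (hA : Subgroup.closure A = ⊤) (u v : G × Option (ι × ℕ)) :
    (cusped A S).Reachable u v := by
  have h1 : ∀ u : G × Option (ι × ℕ), (cusped A S).Reachable (1, none) u := by
    intro u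
    obtain ⟨x, o⟩ := u
    have h2 := A2_reach_top (ι := ι) (S := S) hA x 1
    rw [one_mul] at h2
    rcases o with _ | ⟨i, n⟩
    · exact h2
    · exact h2.trans (A2_reach_down x i n)
  exact (h1 u).symm.trans (h1 v)

private theorem A2_lip (hA : Subgroup.closure A = ⊤) (f : G × Option (ι × ℕ) → ℤ)
    (hf : ∀ u v, CAdj A S u v → |f u - f v| ≤ 1) (u v : G × Option (ι × ℕ)) :
    |f u - f v| ≤ (cusped A S).dist u v := by
  obtain ⟨w, hw⟩ := (A2_conn (S := S) hA u v).exists_walk_length_eq_dist
  rw [← hw]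
  clear hw
  induction w with
  | nil => simp
  | @cons a b c h w ih =>
    have h1 : |f a - f b| ≤ 1 := by
      rw [cusped, SimpleGraph.fromRel_adj] at h
      rcases h.2 with h | h
      · exact hf _ _ h
      · rw [abs_sub_comm]
        exact hf _ _ h
    have h2 : |f a - f c| ≤ |f a - f b| + |f b - f c| := abs_sub_le _ _ _
    rw [SimpleGraph.Walk.length_cons]
    push_cast
    linarith

private theorem A2_pow_mem (hS : ∀ i, Subgroup.closure (S i) = P i) {i : ι} {k : ℕ} {p : G}
    (h : Pow (S i) k p) : p ∈ P i := by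
  obtain ⟨w, hw, -, rfl⟩ := h
  refine Subgroup.list_prod_mem _ fun x hx => ?_
  rw [← hS i]
  exact Subgroup.subset_closure (hw x hx)

open Classical in
/-- the depth in the horoball of the coset of `g` -/
private noncomputable def A2_dep (P : ι → Subgroup G) (i : ι) (g : G)
    (v : G × Option (ι × ℕ)) : ℤ :=
  match v.2 with
  | none => 0
  | some q => if q.1 = i ∧ g⁻¹ * v.1 ∈ P i then (q.2 : ℤ) + 1 else 0

private theorem A2_dep_none (i : ι) (g x : G) : A2_dep P i g (x, none) = 0 := rfl

open Classical in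
private theorem A2_dep_some (i k : ι) (g x : G) (n : ℕ) :
    A2_dep P i g (x, some (k, n)) = if k = i ∧ g⁻¹ * x ∈ P i then (n : ℤ) + 1 else 0 := rfl

private theorem A2_dep_hor (i k : ι) (g x p : G) (n : ℕ) (hp : p ∈ P k) :
    A2_dep P i g (x * p, some (k, n)) = A2_dep P i g (x, some (k, n)) := by
  classical
  rw [A2_dep_some, A2_dep_some]
  have h : (k = i ∧ g⁻¹ * (x * p) ∈ P i) ↔ (k = i ∧ g⁻¹ * x ∈ P i) := by
    constructor
    · rintro ⟨rfl, h⟩
      refine ⟨rfl, ?_⟩
      rw [← mul_assoc] at h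
      exact (Subgroup.mul_mem_cancel_right _ hp).1 h
    · rintro ⟨rfl, h⟩
      refine ⟨rfl, ?_⟩
      rw [← mul_assoc]
      exact (Subgroup.mul_mem_cancel_right _ hp).2 h
  rw [if_congr h rfl rfl]

private theorem A2_dep_lip (hS : ∀ i, Subgroup.closure (S i) = P i) (i : ι) (g : G)
    (u v : G × Option (ι × ℕ)) (h : CAdj A S u v) :
    |A2_dep P i g u - A2_dep P i g v| ≤ 1 := by
  classical
  cases h with
  | cay x a h => rw [A2_dep_none, A2_dep_none]; simp
  | down x k =>
    rw [A2_dep_none, A2_dep_some]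
    split_ifs <;> simp
  | vert x k n =>
    rw [A2_dep_some, A2_dep_some]
    split_ifs <;> simp
  | hor x p k n h =>
    rw [A2_dep_hor i k g x p n (A2_pow_mem hS h)]
    simp

theorem cd_depth (hA : Subgroup.closure A = ⊤) (hS : ∀ i, Subgroup.closure (S i) = P i)
    (x g : G) (i : ι) (N : ℕ) : N + 1 ≤ (cusped A S).dist (x, none) (g, some (i, N)) := by
  classical
  have h := A2_lip hA (A2_dep P i g) (A2_dep_lip (A := A) hS i g) (x, none) (g, some (i, N))
  rw [A2_dep_none, A2_dep_some, if_pos ⟨rfl, by rw [inv_mul_cancel]; exact (P i).one_mem⟩,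
    zero_sub, abs_neg, abs_of_nonneg (by positivity)] at h
  exact_mod_cast h

theorem cd_depth2 (hA : Subgroup.closure A = ⊤) (hS : ∀ i, Subgroup.closure (S i) = P i)
    (g h : G) (i j : ι) (N : ℕ) (hne : i = j → g⁻¹ * h ∉ P i) :
    2 * (N + 1) ≤ (cusped A S).dist (g, some (i, N)) (h, some (j, N)) := by
  classical
  have hdisj : ∀ (k : ι) (x : G), (k = i ∧ g⁻¹ * x ∈ P i) → (k = j ∧ h⁻¹ * x ∈ P j) → False := by
    rintro k x ⟨rfl, h1⟩ ⟨rfl, h2⟩
    apply hne rfl
    have h3 := (P k).mul_mem h1 ((P k).inv_mem h2)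
    have h4 : g⁻¹ * x * (h⁻¹ * x)⁻¹ = g⁻¹ * h := by group
    rwa [h4] at h3
  have hlip : ∀ u v, CAdj A S u v →
      |(A2_dep P i g u - A2_dep P j h u) - (A2_dep P i g v - A2_dep P j h v)| ≤ 1 := by
    intro u v huv
    cases huv with
    | cay x a h => simp only [A2_dep_none]; simp
    | down x k =>
      simp only [A2_dep_none, A2_dep_some]
      by_cases h1 : k = i ∧ g⁻¹ * x ∈ P i
      · have h2 : ¬ (k = j ∧ h⁻¹ * x ∈ P j) := fun h2 => hdisj k x h1 h2
        rw [if_pos h1, if_neg h2]; simp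
      · rw [if_neg h1]
        split_ifs <;> simp
    | vert x k n =>
      simp only [A2_dep_some]
      by_cases h1 : k = i ∧ g⁻¹ * x ∈ P i
      · have h2 : ¬ (k = j ∧ h⁻¹ * x ∈ P j) := fun h2 => hdisj k x h1 h2
        rw [if_pos h1, if_neg h2, if_pos h1, if_neg h2]
        push_cast
        rw [abs_le]
        constructor <;> linarith
      · rw [if_neg h1, if_neg h1]
        split_ifs
        · push_cast
          rw [abs_le]
          constructor <;> linarith
        · simp
    | hor x p k n hp =>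
      rw [A2_dep_hor i k g x p n (A2_pow_mem hS hp), A2_dep_hor j k h x p n (A2_pow_mem hS hp)]
      simp
  have h0 := A2_lip hA (fun u => A2_dep P i g u - A2_dep P j h u) hlip (g, some (i, N))
    (h, some (j, N))
  have e1 : A2_dep P i g (g, some (i, N)) = (N : ℤ) + 1 := by
    rw [A2_dep_some, if_pos ⟨rfl, by rw [inv_mul_cancel]; exact (P i).one_mem⟩]
  have e2 : A2_dep P j h (h, some (j, N)) = (N : ℤ) + 1 := by
    rw [A2_dep_some, if_pos ⟨rfl, by rw [inv_mul_cancel]; exact (P j).one_mem⟩]
  have e3 : A2_dep P j h (g, some (i, N)) = 0 := by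
    rw [A2_dep_some, if_neg]
    intro h2
    exact hdisj i g ⟨rfl, by rw [inv_mul_cancel]; exact (P i).one_mem⟩ h2
  have e4 : A2_dep P i g (h, some (j, N)) = 0 := by
    rw [A2_dep_some, if_neg]
    intro h2
    exact hdisj j h h2 ⟨rfl, by rw [inv_mul_cancel]; exact (P j).one_mem⟩
  simp only [e1, e2, e3, e4] at h0
  have h5 : |((N : ℤ) + 1 - 0) - (0 - ((N : ℤ) + 1))| = 2 * ((N : ℤ) + 1) := by
    rw [abs_of_nonneg] <;> linarith
  rw [h5] at h0
  exact_mod_cast h0

end

end Pool.Agent.REL
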