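import Pool.Agent.REL.Defs
import Pool.Agent.REL.CAct
/-!
# Row A3: the balls of the group in the cusped graph are finite
-/
namespace Pool.Agent.REL

section
variable {G ι : Type} [Group G] {A : Set G} {S : ι → Set G} {P : ι → Subgroup G}

private theorem A3_pow (T : Set G) (hT : T.Finite) (k : ℕ) : {p : G | Pow T k p}.Finite := by
  induction k with
  | zero =>
    apply (Set.finite_singleton (1 : G)).subset
    rintro p ⟨w, -, hl, rfl⟩
    have : w = [] := List.eq_nil_of_length_eq_zero (Nat.le_zero.1 hl)
    rw [this]
    simp
  | succ k ih =>
    apply ((Set.finite_singleton (1 : G)).union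
      (Set.Finite.image2 (fun s q : G => s * q) hT ih)).subset
    rintro p ⟨w, hw, hl, rfl⟩
    cases w with
    | nil => left; simp
    | cons s w =>
      right
      refine ⟨s, hw s List.mem_cons_self, w.prod, ?_, by simp⟩
      refine ⟨w, fun x hx => hw x (List.mem_cons_of_mem _ hx), ?_, rfl⟩
      rw [List.length_cons] at hl
      omega

private theorem A3_nb [Finite ι] (hAf : A.Finite) (hSf : ∀ i, (S i).Finite)
    (v : G × Option (ι × ℕ)) : {w | (cusped A S).Adj v w}.Finite := by
  obtain ⟨g, o⟩ := v
  cases o with
  | none =>
    apply (((hAf.image (fun a => ((g * a, none) : G × Option (ι × ℕ)))).union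
      (hAf.image (fun a => ((g * a⁻¹, none) : G × Option (ι × ℕ))))).union
      (Set.finite_range (fun i : ι => ((g, some (i, 0)) : G × Option (ι × ℕ))))).subset
    intro w hw
    have hw' := ((SimpleGraph.fromRel_adj _ _ _).1 hw).2
    rcases hw' with h | h
    · generalize hv : ((g, none) : G × Option (ι × ℕ)) = v at h
      cases h with
      | cay g' a ha =>
        cases hv
        left; left
        exact ⟨a, ha, rfl⟩
      | down g' i =>
        cases hv
        right
        exact ⟨i, rfl⟩
      | vert g' i n => cases hv
      | hor g' p i n hp => cases hv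
    · generalize hv : ((g, none) : G × Option (ι × ℕ)) = v at h
      cases h with
      | cay g' a ha =>
        cases hv
        left; right
        exact ⟨a, ha, by simp⟩
      | down g' i => cases hv
      | vert g' i n => cases hv
      | hor g' p i n hp => cases hv
  | some q =>
    obtain ⟨i, n⟩ := q
    have hP := A3_pow (S i) (hSf i) (2 ^ (n + 1))
    apply ((((Set.finite_singleton ((g, none) : G × Option (ι × ℕ))).union
      (Set.finite_singleton ((g, some (i, n + 1)) : G × Option (ι × ℕ)))).union
      (Set.finite_singleton ((g, some (i, n - 1)) : G × Option (ι × ℕ)))).union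
      ((hP.image (fun p => ((g * p, some (i, n)) : G × Option (ι × ℕ)))).union
      (hP.image (fun p => ((g * p⁻¹, some (i, n)) : G × Option (ι × ℕ)))))).subset
    intro w hw
    have hw' := ((SimpleGraph.fromRel_adj _ _ _).1 hw).2
    rcases hw' with h | h
    · generalize hv : ((g, some (i, n)) : G × Option (ι × ℕ)) = v at h
      cases h with
      | cay g' a ha => cases hv
      | down g' j => cases hv
      | vert g' j m =>
        cases hv
        left; left; right
        rfl
      | hor g' p j m hp =>
        cases hv
        right; left
        exact ⟨p, hp, rfl⟩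
    · generalize hv : ((g, some (i, n)) : G × Option (ι × ℕ)) = v at h
      cases h with
      | cay g' a ha => cases hv
      | down g' j =>
        cases hv
        left; left; left
        rfl
      | vert g' j m =>
        cases hv
        left; right
        rfl
      | hor g' p j m hp =>
        cases hv
        right; right
        exact ⟨p, hp, by simp⟩

private theorem A3_ball [Finite ι] (hAf : A.Finite) (hSf : ∀ i, (S i).Finite) (n : ℕ) :
    ∀ u : G × Option (ι × ℕ), {v | ∃ w : (cusped A S).Walk u v, w.length ≤ n}.Finite := by
  induction n with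
  | zero =>
    intro u
    apply (Set.finite_singleton u).subset
    rintro v ⟨w, hw⟩
    have := SimpleGraph.Walk.eq_of_length_eq_zero (Nat.le_zero.1 hw)
    exact this.symm
  | succ n ih =>
    intro u
    apply ((Set.finite_singleton u).union
      ((A3_nb hAf hSf u).biUnion (fun u' _ => ih u'))).subset
    rintro v ⟨w, hw⟩
    cases w with
    | nil => left; rfl
    | cons h p =>
      right
      refine Set.mem_biUnion (x := _) h ⟨p, ?_⟩
      rw [SimpleGraph.Walk.length_cons] at hw
      omega

theorem cd_fin [Finite ι] (hA : Subgroup.closure A = ⊤) (hAf : A.Finite)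
    (hSf : ∀ i, (S i).Finite) (n : ℕ) :
    {g : G | (cusped A S).dist (1, none) (g, none) ≤ n}.Finite := by
  have h1 := A3_ball hAf hSf n ((1, none) : G × Option (ι × ℕ))
  have h2 : Set.InjOn (fun g : G => ((g, none) : G × Option (ι × ℕ)))
      ((fun g : G => ((g, none) : G × Option (ι × ℕ))) ⁻¹'
        {v | ∃ w : (cusped A S).Walk (1, none) v, w.length ≤ n}) := by
    intro a _ b _ hab
    exact (Prod.mk.inj hab).1
  apply (h1.preimage h2).subset
  intro g hg
  obtain ⟨p, hp⟩ := (cd_conn (S := S) hA).exists_walk_length_eq_dist (1, none) (g, none)
  exact ⟨p, hp.le.trans hg⟩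

end

end Pool.Agent.REL
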