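import Pool.Agent.REL.Defs
import Pool.Agent.REL.CAct
/-!
# Relatively hyperbolic groups: geodesics of the cusped graph as paths of letters
-/
namespace Pool.Agent.REL
open Pool.Agent.SLX

section
variable {G ι : Type} [Group G] {A : Set G} {S : ι → Set G} {P : ι → Subgroup G}

private theorem a4_nb {V : Type*} {Γ : SimpleGraph V} (hc : Γ.Connected) {x y : V} (h : x ≠ y) :
    ∃ u, Γ.Adj x u ∧ Γ.dist u y + 1 = Γ.dist x y := by
  obtain ⟨p, hp⟩ := hc.exists_walk_length_eq_dist x y
  cases p with
  | nil => exact absurd rfl h
  | @cons _ u _ h' q =>
    refine ⟨u, h', ?_⟩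
    have h1 : Γ.dist u y ≤ q.length := SimpleGraph.dist_le q
    have h2 : Γ.dist x y ≤ Γ.dist x u + Γ.dist u y := hc.dist_triangle
    have h3 : Γ.dist x u = 1 := SimpleGraph.dist_eq_one_iff_adj.2 h'
    rw [SimpleGraph.Walk.length_cons] at hp
    omega

private theorem a4_pow {i : ι} (hS : Subgroup.closure (S i) = P i) {k : ℕ} {p : G}
    (h : Pow (S i) k p) : p ∈ P i := by
  obtain ⟨w, h1, -, rfl⟩ := h
  rw [← hS]
  exact Subgroup.list_prod_mem _ fun x hx => Subgroup.subset_closure (h1 x hx)

/-- a geodesic from a point of a horoball to a point of the group leaves the horoball -/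
private theorem a4_exit (hA : Subgroup.closure A = ⊤) (hS : ∀ i, Subgroup.closure (S i) = P i)
    (y : G) (i : ι) : ∀ (d : ℕ) (x : G) (n : ℕ),
    (cusped A S).dist (x, some (i, n)) (y, none) = d →
    ∃ q ∈ P i, (cusped A S).dist (x, some (i, n)) (x * q, none) +
      (cusped A S).dist (x * q, none) (y, none) = d := by
  have hc : (cusped A S).Connected := cd_conn hA
  intro d
  induction d with
  | zero =>
    intro x n h
    have h1 := (hc.dist_eq_zero_iff).1 h
    simp at h1
  | succ d ih =>
    intro x n h
    have hne : ((x, some (i, n)) : G × Option (ι × ℕ)) ≠ (y, none) := by simp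
    obtain ⟨u, hu, hd⟩ := a4_nb hc hne
    have hd' : (cusped A S).dist u (y, none) = d := by omega
    have key : ∀ q : G, (cusped A S).dist u (x * q, none) +
        (cusped A S).dist (x * q, none) (y, none) = d →
        (cusped A S).dist (x, some (i, n)) (x * q, none) +
          (cusped A S).dist (x * q, none) (y, none) = d + 1 := by
      intro q hq
      have h1 : (cusped A S).dist (x, some (i, n)) (x * q, none) ≤
          (cusped A S).dist (x, some (i, n)) u + (cusped A S).dist u (x * q, none) :=
        hc.dist_triangle
      have h2 : (cusped A S).dist (x, some (i, n)) u = 1 :=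
        SimpleGraph.dist_eq_one_iff_adj.2 hu
      have h3 : (cusped A S).dist (x, some (i, n)) (y, none) ≤
          (cusped A S).dist (x, some (i, n)) (x * q, none) +
            (cusped A S).dist (x * q, none) (y, none) := hc.dist_triangle
      omega
    unfold cusped at hu
    rw [SimpleGraph.fromRel_adj] at hu
    rcases hu.2 with h1 | h1
    · cases h1 with
      | vert =>
        obtain ⟨q, hq, h2⟩ := ih _ _ hd'
        exact ⟨q, hq, key q h2⟩
      | hor _ p _ _ hp =>
        obtain ⟨q, hq, h2⟩ := ih _ _ hd'
        refine ⟨p * q, (P i).mul_mem (a4_pow (hS i) hp) hq, key _ ?_⟩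
        rw [← mul_assoc]
        exact h2
    · cases h1 with
      | down =>
        refine ⟨1, (P i).one_mem, key 1 ?_⟩
        rw [mul_one, SimpleGraph.dist_self, zero_add]
        exact hd'
      | vert =>
        obtain ⟨q, hq, h2⟩ := ih _ _ hd'
        exact ⟨q, hq, key q h2⟩
      | hor g p _ _ hp =>
        obtain ⟨q, hq, h2⟩ := ih _ _ hd'
        refine ⟨p⁻¹ * q, (P i).mul_mem ((P i).inv_mem (a4_pow (hS i) hp)) hq, key _ ?_⟩
        rw [← mul_assoc, mul_inv_cancel_right]
        exact h2

/-- the first letter of a geodesic -/
private theorem a4_first (hA : Subgroup.closure A = ⊤) (hS : ∀ i, Subgroup.closure (S i) = P i)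
    {x y : G} (hne : x ≠ y) : ∃ s : G, Letter P (A ∪ {a | a⁻¹ ∈ A}) s ∧
      1 ≤ (cusped A S).dist (x, none) (x * s, none) ∧
      (cusped A S).dist (x, none) (x * s, none) +
        (cusped A S).dist (x * s, none) (y, none) = (cusped A S).dist (x, none) (y, none) := by
  have hc : (cusped A S).Connected := cd_conn hA
  have hne' : ((x, none) : G × Option (ι × ℕ)) ≠ (y, none) := by
    intro h
    exact hne (Prod.mk.inj h).1
  obtain ⟨u, hu, hd⟩ := a4_nb hc hne'
  have hu1 : (cusped A S).dist (x, none) u = 1 := SimpleGraph.dist_eq_one_iff_adj.2 hu
  unfold cusped at hu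
  rw [SimpleGraph.fromRel_adj] at hu
  rcases hu.2 with h1 | h1
  · cases h1 with
    | cay _ a ha =>
      refine ⟨a, Or.inl (Or.inl ha), hu1.ge, ?_⟩
      omega
    | down _ i =>
      obtain ⟨q, hq, h2⟩ := a4_exit hA hS y i _ x 0 rfl
      have h3 : (cusped A S).dist (x, none) (x * q, none) ≤
          (cusped A S).dist (x, none) (x, some (i, 0)) +
            (cusped A S).dist (x, some (i, 0)) (x * q, none) := hc.dist_triangle
      have h4 : (cusped A S).dist (x, none) (y, none) ≤
          (cusped A S).dist (x, none) (x * q, none) +
            (cusped A S).dist (x * q, none) (y, none) := hc.dist_triangle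
      refine ⟨q, Or.inr ⟨i, hq⟩, ?_, by omega⟩
      by_contra h5
      have h6 : (cusped A S).dist (x * q, none) (y, none) ≤
          (cusped A S).dist (x, some (i, 0)) (y, none) := by omega
      omega
  · cases h1 with
    | cay g a ha =>
      refine ⟨a⁻¹, Or.inl (Or.inr ?_), ?_, ?_⟩
      · show a⁻¹⁻¹ ∈ A
        rw [inv_inv]
        exact ha
      · rw [mul_inv_cancel_right]
        exact hu1.ge
      · rw [mul_inv_cancel_right]
        omega

theorem cd_geo (hA : Subgroup.closure A = ⊤) (hS : ∀ i, Subgroup.closure (S i) = P i) (g : G) :
    ∃ (n : ℕ) (z : ℕ → G), z 0 = 1 ∧ z n = g ∧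
      GeoP (fun x => (cusped A S).dist (1, none) (x, none)) P (A ∪ {a | a⁻¹ ∈ A}) n z := by
  have hc : (cusped A S).Connected := cd_conn hA
  have hl : ∀ x y : G, (cusped A S).dist (1, none) (x⁻¹ * y, none) =
      (cusped A S).dist (x, none) (y, none) := by
    intro x y
    have h := cd_act (A := A) (S := S) x⁻¹ (x, none) (y, none)
    simpa using h
  have key : ∀ (D : ℕ) (x y : G), (cusped A S).dist (x, none) (y, none) = D →
      ∃ (n : ℕ) (z : ℕ → G), z 0 = x ∧ z n = y ∧
        (∀ j, j < n → Letter P (A ∪ {a | a⁻¹ ∈ A}) ((z j)⁻¹ * z (j + 1)) ∧
          1 ≤ (cusped A S).dist (z j, none) (z (j + 1), none)) ∧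
        ∀ i j k, i ≤ j → j ≤ k → k ≤ n →
          (cusped A S).dist (z i, none) (z k, none) =
            (cusped A S).dist (z i, none) (z j, none) +
              (cusped A S).dist (z j, none) (z k, none) := by
    intro D
    induction D using Nat.strong_induction_on with
    | _ D ih =>
      intro x y hD
      by_cases hne : x = y
      · subst hne
        refine ⟨0, fun _ => x, rfl, rfl, fun j hj => absurd hj (Nat.not_lt_zero _), ?_⟩
        intro i j k _ _ _
        rw [SimpleGraph.dist_self]
      · obtain ⟨s, hs, h1, h2⟩ := a4_first hA hS hne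
        obtain ⟨n, z, z0, zn, h3, h4⟩ := ih _ (by omega) (x * s) y rfl
        refine ⟨n + 1, fun j => match j with
          | 0 => x
          | j + 1 => z j, rfl, zn, ?_, ?_⟩
        · intro j hj
          cases j with
          | zero =>
            show Letter P _ (x⁻¹ * z 0) ∧ 1 ≤ (cusped A S).dist (x, none) (z 0, none)
            rw [z0, inv_mul_cancel_left]
            exact ⟨hs, h1⟩
          | succ j => exact h3 j (by omega)
        · intro i j k hij hjk hk
          cases i with
          | succ i =>
            cases j with
            | zero => omega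
            | succ j =>
              cases k with
              | zero => omega
              | succ k => exact h4 i j k (by omega) (by omega) (by omega)
          | zero =>
            cases j with
            | zero =>
              show (cusped A S).dist (x, none) _ = (cusped A S).dist (x, none) (x, none) +
                (cusped A S).dist (x, none) _
              rw [SimpleGraph.dist_self, zero_add]
            | succ j =>
              cases k with
              | zero => omega
              | succ k =>
                show (cusped A S).dist (x, none) (z k, none) =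
                  (cusped A S).dist (x, none) (z j, none) +
                    (cusped A S).dist (z j, none) (z k, none)
                have e1 := h4 0 j k (Nat.zero_le _) (by omega) (by omega)
                have e2 := h4 0 k n (Nat.zero_le _) (by omega) le_rfl
                rw [z0] at e1 e2
                rw [zn] at e2
                have t1 : (cusped A S).dist (x, none) (z k, none) ≤
                    (cusped A S).dist (x, none) (z j, none) +
                      (cusped A S).dist (z j, none) (z k, none) := hc.dist_triangle
                have t2 : (cusped A S).dist (x, none) (y, none) ≤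
                    (cusped A S).dist (x, none) (z k, none) +
                      (cusped A S).dist (z k, none) (y, none) := hc.dist_triangle
                have t3 : (cusped A S).dist (x, none) (z j, none) ≤
                    (cusped A S).dist (x, none) (x * s, none) +
                      (cusped A S).dist (x * s, none) (z j, none) := hc.dist_triangle
                omega
  obtain ⟨n, z, z0, zn, h1, h2⟩ := key _ 1 g rfl
  refine ⟨n, z, z0, zn, fun j hj => ⟨(h1 j hj).1, ?_⟩, fun i j k hij hjk hk => ?_⟩
  · show 1 ≤ (cusped A S).dist (1, none) ((z j)⁻¹ * z (j + 1), none)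
    rw [hl]
    exact (h1 j hj).2
  · show (cusped A S).dist (1, none) ((z i)⁻¹ * z k, none) =
      (cusped A S).dist (1, none) ((z i)⁻¹ * z j, none) +
        (cusped A S).dist (1, none) ((z j)⁻¹ * z k, none)
    rw [hl, hl, hl]
    exact h2 i j k hij hjk hk

end

end Pool.Agent.REL
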