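import Pool.Agent.REL.RelDef
/-!
# Vertical rays of the cusped graph
-/
namespace Pool.Agent.REL

section
variable {G ι : Type} [Group G] {A : Set G} {S : ι → Set G} {P : ι → Subgroup G}

private theorem cray_adj {x y : G × Option (ι × ℕ)} (hne : x ≠ y) (h : CAdj A S x y) :
    (cusped A S).Adj x y := by
  rw [cusped, SimpleGraph.fromRel_adj]
  exact ⟨hne, Or.inl h⟩

private theorem cray_vert (g : G) (i : ι) (n : ℕ) :
    (cusped A S).Adj (g, some (i, n)) (g, some (i, n + 1)) :=
  cray_adj (by simp) (CAdj.vert g i n)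

private theorem cray_down (g : G) (i : ι) :
    (cusped A S).Adj (g, none) (g, some (i, 0)) :=
  cray_adj (by simp) (CAdj.down g i)

private theorem cray_walk (g : G) (i : ι) (n : ℕ) :
    ∃ w : (cusped A S).Walk (g, none) (g, some (i, n)), w.length = n + 1 := by
  induction n with
  | zero => exact ⟨SimpleGraph.Walk.cons (cray_down g i) SimpleGraph.Walk.nil, by simp⟩
  | succ n ih =>
    obtain ⟨w, hw⟩ := ih
    exact ⟨w.concat (cray_vert g i n), by rw [SimpleGraph.Walk.length_concat, hw]⟩

theorem cd_ray (hA : Subgroup.closure A = ⊤) (hsym : ∀ i, ∀ s ∈ S i, s⁻¹ ∈ S i)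
    (hS : ∀ i, Subgroup.closure (S i) = P i) (i : ι) (p : G) (hp : p ∈ P i) :
    ∃ N0 : ℕ, ∀ N, N0 ≤ N → (cusped A S).dist (p, none) (1, some (i, N)) ≤ N + 2 := by
  have _ := hA
  have hp' : p⁻¹ ∈ Subgroup.closure (S i) := by
    rw [hS i]
    exact (P i).inv_mem hp
  have hp2 : p⁻¹ ∈ Submonoid.closure (S i ∪ (S i)⁻¹) := by
    rw [← Subgroup.closure_toSubmonoid]
    exact hp'
  obtain ⟨l, hl, hlp⟩ := Submonoid.exists_list_of_mem_closure hp2
  refine ⟨l.length, fun N hN => ?_⟩
  obtain ⟨w, hw⟩ := cray_walk (A := A) (S := S) p i N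
  by_cases h1 : p = 1
  · subst h1
    refine le_trans (SimpleGraph.dist_le w) ?_
    omega
  · have hadj : (cusped A S).Adj (p, some (i, N)) (1, some (i, N)) := by
      have h2 : CAdj A S (p, some (i, N)) (p * p⁻¹, some (i, N)) := by
        refine CAdj.hor p p⁻¹ i N ⟨l, ?_, ?_, hlp⟩
        · intro x hx
          rcases hl x hx with h | h
          · exact h
          · have h5 := hsym i _ (Set.mem_inv.1 h)
            rwa [inv_inv] at h5
        · refine le_trans hN ?_
          have h3 : N < 2 ^ N := Nat.lt_two_pow_self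
          have h4 : 2 ^ N ≤ 2 ^ (N + 1) := Nat.pow_le_pow_right (by norm_num) (by omega)
          omega
      rw [mul_inv_cancel] at h2
      refine cray_adj ?_ h2
      intro h3
      exact h1 (congrArg Prod.fst h3)
    refine le_trans (SimpleGraph.dist_le (w.concat hadj)) ?_
    rw [SimpleGraph.Walk.length_concat]
    omega

theorem cd_ray_mono (hA : Subgroup.closure A = ⊤) (x : G) (i : ι) (N : ℕ) :
    (cusped A S).dist (x, none) (1, some (i, N + 1)) ≤
      (cusped A S).dist (x, none) (1, some (i, N)) + 1 := by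
  have _ := hA
  by_cases h : (cusped A S).Reachable (x, none) (1, some (i, N))
  · obtain ⟨w, hw⟩ := h.exists_walk_length_eq_dist
    refine le_trans (SimpleGraph.dist_le (w.concat (cray_vert 1 i N))) ?_
    rw [SimpleGraph.Walk.length_concat]
    omega
  · have h' : ¬ (cusped A S).Reachable (x, none) (1, some (i, N + 1)) := by
      intro h2
      exact h (h2.trans (cray_vert 1 i N).symm.reachable)
    rw [SimpleGraph.dist_eq_zero_of_not_reachable h']
    omega

end

end Pool.Agent.REL
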