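import Pool.Agent.REL.Defs
import Pool.Agent.REL.CAct
import Pool.Agent.REL.CDep
import Pool.Agent.REL.CFin
import Pool.Agent.REL.CGeo
import Pool.Agent.REL.CRay
/-!
# Relatively hyperbolic groups: the length function of the cusped graph
-/
namespace Pool.Agent.REL
open Pool.Agent.SLX

section
variable {G ι : Type} [Group G] {A : Set G} {S : ι → Set G} {P : ι → Subgroup G}

/-- the horofunction of the horoball of `P i` -/
private noncomputable def a6b (A : Set G) (S : ι → Set G) (i : ι) (x : G) : ℕ :=
  sInf (Set.range fun N : ℕ => (cusped A S).dist (x, none) (1, some (i, N)) - (N + 1))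

private theorem a6_ev (hA : Subgroup.closure A = ⊤) (hS : ∀ i, Subgroup.closure (S i) = P i)
    (i : ι) (x : G) : ∃ N0 : ℕ, ∀ N, N0 ≤ N →
      (cusped A S).dist (x, none) (1, some (i, N)) = a6b A S i x + (N + 1) := by
  have hanti : Antitone fun N : ℕ =>
      (cusped A S).dist (x, none) (1, some (i, N)) - (N + 1) := by
    refine antitone_nat_of_succ_le fun N => ?_
    have := cd_ray_mono (A := A) (S := S) hA x i N
    show _ - (N + 1 + 1) ≤ _ - (N + 1)
    omega
  have hmem := Nat.sInf_mem (Set.range_nonempty fun N : ℕ =>
    (cusped A S).dist (x, none) (1, some (i, N)) - (N + 1))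
  obtain ⟨N0, hN0⟩ := hmem
  refine ⟨N0, fun N hN => ?_⟩
  have h1 : (cusped A S).dist (x, none) (1, some (i, N)) - (N + 1) ≤ a6b A S i x := by
    refine (hanti hN).trans ?_
    show (fun N : ℕ => (cusped A S).dist (x, none) (1, some (i, N)) - (N + 1)) N0 ≤ _
    rw [hN0]
    exact le_rfl
  have h2 : a6b A S i x ≤ (cusped A S).dist (x, none) (1, some (i, N)) - (N + 1) :=
    Nat.sInf_le ⟨N, rfl⟩
  have h3 := cd_depth (P := P) hA hS x 1 i N
  omega

private theorem a6_l (x y : G) :
    (cusped A S).dist (x, none) (y, none) = (cusped A S).dist (1, none) (x⁻¹ * y, none) := by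
  have := cd_act (A := A) (S := S) x (1, none) (x⁻¹ * y, none)
  simpa using this

private theorem a6_one (a : G) (ha : a ∈ A) :
    (cusped A S).dist (1, none) (a, none) ≤ 1 := by
  by_cases h1 : a = 1
  · subst h1
    rw [SimpleGraph.dist_self]
    exact Nat.zero_le _
  · have hadj : (cusped A S).Adj (1, none) (a, none) := by
      rw [cusped, SimpleGraph.fromRel_adj]
      refine ⟨fun h => h1 (congrArg Prod.fst h).symm, Or.inl ?_⟩
      have := CAdj.cay (S := S) (1 : G) a ha
      rwa [one_mul] at this
    rw [SimpleGraph.dist_eq_one_iff_adj.2 hadj]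

end

/-! A6 (CPlen.lean; uses A1-A5) -/
theorem exists_plen {G ι : Type} [Group G] [Finite ι] (P : ι → Subgroup G) (h : RelHyp P) :
    ∃ A : Set G, A.Finite ∧ Subgroup.closure A = ⊤ ∧
      (∀ i, ∃ S : Set G, S.Finite ∧ Subgroup.closure S = P i) ∧ Nonempty (PLen P A) := by
  obtain ⟨A, S, hAf, hA, hSA, δ, hyp⟩ := h
  have hS : ∀ i, Subgroup.closure (S i) = P i := fun i => (hSA i).2.2
  have hSf : ∀ i, (S i).Finite := fun i => hAf.subset (hSA i).1
  have hcon := cd_conn (S := S) hA
  have hinv : ∀ g : G, (cusped A S).dist (1, none) (g⁻¹, none) =
      (cusped A S).dist (1, none) (g, none) := by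
    intro g
    have h1 := a6_l (A := A) (S := S) g 1
    rw [mul_one] at h1
    rw [← h1, SimpleGraph.dist_comm]
  refine ⟨A ∪ {a | a⁻¹ ∈ A}, ?_, ?_, fun i => ⟨S i, hSf i, hS i⟩, ⟨?_⟩⟩
  · refine hAf.union ?_
    have : {a : G | a⁻¹ ∈ A} = A⁻¹ := rfl
    rw [this]
    exact hAf.inv
  · rw [eq_top_iff, ← hA]
    exact Subgroup.closure_mono Set.subset_union_left
  · exact
      { l := fun x => (cusped A S).dist (1, none) (x, none)
        one := SimpleGraph.dist_self
        mul := by
          intro g h
          have h1 := hcon.dist_triangle (u := (1, none)) (v := (g, none)) (w := (g * h, none))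
          have h2 := a6_l (A := A) (S := S) g (g * h)
          rw [inv_mul_cancel_left] at h2
          rw [h2] at h1
          exact h1
        inv := hinv
        fin := fun n => cd_fin hA hAf hSf n
        sym := by
          rintro a (ha | ha)
          · right
            show a⁻¹⁻¹ ∈ A
            rwa [inv_inv]
          · exact Or.inl ha
        le_one := by
          rintro a (ha | ha)
          · exact a6_one a ha
          · rw [← hinv]
            exact a6_one _ ha
        δ := δ + 1
        hyp := by
          intro x y z w
          have h1 := hyp (x, none) (y, none) (z, none) (w, none)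
          rw [a6_l x z, a6_l y w, a6_l x y, a6_l z w, a6_l x w, a6_l y z] at h1
          omega
        geo := fun g => cd_geo hA hS g
        β := fun i x => a6b A S i x
        β_lip := by
          intro i x y
          obtain ⟨N1, h1⟩ := a6_ev (P := P) hA hS i x
          obtain ⟨N2, h2⟩ := a6_ev (P := P) hA hS i y
          have h3 := h1 (max N1 N2) (le_max_left _ _)
          have h4 := h2 (max N1 N2) (le_max_right _ _)
          have h5 := hcon.dist_triangle (u := (x, none)) (v := (y, none))
            (w := (1, some (i, max N1 N2)))
          rw [a6_l x y, h3, h4] at h5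
          omega
        β_on := by
          intro i p hp
          obtain ⟨N1, h1⟩ := a6_ev (P := P) hA hS i p
          obtain ⟨N2, h2⟩ := cd_ray hA (fun i => (hSA i).2.1) hS i p hp
          have h3 := h1 (max N1 N2) (le_max_left _ _)
          have h4 := h2 (max N1 N2) (le_max_right _ _)
          rw [h3] at h4
          omega
        β_hyp := by
          intro i x y z
          obtain ⟨N1, h1⟩ := a6_ev (P := P) hA hS i x
          obtain ⟨N2, h2⟩ := a6_ev (P := P) hA hS i y
          obtain ⟨N3, h3⟩ := a6_ev (P := P) hA hS i z
          set N := max N1 (max N2 N3) with hN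
          have h1' := h1 N (le_max_left _ _)
          have h2' := h2 N ((le_max_left _ _).trans (le_max_right _ _))
          have h3' := h3 N ((le_max_right _ _).trans (le_max_right _ _))
          have h4 := hyp (x, none) (z, none) (y, none) (1, some (i, N))
          rw [a6_l x y, h3', a6_l x z, h2', h1', SimpleGraph.dist_comm (u := (z, none)),
            a6_l y z] at h4
          omega
        β_sep := by
          intro i j g hne p hp q hq
          obtain ⟨N1, h1⟩ := a6_ev (P := P) hA hS i (g * p)
          obtain ⟨N2, h2⟩ := a6_ev (P := P) hA hS i (g * q)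
          obtain ⟨N3, h3⟩ := cd_ray hA (fun i => (hSA i).2.1) hS j p hp
          obtain ⟨N4, h4⟩ := cd_ray hA (fun i => (hSA i).2.1) hS j q hq
          set N := max (max N1 N2) (max N3 N4) with hN
          have h1' := h1 N ((le_max_left _ _).trans (le_max_left _ _))
          have h2' := h2 N ((le_max_right _ _).trans (le_max_left _ _))
          have h3' := h3 N ((le_max_left _ _).trans (le_max_right _ _))
          have h4' := h4 N ((le_max_right _ _).trans (le_max_right _ _))
          have h5 := hyp (g * p, none) (1, some (i, N)) (g * q, none) (g, some (j, N))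
          have h6 := cd_depth2 (P := P) hA hS 1 g i j N (by
            intro hij
            rw [inv_one, one_mul]
            exact hne hij)
          have h7 : (cusped A S).dist (g * p, none) (g, some (j, N)) ≤ N + 2 := by
            have := cd_act (A := A) (S := S) g (p, none) (1, some (j, N))
            simp only [mul_one] at this
            rw [this]
            exact h3'
          have h8 : (cusped A S).dist (g * q, none) (g, some (j, N)) ≤ N + 2 := by
            have := cd_act (A := A) (S := S) g (q, none) (1, some (j, N))
            simp only [mul_one] at this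
            rw [this]
            exact h4'
          have h9 := a6_l (A := A) (S := S) (g * p) (g * q)
          have h10 : (g * p)⁻¹ * (g * q) = p⁻¹ * q := by group
          rw [h10] at h9
          rw [h9, h1', SimpleGraph.dist_comm (u := (1, some (i, N))) (v := (g * q, none)),
            h2'] at h5
          show (cusped A S).dist (1, none) (p⁻¹ * q, none) ≤
            max (a6b A S i (g * p)) (a6b A S i (g * q)) + (δ + 1)
          omega }

end Pool.Agent.REL
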