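import Pool.Agent.REL.Defs
/-!
# The relative length
-/
namespace Pool.Agent.REL
open Pool.Agent.SLX

section
variable {G ι : Type} [Group G] {P : ι → Subgroup G} {A : Set G}

private theorem rl_le_path {n : ℕ} {z : ℕ → G} {g : G} (h0 : z 0 = 1) (hn : z n = g)
    (h : RPath P A n z) : rl P A g ≤ n :=
  Nat.sInf_le ⟨z, h0, hn, h⟩

private theorem rl_sub_le {n : ℕ} {z : ℕ → G} (h : RPath P A n z) {i j : ℕ} (hij : i ≤ j)
    (hj : j ≤ n) : rl P A ((z i)⁻¹ * z j) ≤ j - i := by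
  refine rl_le_path (z := fun t => (z i)⁻¹ * z (i + t)) ?_ ?_ ?_
  · show (z i)⁻¹ * z (i + 0) = 1
    rw [Nat.add_zero, inv_mul_cancel]
  · show (z i)⁻¹ * z (i + (j - i)) = (z i)⁻¹ * z j
    rw [Nat.add_sub_cancel' hij]
  · intro t ht
    have h1 := h (i + t) (by omega)
    show Letter P A (((z i)⁻¹ * z (i + t))⁻¹ * ((z i)⁻¹ * z (i + (t + 1))))
    have e : ((z i)⁻¹ * z (i + t))⁻¹ * ((z i)⁻¹ * z (i + (t + 1))) =
        (z (i + t))⁻¹ * z (i + t + 1) := by
      rw [← Nat.add_assoc]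
      group
    rw [e]
    exact h1

private theorem rl_path (L : PLen P A) (g : G) :
    ∃ z : ℕ → G, z 0 = 1 ∧ z (rl P A g) = g ∧ RPath P A (rl P A g) z := by
  have hne : {n | ∃ z : ℕ → G, z 0 = 1 ∧ z n = g ∧ RPath P A n z}.Nonempty := by
    obtain ⟨n, z, h0, hn, h1, _⟩ := L.geo g
    exact ⟨n, z, h0, hn, fun j hj => (h1 j hj).1⟩
  exact Nat.sInf_mem hne

/-- concatenation -/
private theorem rl_cat {m n : ℕ} {z z' : ℕ → G} {g h : G} (h0 : z 0 = 1) (hm : z m = g)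
    (hz : RPath P A m z) (h0' : z' 0 = 1) (hn : z' n = h) (hz' : RPath P A n z') :
    ∃ w : ℕ → G, w 0 = 1 ∧ w m = g ∧ w (m + n) = g * h ∧ RPath P A (m + n) w := by
  refine ⟨fun j => if j ≤ m then z j else g * z' (j - m), ?_, ?_, ?_, ?_⟩
  · show (if 0 ≤ m then z 0 else g * z' (0 - m)) = 1
    rw [if_pos (Nat.zero_le m), h0]
  · show (if m ≤ m then z m else g * z' (m - m)) = g
    rw [if_pos (le_refl m), hm]
  · show (if m + n ≤ m then z (m + n) else g * z' (m + n - m)) = g * h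
    by_cases hn0 : n = 0
    · subst hn0
      rw [if_pos (by omega), Nat.add_zero, hm, ← hn, h0', mul_one]
    · rw [if_neg (by omega), Nat.add_sub_cancel_left, hn]
  · intro j hj
    show Letter P A ((if j ≤ m then z j else g * z' (j - m))⁻¹ *
      (if j + 1 ≤ m then z (j + 1) else g * z' (j + 1 - m)))
    rcases Nat.lt_trichotomy j m with hlt | heq | hgt
    · rw [if_pos hlt.le, if_pos (by omega)]
      exact hz j hlt
    · subst heq
      rw [if_pos (le_refl j), if_neg (by omega), hm]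
      have e : g⁻¹ * (g * z' (j + 1 - j)) = (z' 0)⁻¹ * z' (0 + 1) := by
        rw [h0', inv_mul_cancel_left, inv_one, one_mul, Nat.add_sub_cancel_left]
      rw [e]
      exact hz' 0 (by omega)
    · rw [if_neg (by omega), if_neg (by omega)]
      have e : (g * z' (j - m))⁻¹ * (g * z' (j + 1 - m)) =
          (z' (j - m))⁻¹ * z' (j - m + 1) := by
        rw [show j + 1 - m = j - m + 1 by omega]
        group
      rw [e]
      exact hz' (j - m) (by omega)

private theorem letter_inv (L : PLen P A) {s : G} (hs : Letter P A s) : Letter P A s⁻¹ := by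
  rcases hs with h | ⟨i, h⟩
  · exact Or.inl (L.sym s h)
  · exact Or.inr ⟨i, (P i).inv_mem h⟩

theorem rl_one : rl P A (1 : G) = 0 := by
  have h : rl P A (1 : G) ≤ 0 :=
    rl_le_path (z := fun _ => (1 : G)) rfl rfl (fun j hj => absurd hj (Nat.not_lt_zero j))
  omega

theorem rl_letter {s : G} (hs : Letter P A s) : rl P A s ≤ 1 := by
  refine rl_le_path (z := fun j => if j = 0 then (1 : G) else s) (if_pos rfl)
    (if_neg one_ne_zero) ?_
  intro j hj
  have hj0 : j = 0 := by omega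
  subst hj0
  show Letter P A ((if 0 = 0 then (1 : G) else s)⁻¹ * (if 0 + 1 = 0 then (1 : G) else s))
  rw [if_pos rfl, if_neg (by omega), inv_one, one_mul]
  exact hs

theorem rl_mul (L : PLen P A) (g h : G) : rl P A (g * h) ≤ rl P A g + rl P A h := by
  obtain ⟨z, h0, h1, h2⟩ := rl_path L g
  obtain ⟨z', h0', h1', h2'⟩ := rl_path L h
  obtain ⟨w, w0, _, w2, w3⟩ := rl_cat h0 h1 h2 h0' h1' h2'
  exact rl_le_path w0 w2 w3

private theorem rl_inv_le (L : PLen P A) (g : G) : rl P A g⁻¹ ≤ rl P A g := by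
  obtain ⟨z, h0, h1, h2⟩ := rl_path L g
  refine rl_le_path (z := fun j => g⁻¹ * z (rl P A g - j)) ?_ ?_ ?_
  · show g⁻¹ * z (rl P A g - 0) = 1
    rw [Nat.sub_zero, h1, inv_mul_cancel]
  · show g⁻¹ * z (rl P A g - rl P A g) = g⁻¹
    rw [Nat.sub_self, h0, mul_one]
  · intro j hj
    show Letter P A ((g⁻¹ * z (rl P A g - j))⁻¹ * (g⁻¹ * z (rl P A g - (j + 1))))
    have h3 := h2 (rl P A g - (j + 1)) (by omega)
    rw [show rl P A g - (j + 1) + 1 = rl P A g - j by omega] at h3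
    have h4 := letter_inv L h3
    have e : (g⁻¹ * z (rl P A g - j))⁻¹ * (g⁻¹ * z (rl P A g - (j + 1))) =
        ((z (rl P A g - (j + 1)))⁻¹ * z (rl P A g - j))⁻¹ := by group
    rw [e]
    exact h4

theorem rl_inv (L : PLen P A) (g : G) : rl P A g⁻¹ = rl P A g := by
  refine le_antisymm (rl_inv_le L g) ?_
  have h := rl_inv_le L g⁻¹
  rwa [inv_inv] at h

theorem rl_le (L : PLen P A) (g : G) : rl P A g ≤ L.l g := by
  obtain ⟨n, z, h0, hn, h1, h2⟩ := L.geo g
  have h3 : rl P A g ≤ n := rl_le_path h0 hn (fun j hj => (h1 j hj).1)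
  have h4 : ∀ j, j ≤ n → j ≤ L.l ((z 0)⁻¹ * z j) := by
    intro j
    induction j with
    | zero => intro _; exact Nat.zero_le _
    | succ j ih =>
      intro hj
      have h5 := ih (by omega)
      have h6 := h2 0 j (j + 1) (Nat.zero_le j) (Nat.le_succ j) hj
      have h7 := (h1 j (by omega)).2
      omega
  have h5 := h4 n (le_refl n)
  rw [h0, hn, inv_one, one_mul] at h5
  omega

theorem rl_zero (L : PLen P A) {g : G} (h : rl P A g = 0) : g = 1 := by
  obtain ⟨z, h0, h1, _⟩ := rl_path L g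
  rw [h] at h1
  rw [← h1, h0]

theorem letter_of_rl (L : PLen P A) {s : G} (h : rl P A s = 1) : Letter P A s := by
  obtain ⟨z, h0, h1, h2⟩ := rl_path L s
  rw [h] at h1 h2
  have h3 := h2 0 one_pos
  rw [h0, inv_one, one_mul] at h3
  rwa [← h1]

theorem rl_pred (L : PLen P A) {g : G} {m : ℕ} (h : rl P A g = m + 1) :
    ∃ s, rl P A s = 1 ∧ rl P A (g * s⁻¹) = m := by
  obtain ⟨z, h0, h1, h2⟩ := rl_path L g
  rw [h] at h1 h2
  have h3 := rl_letter (h2 m (Nat.lt_succ_self m))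
  have h4 : rl P A (z m) ≤ m :=
    rl_le_path h0 rfl (fun j hj => h2 j (by omega))
  have e1 : z m * ((z m)⁻¹ * z (m + 1)) = g := by rw [mul_inv_cancel_left, h1]
  have h5 := rl_mul L (z m) ((z m)⁻¹ * z (m + 1))
  rw [e1, h] at h5
  refine ⟨(z m)⁻¹ * z (m + 1), by omega, ?_⟩
  have e2 : g * ((z m)⁻¹ * z (m + 1))⁻¹ = z m := by rw [h1]; group
  rw [e2]
  omega

theorem rgeo_of {n : ℕ} {z : ℕ → G} (L : PLen P A) (h : RPath P A n z)
    (h' : rl P A ((z 0)⁻¹ * z n) = n) : RGeo P A n z := by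
  refine ⟨h, ?_⟩
  intro i j hij hj
  have h1 := rl_sub_le h (Nat.zero_le i) (hij.trans hj)
  have h2 := rl_sub_le h hij hj
  have h3 := rl_sub_le h hj (le_refl n)
  have h4 := rl_mul L ((z 0)⁻¹ * z i) ((z i)⁻¹ * z n)
  have h5 := rl_mul L ((z i)⁻¹ * z j) ((z j)⁻¹ * z n)
  have e1 : (z 0)⁻¹ * z i * ((z i)⁻¹ * z n) = (z 0)⁻¹ * z n := by group
  have e2 : (z i)⁻¹ * z j * ((z j)⁻¹ * z n) = (z i)⁻¹ * z n := by group
  rw [e1, h'] at h4
  rw [e2] at h5
  omega

theorem exists_rgeo (L : PLen P A) (g : G) :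
    ∃ z : ℕ → G, z 0 = 1 ∧ z (rl P A g) = g ∧ RGeo P A (rl P A g) z := by
  obtain ⟨z, h0, h1, h2⟩ := rl_path L g
  refine ⟨z, h0, h1, rgeo_of L h2 ?_⟩
  rw [h0, h1, inv_one, one_mul]

/-- A relative geodesic through `g`. -/
theorem exists_rgeo_through (L : PLen P A) (g h : G)
    (hgh : rl P A (g * h) = rl P A g + rl P A h) :
    ∃ z : ℕ → G, z 0 = 1 ∧ z (rl P A g) = g ∧ z (rl P A g + rl P A h) = g * h ∧
      RGeo P A (rl P A g + rl P A h) z := by
  obtain ⟨z, h0, h1, h2⟩ := rl_path L g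
  obtain ⟨z', h0', h1', h2'⟩ := rl_path L h
  obtain ⟨w, w0, w1, w2, w3⟩ := rl_cat h0 h1 h2 h0' h1' h2'
  refine ⟨w, w0, w1, w2, rgeo_of L w3 ?_⟩
  rw [w0, w2, inv_one, one_mul, hgh]

/-- A long letter is peripheral. -/
theorem long_letter (L : PLen P A) {s : G} (h : rl P A s = 1) (h' : 1 < L.l s) :
    ∃ i, s ∈ P i := by
  rcases letter_of_rl L h with h1 | h1
  · exact absurd (L.le_one s h1) (by omega)
  · exact h1

/-- A long letter lies in only one of the subgroups. -/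
theorem long_unique (L : PLen P A) {s : G} {i j : ι} (hi : s ∈ P i) (hj : s ∈ P j)
    (h : 2 * L.δ < L.l s) : i = j := by
  by_contra hne
  have h1 := L.β_sep i j 1 (fun h => absurd h hne) 1 (P j).one_mem s hj
  have h2 := L.β_on i 1 (P i).one_mem
  have h3 := L.β_on i s hi
  rw [inv_one, one_mul, mul_one] at h1
  omega

end

end Pool.Agent.REL
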