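import Pool.Agent.REL.Defs
import Pool.Agent.REL.Rl
/-!
# Points of minimal relative length in the cosets, and canonical entry points
-/
namespace Pool.Agent.REL

section
variable {G ι : Type} [Group G] {P : ι → Subgroup G} {A : Set G}

private theorem Can_step (L : PLen P A) {i : ι} {g p : G} (hp : p ∈ P i) :
    rl P A (g * p) ≤ rl P A g + 1 := by
  have h1 := rl_mul L g p
  have h2 : rl P A p ≤ 1 := rl_letter (Or.inr ⟨i, hp⟩)
  omega

theorem minc_of_step (L : PLen P A) {i : ι} {g p : G} (hp : p ∈ P i)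
    (h : rl P A (g * p) = rl P A g + 1) : Minc P A i g := by
  intro q hq
  have h1 := Can_step (A := A) L (g := g * q) ((P i).mul_mem ((P i).inv_mem hq) hp)
  have h2 : g * q * (q⁻¹ * p) = g * p := by group
  rw [h2] at h1
  omega

theorem minc_step (L : PLen P A) {NE : ℕ} (hE : EntryB L NE) {i : ι} {g p : G} (hp : p ∈ P i)
    (hg : Minc P A i g) (hl : NE < L.l p) : rl P A (g * p) = rl P A g + 1 := by
  have h1 := Can_step (A := A) L (g := g) hp
  have h2 := hg p hp
  by_contra hne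
  have h3 : rl P A (g * p) = rl P A g := by omega
  have := hE i g p hp hg h3
  omega

theorem exists_tst [Finite ι] (L : PLen P A) (ht : ∀ i, ∀ p ∈ P i, IsOfFinOrder p → p = 1)
    (N : ℕ) : ∃ T, Tst L N T := by
  have key : ∀ i, ∃ T, P i = ⊥ ∨ ∃ p ∈ P i, N < L.l p ∧ L.l p ≤ T := by
    intro i
    by_cases hb : P i = ⊥
    · exact ⟨0, Or.inl hb⟩
    · have hex : ∃ p, p ∈ P i ∧ p ≠ 1 := by
        by_contra hcon
        apply hb
        rw [Subgroup.eq_bot_iff_forall]
        intro x hx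
        by_contra hx1
        exact hcon ⟨x, hx, hx1⟩
      obtain ⟨p, hp, hp1⟩ := hex
      have hno : ¬ IsOfFinOrder p := fun h => hp1 (ht i p hp h)
      have hinj : Function.Injective (fun n : ℕ => p ^ n) :=
        injective_pow_iff_not_isOfFinOrder.2 hno
      have hinf : (Set.range (fun n : ℕ => p ^ n)).Infinite := Set.infinite_range_of_injective hinj
      obtain ⟨x, hx, hxN⟩ := hinf.exists_notMem_finite (L.fin N)
      obtain ⟨n, rfl⟩ := hx
      refine ⟨L.l (p ^ n), Or.inr ⟨p ^ n, (P i).pow_mem hp n, ?_, le_refl _⟩⟩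
      simpa using hxN
  choose T hT using key
  obtain ⟨M, hM⟩ := (Set.finite_range T).bddAbove
  refine ⟨M, fun i => ?_⟩
  rcases hT i with h | ⟨p, hp, h1, h2⟩
  · exact Or.inl h
  · exact Or.inr ⟨p, hp, h1, h2.trans (hM ⟨i, rfl⟩)⟩

private theorem Can_nonempty (i : ι) (g : G) : (Ent P A i g).Nonempty := by
  classical
  have hex : ∃ n, ∃ p ∈ P i, rl P A (g * p) = n := ⟨_, 1, (P i).one_mem, rfl⟩
  obtain ⟨p, hp, hpn⟩ := Nat.find_spec hex
  refine ⟨p, hp, fun q hq => ?_⟩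
  rw [hpn]
  exact Nat.find_min' hex ⟨p * q, (P i).mul_mem hp hq, by rw [mul_assoc]⟩

private theorem Can_finite (D : Nd P A) (i : ι) (g : G) : (Ent P A i g).Finite := by
  obtain ⟨p0, hp0, hm0⟩ := Can_nonempty (P := P) (A := A) i g
  refine ((D.L.fin D.NE).image (fun y => p0 * y)).subset ?_
  rintro p ⟨hp, hm⟩
  have hq : p0⁻¹ * p ∈ P i := (P i).mul_mem ((P i).inv_mem hp0) hp
  have hq' : p⁻¹ * p0 ∈ P i := (P i).mul_mem ((P i).inv_mem hp) hp0
  have h1 := hm0 _ hq
  have h2 := hm _ hq'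
  have e1 : g * p0 * (p0⁻¹ * p) = g * p := by group
  have e2 : g * p * (p⁻¹ * p0) = g * p0 := by group
  rw [e1] at h1
  rw [e2] at h2
  have h3 := D.hE i (g * p0) (p0⁻¹ * p) hq hm0 (by rw [e1]; omega)
  exact ⟨p0⁻¹ * p, h3, by simp⟩

private theorem Can_trans (i : ι) (g : G) {q : G} (hq : q ∈ P i) :
    Ent P A i (g * q) = (fun y => q⁻¹ * y) '' Ent P A i g := by
  ext p
  constructor
  · rintro ⟨hp, hm⟩
    exact ⟨q * p, ⟨(P i).mul_mem hq hp, by rw [← mul_assoc]; exact hm⟩, by simp⟩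
  · rintro ⟨y, ⟨hy, hm⟩, rfl⟩
    refine ⟨(P i).mul_mem ((P i).inv_mem hq) hy, ?_⟩
    have e : g * q * (q⁻¹ * y) = g * y := by group
    show Minc P A i (g * q * (q⁻¹ * y))
    rw [e]
    exact hm

private theorem Can_sub (i : ι) (g : G) : Ent P A i g ⊆ (P i : Set G) := fun _ h => h.1

theorem can_minc (D : Nd P A) {i : ι} {g : G} (h : Can P A D.ch i g) : Minc P A i g := by
  have h1 := (D.isch i (Ent P A i g) (Can_finite D i g) (Can_nonempty i g) (Can_sub i g)).1
  have h2 : D.ch i (Ent P A i g) = 1 := h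
  rw [h2] at h1
  have h3 := h1.2
  rwa [mul_one] at h3

theorem can_unique (D : Nd P A) (i : ι) (g : G) : ∃! p, p ∈ P i ∧ Can P A D.ch i (g * p) := by
  obtain ⟨h1, h2⟩ := D.isch i (Ent P A i g) (Can_finite D i g) (Can_nonempty i g) (Can_sub i g)
  have key : ∀ p, p ∈ P i → (Can P A D.ch i (g * p) ↔ p = D.ch i (Ent P A i g)) := by
    intro p hp
    unfold Can
    rw [Can_trans i g hp, h2 _ ((P i).inv_mem hp), inv_mul_eq_one]
  refine ⟨D.ch i (Ent P A i g), ⟨h1.1, (key _ h1.1).2 rfl⟩, ?_⟩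
  rintro p ⟨hp, hc⟩
  exact (key p hp).1 hc

end

end Pool.Agent.REL
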