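import Pool.Agent.REL.Can
/-!
# Row C6a: the canonical entry points are seen from the local relative lengths
-/
namespace Pool.Agent.REL
open Pool.Agent.SLX

section
variable {G ι : Type} [Group G] {P : ι → Subgroup G} {A : Set G}

private theorem C6a_symm {L : PLen P A} {N : ℕ} {g g' : G} (h : Loc L N g g') :
    Loc L N g' g := fun y hy => (h y hy).symm

private theorem C6a_mono {L : PLen P A} {N N' : ℕ} {g g' : G} (h : Loc L N g g') (hN : N' ≤ N) :
    Loc L N' g g' := fun y hy => h y (hy.trans hN)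

/-- minimality is seen locally -/
private theorem C6a_minc (L : PLen P A) {NE T T2 : ℕ} (hE : EntryB L NE) (hT : Tst L NE T)
    (h2 : T ≤ T2) {g g' : G} (h : Loc L T2 g g') (i : ι) (hg : Minc P A i g) :
    Minc P A i g' := by
  rcases hT i with hb | ⟨τ, hτ, h3, h4⟩
  · intro p hp
    rw [hb, Subgroup.mem_bot] at hp
    rw [hp, mul_one]
  · have h5 := minc_step L hE hτ hg h3
    have h6 := h τ (h4.trans h2)
    exact minc_of_step L hτ (by omega)

private theorem C6a_ent_iff {i : ι} {g p : G} (hg : Minc P A i g) (hp : p ∈ P i) :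
    Minc P A i (g * p) ↔ rl P A (g * p) = rl P A g := by
  constructor
  · intro h
    have h1 := h p⁻¹ ((P i).inv_mem hp)
    rw [mul_inv_cancel_right] at h1
    exact le_antisymm h1 (hg p hp)
  · intro h q hq
    rw [h, mul_assoc]
    exact hg _ ((P i).mul_mem hp hq)

private theorem C6a_ent_sub (L : PLen P A) {NE T2 : ℕ} (hE : EntryB L NE) (h1 : NE ≤ T2)
    {g g' : G} (h : Loc L T2 g g') (i : ι) (hg : Minc P A i g) (hg' : Minc P A i g') :
    Ent P A i g ⊆ Ent P A i g' := by
  rintro p ⟨hp, hm⟩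
  refine ⟨hp, ?_⟩
  rw [C6a_ent_iff hg hp] at hm
  rw [C6a_ent_iff hg' hp]
  have h2 := h p ((hE i g p hp hg hm).trans h1)
  omega

theorem can_loc (D : Nd P A) {T T2 : ℕ} (hT : Tst D.L D.NE T) (h1 : D.NE ≤ T2) (h2 : T ≤ T2)
    {g g' : G} (h : Loc D.L T2 g g') (i : ι) (hc : Can P A D.ch i g) : Can P A D.ch i g' := by
  have hg : Minc P A i g := can_minc D hc
  have hg' : Minc P A i g' := C6a_minc D.L D.hE hT h2 h i hg
  have he : Ent P A i g' = Ent P A i g :=
    Set.Subset.antisymm (C6a_ent_sub D.L D.hE h1 (C6a_symm h) i hg' hg)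
      (C6a_ent_sub D.L D.hE h1 h i hg hg')
  unfold Can
  rw [he]
  exact hc

theorem far_loc (D : Nd P A) {T T2 : ℕ} (hT : Tst D.L D.NE T)
    (h2 : D.B + 3 * D.NE + 2 * T + 1 ≤ T2) {g g' : G} (h : Loc D.L T2 g g') (hf : Far D g) :
    Far D g' := by
  obtain ⟨i, p, hp, hl, hc⟩ := hf
  by_cases hle : D.L.l p ≤ D.B + 2 * D.NE + T + 1
  · refine ⟨i, p, hp, hl, ?_⟩
    refine can_loc D (T2 := T2 - D.L.l p) hT (by omega) (by omega) ?_ i hc
    intro y hy
    have hpi : D.L.l p⁻¹ = D.L.l p := D.L.inv p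
    have h3 := h (p⁻¹ * y) ((D.L.mul p⁻¹ y).trans (by omega))
    have h4 := h p⁻¹ (by omega)
    rw [← mul_assoc, ← mul_assoc] at h3
    omega
  · have hm : Minc P A i (g * p⁻¹) := can_minc D hc
    have hq0 : ∀ q ∈ P i, D.L.l q ≤ D.B + D.NE + T → rl P A (g * q) = rl P A g := by
      intro q hq hql
      have h3 : D.L.l p ≤ D.L.l (p * q) + D.L.l q := by
        have h4 := D.L.mul (p * q) q⁻¹
        rw [mul_inv_cancel_right, D.L.inv q] at h4
        exact h4
      have h5 := minc_step D.L D.hE ((P i).mul_mem hp hq) hm (by omega)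
      have h6 := minc_step D.L D.hE hp hm (by omega)
      rw [← mul_assoc, inv_mul_cancel_right] at h5
      rw [inv_mul_cancel_right] at h6
      rw [h5, h6]
    have hq1 : ∀ q ∈ P i, D.L.l q ≤ D.B + D.NE + T → rl P A (g' * q) = rl P A g' := by
      intro q hq hql
      have h3 := hq0 q hq hql
      have h4 := h q (by omega)
      omega
    have hnm : ¬ Minc P A i g' := by
      intro hm'
      rcases hT i with hb | ⟨τ, hτ, h3, h4⟩
      · rw [hb, Subgroup.mem_bot] at hp
        rw [hp, D.L.one] at hl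
        omega
      · have h5 := minc_step D.L D.hE hτ hm' h3
        have h6 := hq1 τ hτ (by omega)
        omega
    obtain ⟨q, ⟨hq, hcq⟩, _⟩ := can_unique D i g'
    have hmq : Minc P A i (g' * q) := can_minc D hcq
    have hlt : D.B + D.NE + T < D.L.l q := by
      by_contra hcon
      have h5 := hq1 q hq (by omega)
      apply hnm
      intro r hr
      have h6 := hmq (q⁻¹ * r) ((P i).mul_mem ((P i).inv_mem hq) hr)
      rw [← mul_assoc, mul_inv_cancel_right, h5] at h6
      exact h6
    refine ⟨i, q⁻¹, (P i).inv_mem hq, ?_, ?_⟩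
    · rw [D.L.inv]
      omega
    · rw [inv_inv]
      exact hcq

end

end Pool.Agent.REL
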