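import Pool.Agent.REL.Defs
/-!
# Row C0: equivariant choice of a point in the finite sets of a torsion free group
-/
namespace Pool.Agent.REL
open Pool.Agent.SLX

section
variable {G ι : Type} [Group G] {P : ι → Subgroup G} {A : Set G}

/-- An element of `H` which stabilises a finite nonempty set has finite order. -/
private theorem c0_fin {g : G} {Z : Set G} (hZ : Z.Finite) (hne : Z.Nonempty)
    (h : (fun y => g * y) '' Z = Z) : IsOfFinOrder g := by
  by_contra hg
  obtain ⟨z, hz⟩ := hne
  have hmem : ∀ n : ℕ, g ^ n * z ∈ Z := by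
    intro n
    induction n with
    | zero => simpa using hz
    | succ n ih =>
      have h1 : g * (g ^ n * z) ∈ (fun y => g * y) '' Z := ⟨_, ih, rfl⟩
      rw [h] at h1
      rw [pow_succ', mul_assoc]
      exact h1
  have hinj : Function.Injective (fun n : ℕ => g ^ n * z) := by
    intro m n hmn
    have h1 : g ^ m = g ^ n := mul_right_cancel hmn
    exact injective_pow_iff_not_isOfFinOrder.mpr hg h1
  exact Set.infinite_of_injective_forall_mem hinj hmem hZ

/-- Translates by elements of `H`. -/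
private def c0Setoid (H : Subgroup G) : Setoid (Set G) where
  r Y Y' := ∃ p ∈ H, Y' = (fun y => p * y) '' Y
  iseqv :=
    { refl := fun Y => ⟨1, H.one_mem, by simp⟩
      symm := by
        rintro Y Y' ⟨p, hp, rfl⟩
        refine ⟨p⁻¹, H.inv_mem hp, ?_⟩
        rw [Set.image_image]
        simp
      trans := by
        rintro Y Y' Y'' ⟨p, hp, rfl⟩ ⟨q, hq, rfl⟩
        refine ⟨q * p, H.mul_mem hq hp, ?_⟩
        rw [Set.image_image]
        simp [mul_assoc] }

/-- The representative of the orbit of `Y`. -/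
private noncomputable def c0Rep (H : Subgroup G) (Y : Set G) : Set G :=
  (Quotient.mk (c0Setoid H) Y).out

private theorem c0_rep (H : Subgroup G) (Y : Set G) :
    ∃ p ∈ H, Y = (fun y => p * y) '' c0Rep H Y := by
  have h : (c0Setoid H).r (c0Rep H Y) Y := by
    have h1 : Quotient.mk (c0Setoid H) (c0Rep H Y) = Quotient.mk (c0Setoid H) Y :=
      Quotient.out_eq _
    exact Quotient.exact h1
  exact h

private theorem c0_rep_eq (H : Subgroup G) (Y : Set G) {p : G} (hp : p ∈ H) :
    c0Rep H ((fun y => p * y) '' Y) = c0Rep H Y := by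
  unfold c0Rep
  have h1 : Quotient.mk (c0Setoid H) Y = Quotient.mk (c0Setoid H) ((fun y => p * y) '' Y) :=
    Quotient.sound (⟨p, hp, rfl⟩ : (c0Setoid H).r Y ((fun y => p * y) '' Y))
  rw [h1]

/-! C0 (Ch.lean) -/
theorem exists_ch (H : Subgroup G) (ht : ∀ p ∈ H, IsOfFinOrder p → p = 1) :
    ∃ ch : Set G → G, IsCh H ch := by
  classical
  choose pp hpp hY using c0_rep H
  let y0 : Set G → G := fun Z => if h : Z.Nonempty then h.some else 1
  have hy0 : ∀ Z : Set G, Z.Nonempty → y0 Z ∈ Z := by
    intro Z hZ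
    show (if h : Z.Nonempty then h.some else 1) ∈ Z
    rw [dif_pos hZ]
    exact hZ.some_mem
  refine ⟨fun Y => pp Y * y0 (c0Rep H Y), ?_⟩
  intro Y hfin hne _
  have hrne : (c0Rep H Y).Nonempty := by
    rw [hY Y] at hne
    exact Set.image_nonempty.mp hne
  have hrfin : (c0Rep H Y).Finite := by
    rw [hY Y] at hfin
    exact Set.Finite.of_finite_image hfin (fun a _ b _ hab => mul_left_cancel hab)
  refine ⟨?_, ?_⟩
  · have h1 : pp Y * y0 (c0Rep H Y) ∈ (fun y => pp Y * y) '' c0Rep H Y :=
      ⟨_, hy0 _ hrne, rfl⟩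
    rw [← hY Y] at h1
    exact h1
  · intro p hp
    obtain ⟨Y', hY'⟩ : ∃ Y', Y' = (fun y => p * y) '' Y := ⟨_, rfl⟩
    have hr : c0Rep H Y' = c0Rep H Y := by rw [hY']; exact c0_rep_eq H Y hp
    have h1 : Y' = (fun y => pp Y' * y) '' c0Rep H Y := by
      have h2 := hY Y'
      rw [hr] at h2
      exact h2
    have h2 : Y' = (fun y => (p * pp Y) * y) '' c0Rep H Y := by
      have h20 : (fun y => p * y) '' Y = (fun y => p * y) '' ((fun y => pp Y * y) '' c0Rep H Y) :=
        congrArg (fun Z => (fun y => p * y) '' Z) (hY Y)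
      rw [hY', h20, Set.image_image]
      refine Set.image_congr (fun x _ => ?_)
      exact (mul_assoc p (pp Y) x).symm
    have h3 : (fun y => ((p * pp Y)⁻¹ * pp Y') * y) '' c0Rep H Y = c0Rep H Y := by
      have h4 : (fun y => (p * pp Y)⁻¹ * y) '' Y' = c0Rep H Y := by
        rw [h2, Set.image_image]
        have h6 : ∀ x, (p * pp Y)⁻¹ * (p * pp Y * x) = x := fun x => inv_mul_cancel_left _ _
        simp only [h6, Set.image_id']
      rw [h1, Set.image_image] at h4
      simpa only [mul_assoc] using h4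
    have h4 : (p * pp Y)⁻¹ * pp Y' = 1 :=
      ht _ (H.mul_mem (H.inv_mem (H.mul_mem hp (hpp Y))) (hpp Y')) (c0_fin hrfin hrne h3)
    have h5 : pp Y' = p * pp Y := (inv_mul_eq_one.mp h4).symm
    show pp ((fun y => p * y) '' Y) * y0 (c0Rep H ((fun y => p * y) '' Y)) =
      p * (pp Y * y0 (c0Rep H Y))
    rw [← hY', hr, h5, mul_assoc]

end

end Pool.Agent.REL
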