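import Pool.Agent.REL.Defs
/-!
# Chains and a logarithmic bound
-/
namespace Pool.Agent.REL
open Pool.Agent.SLX

theorem chain_max (f : ℕ → ℕ → ℤ) (δ : ℕ)
    (h : ∀ a b c, f a c ≤ max (f a b) (f b c) + δ) (k : ℕ) :
    ∀ m n, m < n → n - m ≤ 2 ^ k → ∃ j, m ≤ j ∧ j < n ∧ f m n ≤ f j (j + 1) + δ * k := by
  induction k with
  | zero =>
    intro m n hmn hk
    have h1 : n = m + 1 := by
      rw [pow_zero] at hk
      omega
    subst h1
    exact ⟨m, le_refl _, hmn, by simp⟩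
  | succ k ih =>
    intro m n hmn hk
    have hmul : (δ : ℤ) * ((k + 1 : ℕ) : ℤ) = δ * k + δ := by
      push_cast
      ring
    have hδ : (0 : ℤ) ≤ (δ : ℤ) := Int.natCast_nonneg δ
    rw [hmul]
    by_cases hle : n - m ≤ 2 ^ k
    · obtain ⟨j, h1, h2, h3⟩ := ih m n hmn hle
      exact ⟨j, h1, h2, by linarith⟩
    · have hp : 2 ^ (k + 1) = 2 ^ k + 2 ^ k := by ring
      have hp0 : 0 < 2 ^ k := Nat.pow_pos (by norm_num)
      obtain ⟨j, h1, h2, h3⟩ := ih m (m + 2 ^ k) (by omega) (by omega)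
      obtain ⟨j', h1', h2', h3'⟩ := ih (m + 2 ^ k) n (by omega) (by omega)
      have h4 := h m (m + 2 ^ k) n
      rcases le_total (f m (m + 2 ^ k)) (f (m + 2 ^ k) n) with h5 | h5
      · rw [max_eq_right h5] at h4
        exact ⟨j', by omega, h2', by linarith⟩
      · rw [max_eq_left h5] at h4
        exact ⟨j, h1, by omega, by linarith⟩

theorem log_bound (a b c d : ℕ) : ∃ R : ℕ, ∀ D m : ℕ, m ≤ c * D + d →
    (∀ k : ℕ, m ≤ 2 ^ k → D ≤ a + b * k) → D ≤ R := by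
  -- the exponential beats the linear function
  have key : ∀ k, 2 * (c * a + d + 2 * (c * b)) + 1 ≤ k → c * (a + b * k) + d ≤ 2 ^ (k - 1) := by
    intro k hk
    set A0 := c * a + d with hA0
    set B0 := c * b with hB0
    obtain ⟨j, hj⟩ : ∃ j, j = (k - 1) / 2 := ⟨_, rfl⟩
    have h1 : A0 + 2 * B0 ≤ j := by omega
    have h2 : k ≤ 2 * j + 2 := by omega
    have h3 : 2 * j ≤ k - 1 := by omega
    have h4 : j + 1 ≤ 2 ^ j := Nat.lt_two_pow_self
    have h5 : (2 : ℕ) ^ (2 * j) ≤ 2 ^ (k - 1) := Nat.pow_le_pow_right (by norm_num) h3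
    have h6 : (2 : ℕ) ^ (2 * j) = 2 ^ j * 2 ^ j := by rw [two_mul, pow_add]
    have h7 : (j + 1) * (j + 1) ≤ 2 ^ j * 2 ^ j := Nat.mul_le_mul h4 h4
    have h8 : c * (a + b * k) + d = A0 + B0 * k := by
      rw [hA0, hB0]
      ring
    have h9 : B0 * k ≤ B0 * (2 * j + 2) := Nat.mul_le_mul_left _ h2
    have h10 : (A0 + 2 * B0) * (j + 1) ≤ j * (j + 1) := Nat.mul_le_mul_right _ h1
    have h11 : A0 + B0 * (2 * j + 2) ≤ (A0 + 2 * B0) * (j + 1) := by
      have e : (A0 + 2 * B0) * (j + 1) = A0 + B0 * (2 * j + 2) + A0 * j := by ring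
      rw [e]
      exact Nat.le_add_right _ _
    have h12 : j * (j + 1) ≤ (j + 1) * (j + 1) := Nat.mul_le_mul_right _ (Nat.le_succ j)
    omega
  refine ⟨a + b * (2 * (c * a + d + 2 * (c * b)) + 1), ?_⟩
  intro D m hm h
  have hD := h (Nat.clog 2 m) (Nat.le_pow_clog (by norm_num) m)
  by_cases hk : 2 * (c * a + d + 2 * (c * b)) + 1 ≤ Nat.clog 2 m
  · exfalso
    have h1 := key _ hk
    have h2 : c * D ≤ c * (a + b * Nat.clog 2 m) := Nat.mul_le_mul_left _ hD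
    have h3 : m ≤ 2 ^ (Nat.clog 2 m - 1) := by omega
    have h4 : Nat.clog 2 m ≤ Nat.clog 2 m - 1 := Nat.clog_le_of_le_pow h3
    omega
  · have h1 : Nat.clog 2 m ≤ 2 * (c * a + d + 2 * (c * b)) + 1 := by omega
    have h2 := Nat.mul_le_mul_left b h1
    omega

end Pool.Agent.REL
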