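import Pool.Agent.REL.Rl
import Pool.Agent.REL.Chain
/-!
# B4: the points of a geodesic are close to a relative quasi-geodesic
-/
namespace Pool.Agent.REL
open Pool.Agent.SLX

section
variable {G ι : Type} [Group G] {P : ι → Subgroup G} {A : Set G}

/-- (U1) -/
theorem B4_ultra (L : PLen P A) (z a b c : G) :
    ((L.l (a⁻¹ * c) : ℤ) - L.l (z⁻¹ * a) - L.l (z⁻¹ * c)) ≤
      max ((L.l (a⁻¹ * b) : ℤ) - L.l (z⁻¹ * a) - L.l (z⁻¹ * b))
        ((L.l (b⁻¹ * c) : ℤ) - L.l (z⁻¹ * b) - L.l (z⁻¹ * c)) + L.δ := by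
  have h := L.hyp a b c z
  have e1 : L.l (b⁻¹ * z) = L.l (z⁻¹ * b) := by
    rw [← L.inv (b⁻¹ * z)]
    congr 1
    group
  have e2 : L.l (c⁻¹ * z) = L.l (z⁻¹ * c) := by
    rw [← L.inv (c⁻¹ * z)]
    congr 1
    group
  have e3 : L.l (a⁻¹ * z) = L.l (z⁻¹ * a) := by
    rw [← L.inv (a⁻¹ * z)]
    congr 1
    group
  rw [e1, e2, e3] at h
  omega

/-- (H) -/
theorem B4_horo (L : PLen P A) {i : ι} (z x y : G) (h : x⁻¹ * y ∈ P i) :
    L.l (x⁻¹ * y) ≤ max (L.l (z⁻¹ * x)) (L.l (z⁻¹ * y)) + 2 * L.δ := by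
  have h1 := L.β_hyp i 1 (x⁻¹ * y) (x⁻¹ * z)
  have h2 := L.β_on i 1 (P i).one_mem
  have h3 := L.β_on i (x⁻¹ * y) h
  have e1 : L.l ((1 : G)⁻¹ * (x⁻¹ * y)) = L.l (x⁻¹ * y) := by
    congr 1
    group
  have e2 : L.l ((1 : G)⁻¹ * (x⁻¹ * z)) = L.l (z⁻¹ * x) := by
    rw [← L.inv ((1 : G)⁻¹ * (x⁻¹ * z))]
    congr 1
    group
  have e3 : L.l ((x⁻¹ * y)⁻¹ * (x⁻¹ * z)) = L.l (z⁻¹ * y) := by
    rw [← L.inv ((x⁻¹ * y)⁻¹ * (x⁻¹ * z))]
    congr 1
    group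
  rw [e1, e2, e3] at h1
  omega

/-- a geodesic has letters of length at least one -/
theorem B4_geo_len (L : PLen P A) {n : ℕ} {z : ℕ → G} (h : GeoP L.l P A n z) (i t : ℕ)
    (hn : i + t ≤ n) : t ≤ L.l ((z i)⁻¹ * z (i + t)) := by
  induction t with
  | zero => exact Nat.zero_le _
  | succ t ih =>
    have h1 := ih (by omega)
    have h2 := h.2 i (i + t) (i + t + 1) (by omega) (by omega) (by omega)
    have h3 := (h.1 (i + t) (by omega)).2
    rw [show i + (t + 1) = i + t + 1 by omega, h2]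
    omega

theorem B4_geo_rl (L : PLen P A) {n : ℕ} {z : ℕ → G} (h : GeoP L.l P A n z) (i t : ℕ)
    (hn : i + t ≤ n) : rl P A ((z i)⁻¹ * z (i + t)) ≤ t := by
  induction t with
  | zero =>
    rw [add_zero, inv_mul_cancel, rl_one]
  | succ t ih =>
    have h1 := ih (by omega)
    have h3 := rl_letter (h.1 (i + t) (by omega)).1
    have h4 := rl_mul L ((z i)⁻¹ * z (i + t)) ((z (i + t))⁻¹ * z (i + t + 1))
    have h5 : (z i)⁻¹ * z (i + t) * ((z (i + t))⁻¹ * z (i + t + 1)) = (z i)⁻¹ * z (i + (t + 1)) := by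
      rw [show i + (t + 1) = i + t + 1 by omega]
      group
    rw [h5] at h4
    omega

/-- choice of a point at distance `2 D` on one side -/
theorem B4_side (L : PLen P A) {D T k : ℕ} (hD0 : 0 < D) (w x : ℕ → G)
    (hw : ∀ t, t ≤ T → t ≤ L.l ((w 0)⁻¹ * w t)) (hT : ∃ i, i ≤ k ∧ w T = x i)
    (hn : ∀ t, t ≤ T → ∃ i, i ≤ k ∧ L.l ((w t)⁻¹ * x i) ≤ D)
    (hD : ∀ i, i ≤ k → D ≤ L.l ((w 0)⁻¹ * x i)) :
    ∃ t i, t ≤ T ∧ t ≤ 2 * D ∧ i ≤ k ∧ L.l ((w t)⁻¹ * x i) ≤ D ∧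
      L.l ((w t)⁻¹ * x i) + D ≤ L.l ((w 0)⁻¹ * w t) + L.l ((w 0)⁻¹ * x i) := by
  by_cases hc : L.l ((w 0)⁻¹ * w T) < 2 * D
  · obtain ⟨i, hi, he⟩ := hT
    have h1 := hw T le_rfl
    have h2 : L.l ((w T)⁻¹ * x i) = 0 := by
      rw [he, inv_mul_cancel, L.one]
    have h3 := hD i hi
    exact ⟨T, i, le_rfl, by omega, hi, by omega, by omega⟩
  · have hex : ∃ t, 2 * D ≤ L.l ((w 0)⁻¹ * w t) := ⟨T, by omega⟩
    classical
    obtain ⟨t, ht, htm⟩ : ∃ t, 2 * D ≤ L.l ((w 0)⁻¹ * w t) ∧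
        ∀ s, s < t → ¬ 2 * D ≤ L.l ((w 0)⁻¹ * w s) :=
      ⟨Nat.find hex, Nat.find_spec hex, fun s hs => Nat.find_min hex hs⟩
    have htT : t ≤ T := by
      by_contra hlt
      exact htm T (by omega) (by omega)
    have ht0 : t ≠ 0 := by
      rintro rfl
      rw [inv_mul_cancel, L.one] at ht
      omega
    obtain ⟨i, hi, hid⟩ := hn t htT
    have h1 := htm (t - 1) (by omega)
    have h2 := hw (t - 1) (by omega)
    have h3 := hD i hi
    exact ⟨t, i, htT, by omega, hi, hid, by omega⟩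

/-- the estimate along a chain -/
theorem B4_chain (L : PLen P A) (r D q : ℕ) (z a b : G) (y : ℕ → G)
    (hstep : ∀ t, t < q → L.l ((y t)⁻¹ * y (t + 1)) ≤ r ∨ ∃ i', (y t)⁻¹ * y (t + 1) ∈ P i')
    (hD : ∀ t, t ≤ q → D ≤ L.l (z⁻¹ * y t))
    (hab : L.l (a⁻¹ * b) = L.l (z⁻¹ * a) + L.l (z⁻¹ * b))
    (ha : L.l (a⁻¹ * y 0) + D ≤ L.l (z⁻¹ * a) + L.l (z⁻¹ * y 0))
    (hb : L.l (b⁻¹ * y q) + D ≤ L.l (z⁻¹ * b) + L.l (z⁻¹ * y q)) (k : ℕ)
    (hk : q + 2 ≤ 2 ^ k) : D ≤ max (2 * L.δ) r + L.δ * k := by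
  obtain ⟨s, hs0, hs1, hs2⟩ : ∃ s : ℕ → G, s 0 = a ∧ (∀ t, t ≤ q → s (t + 1) = y t) ∧
      s (q + 2) = b := by
    refine ⟨fun t => if t = 0 then a else if t ≤ q + 1 then y (t - 1) else b, by simp, ?_, ?_⟩
    · intro t ht
      simp [ht]
    · simp
  obtain ⟨j, -, hj2, hj3⟩ := chain_max
    (fun j j' => (L.l ((s j)⁻¹ * s j') : ℤ) - L.l (z⁻¹ * s j) - L.l (z⁻¹ * s j')) L.δ
    (fun a b c => B4_ultra L z (s a) (s b) (s c)) k 0 (q + 2) (by omega) (by omega)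
  simp only [hs0, hs2] at hj3
  rw [hab] at hj3
  have key : ((L.l ((s j)⁻¹ * s (j + 1)) : ℤ) - L.l (z⁻¹ * s j) - L.l (z⁻¹ * s (j + 1))) ≤
      -(D : ℤ) + max (2 * L.δ : ℕ) r := by
    rcases Nat.eq_zero_or_pos j with rfl | hj
    · rw [hs0, hs1 0 (by omega)]
      omega
    · rcases Nat.lt_or_ge j (q + 1) with hlt | hge
      · obtain ⟨t, rfl⟩ : ∃ t, j = t + 1 := ⟨j - 1, by omega⟩
        rw [hs1 t (by omega), hs1 (t + 1) (by omega)]
        have h1 := hD t (by omega)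
        have h2 := hD (t + 1) (by omega)
        rcases hstep t (by omega) with h3 | ⟨i', h3⟩
        · omega
        · have h4 := B4_horo L z (y t) (y (t + 1)) h3
          omega
      · obtain rfl : j = q + 1 := by omega
        rw [hs2, hs1 q le_rfl]
        have e1 : L.l ((y q)⁻¹ * b) = L.l (b⁻¹ * y q) := by
          rw [← L.inv ((y q)⁻¹ * b)]
          congr 1
          group
        rw [e1]
        omega
  have h5 : ((L.l (z⁻¹ * a) + L.l (z⁻¹ * b) : ℕ) : ℤ) - L.l (z⁻¹ * a) - L.l (z⁻¹ * b) = 0 := by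
    push_cast
    ring
  rw [h5] at hj3
  have h6 : (0 : ℤ) ≤ -(D : ℤ) + max (2 * L.δ : ℕ) r + L.δ * k := by linarith
  have h7 : ((D : ℕ) : ℤ) ≤ ((max (2 * L.δ) r + L.δ * k : ℕ) : ℤ) := by
    push_cast at h6 ⊢
    linarith
  exact_mod_cast h7

/-! B4 (ClaimA.lean; uses B1, B2): the points of a geodesic are close to a relative quasi-geodesic -/
theorem claimA (L : PLen P A) (r b : ℕ) : ∃ R : ℕ, ∀ (n : ℕ) (z : ℕ → G) (k : ℕ) (x : ℕ → G),
    GeoP L.l P A n z → x 0 = z 0 → x k = z n →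
    (∀ i, i < k → L.l ((x i)⁻¹ * x (i + 1)) ≤ r ∨ ∃ i', (x i)⁻¹ * x (i + 1) ∈ P i') →
    (∀ i j, i ≤ j → j ≤ k → j - i ≤ rl P A ((x i)⁻¹ * x j) + b) →
    ∀ j, j ≤ n → ∃ i, i ≤ k ∧ L.l ((z j)⁻¹ * x i) ≤ R := by
  obtain ⟨R, hR⟩ := log_bound (max (2 * L.δ) r) L.δ 6 (b + 2)
  refine ⟨R, ?_⟩
  intro n z k x hz h0 hn hstep hq
  -- the maximal distance
  have hex : ∃ D, ∀ j, j ≤ n → ∃ i, i ≤ k ∧ L.l ((z j)⁻¹ * x i) ≤ D := by
    refine ⟨(Finset.range (n + 1)).sup (fun j => L.l ((z j)⁻¹ * x 0)), fun j hj => ⟨0, Nat.zero_le _, ?_⟩⟩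
    exact Finset.le_sup (f := fun j => L.l ((z j)⁻¹ * x 0)) (Finset.mem_range.2 (by omega))
  classical
  obtain ⟨D, hDn, hDm⟩ : ∃ D, (∀ j, j ≤ n → ∃ i, i ≤ k ∧ L.l ((z j)⁻¹ * x i) ≤ D) ∧
      ∀ s, s < D → ¬ ∀ j, j ≤ n → ∃ i, i ≤ k ∧ L.l ((z j)⁻¹ * x i) ≤ s :=
    ⟨Nat.find hex, Nat.find_spec hex, fun s hs => Nat.find_min hex hs⟩
  suffices hDR : D ≤ R by
    intro j hj
    obtain ⟨i, hi, h⟩ := hDn j hj
    exact ⟨i, hi, h.trans hDR⟩
  rcases Nat.eq_zero_or_pos D with hD0 | hD0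
  · omega
  have h1 := hDm (D - 1) (by omega)
  push Not at h1
  obtain ⟨J, hJ, hJD⟩ := h1
  have hJD' : ∀ i, i ≤ k → D ≤ L.l ((z J)⁻¹ * x i) := by
    intro i hi
    have := hJD i hi
    omega
  -- the left side
  obtain ⟨t1, i1, ht1, ht1', hi1, hl1, hl1'⟩ := B4_side L hD0 (fun t => z (J - t)) x (T := J) (k := k)
    (by
      intro t ht
      have h2 := B4_geo_len L hz (J - t) t (by omega)
      have h3 : L.l ((z (J - 0))⁻¹ * z (J - t)) = L.l ((z (J - t))⁻¹ * z (J - t + t)) := by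
        rw [← L.inv ((z (J - 0))⁻¹ * z (J - t)), Nat.sub_add_cancel ht, Nat.sub_zero]
        congr 1
        group
      rw [h3]
      exact h2)
    ⟨0, Nat.zero_le _, by simp [h0]⟩
    (fun t ht => hDn (J - t) (by omega))
    (by simpa using hJD')
  obtain ⟨t2, i2, ht2, ht2', hi2, hl2, hl2'⟩ := B4_side L hD0 (fun t => z (J + t)) x (T := n - J)
    (k := k)
    (by
      intro t ht
      have h2 := B4_geo_len L hz J t (by omega)
      simpa using h2)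
    ⟨k, le_rfl, by simp [hn, Nat.add_sub_cancel' hJ]⟩
    (fun t ht => hDn (J + t) (by omega))
    (by simpa using hJD')
  simp only [Nat.sub_zero, Nat.add_zero] at hl1 hl1' hl2 hl2'
  have e0 : ∀ u v : G, L.l (u⁻¹ * v) = L.l (v⁻¹ * u) := by
    intro u v
    rw [← L.inv (u⁻¹ * v)]
    congr 1
    group
  -- additivity
  have hadd : L.l ((z (J - t1))⁻¹ * z (J + t2)) =
      L.l ((z J)⁻¹ * z (J - t1)) + L.l ((z J)⁻¹ * z (J + t2)) := by
    rw [hz.2 (J - t1) J (J + t2) (by omega) (by omega) (by omega), e0 (z (J - t1)) (z J)]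
  -- the relative length
  have hrl : rl P A ((x i1)⁻¹ * x i2) ≤ 6 * D := by
    have h2 : rl P A ((z (J - t1))⁻¹ * z (J + t2)) ≤ t1 + t2 := by
      have h3 := B4_geo_rl L hz (J - t1) (t1 + t2) (by omega)
      rwa [show J - t1 + (t1 + t2) = J + t2 by omega] at h3
    have h4 : rl P A ((x i1)⁻¹ * z (J - t1)) ≤ D := by
      refine (rl_le L _).trans ?_
      rw [e0]
      exact hl1
    have h5 : rl P A ((z (J + t2))⁻¹ * x i2) ≤ D := (rl_le L _).trans hl2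
    have h6 := rl_mul L ((x i1)⁻¹ * z (J - t1)) ((z (J - t1))⁻¹ * x i2)
    have h7 := rl_mul L ((z (J - t1))⁻¹ * z (J + t2)) ((z (J + t2))⁻¹ * x i2)
    have e1 : (x i1)⁻¹ * z (J - t1) * ((z (J - t1))⁻¹ * x i2) = (x i1)⁻¹ * x i2 := by group
    have e2 : (z (J - t1))⁻¹ * z (J + t2) * ((z (J + t2))⁻¹ * x i2) = (z (J - t1))⁻¹ * x i2 := by
      group
    rw [e1] at h6
    rw [e2] at h7
    omega
  rcases Nat.le_total i1 i2 with h12 | h12
  · -- the chain goes forward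
    have hq1 := hq i1 i2 h12 hi2
    refine hR D (i2 - i1 + 2) (by omega) (fun k' hk' => ?_)
    refine B4_chain L r D (i2 - i1) (z J) (z (J - t1)) (z (J + t2)) (fun t => x (i1 + t)) ?_ ?_
      hadd ?_ ?_ k' hk'
    · intro t ht
      exact hstep (i1 + t) (by omega)
    · intro t ht
      exact hJD' (i1 + t) (by omega)
    · simpa using hl1'
    · rw [show i1 + (i2 - i1) = i2 by omega]
      exact hl2'
  · have hq1 := hq i2 i1 h12 hi1
    have h8 : rl P A ((x i2)⁻¹ * x i1) ≤ 6 * D := by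
      rw [← rl_inv L]
      have : ((x i2)⁻¹ * x i1)⁻¹ = (x i1)⁻¹ * x i2 := by group
      rw [this]
      exact hrl
    refine hR D (i1 - i2 + 2) (by omega) (fun k' hk' => ?_)
    refine B4_chain L r D (i1 - i2) (z J) (z (J - t1)) (z (J + t2)) (fun t => x (i1 - t)) ?_ ?_
      hadd ?_ ?_ k' hk'
    · intro t ht
      have h9 := hstep (i1 - (t + 1)) (by omega)
      have e3 : i1 - (t + 1) + 1 = i1 - t := by omega
      rw [e3] at h9
      rw [e0 (x (i1 - t)) (x (i1 - (t + 1)))]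
      rcases h9 with h9 | ⟨i', h9⟩
      · exact Or.inl h9
      · right
        refine ⟨i', ?_⟩
        have e4 : (x (i1 - t))⁻¹ * x (i1 - (t + 1)) = ((x (i1 - (t + 1)))⁻¹ * x (i1 - t))⁻¹ := by
          group
        rw [e4]
        exact (P i').inv_mem h9
    · intro t ht
      exact hJD' (i1 - t) (by omega)
    · simpa using hl1'
    · rw [show i1 - (i1 - i2) = i2 by omega]
      exact hl2'

end

end Pool.Agent.REL
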