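import Pool.Agent.REL.Defs
/-!
# Chains of few steps outside of a coset
-/
namespace Pool.Agent.REL
open Pool.Agent.SLX

private theorem coset_chain_max (f : ℕ → ℕ → ℤ) (δ : ℕ)
    (h : ∀ a b c, f a c ≤ max (f a b) (f b c) + δ) (k : ℕ) :
    ∀ m n, m < n → n - m ≤ 2 ^ k → ∃ j, m ≤ j ∧ j < n ∧ f m n ≤ f j (j + 1) + δ * k := by
  induction k with
  | zero =>
    intro m n hmn hk
    have h1 : n = m + 1 := by
      rw [pow_zero] at hk
      omega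
    subst h1
    exact ⟨m, le_refl _, hmn, by simp⟩
  | succ k ih =>
    intro m n hmn hk
    have hmul : (δ : ℤ) * ((k + 1 : ℕ) : ℤ) = δ * k + δ := by
      push_cast
      ring
    have hδ : (0 : ℤ) ≤ (δ : ℤ) := Int.natCast_nonneg δ
    rw [hmul]
    by_cases hle : n - m ≤ 2 ^ k
    · obtain ⟨j, h1, h2, h3⟩ := ih m n hmn hle
      exact ⟨j, h1, h2, by linarith⟩
    · have hp : 2 ^ (k + 1) = 2 ^ k + 2 ^ k := by ring
      have hp0 : 0 < 2 ^ k := Nat.pow_pos (by norm_num)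
      obtain ⟨j, h1, h2, h3⟩ := ih m (m + 2 ^ k) (by omega) (by omega)
      obtain ⟨j', h1', h2', h3'⟩ := ih (m + 2 ^ k) n (by omega) (by omega)
      have h4 := h m (m + 2 ^ k) n
      rcases le_total (f m (m + 2 ^ k)) (f (m + 2 ^ k) n) with h5 | h5
      · rw [max_eq_right h5] at h4
        exact ⟨j', by omega, h2', by linarith⟩
      · rw [max_eq_left h5] at h4
        exact ⟨j, h1, by omega, by linarith⟩

section
variable {G ι : Type} [Group G] {P : ι → Subgroup G} {A : Set G}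

/-- a chain of few steps outside of a coset, with both ends in the coset -/
theorem coset_chain (L : PLen P A) (r K : ℕ) : ∃ R : ℕ, ∀ (i : ι) (g : G) (m : ℕ) (s : ℕ → G),
    m ≤ K →
    (∀ j, j < m → L.l ((s j)⁻¹ * s (j + 1)) ≤ r ∨
      ∃ i', (s j)⁻¹ * s (j + 1) ∈ P i' ∧ ¬ (i' = i ∧ g⁻¹ * s j ∈ P i)) →
    g⁻¹ * s 0 ∈ P i → g⁻¹ * s m ∈ P i → L.l ((s 0)⁻¹ * s m) ≤ R := by
  refine ⟨max r L.δ + L.δ * Nat.clog 2 K + 2 * L.δ, ?_⟩
  intro i g m s hm hstep h0 hm1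
  rcases Nat.eq_zero_or_pos m with hz | hpos
  · subst hz
    rw [inv_mul_cancel, L.one]
    exact Nat.zero_le _
  have hK : m - 0 ≤ 2 ^ Nat.clog 2 K :=
    le_trans (by omega) (Nat.le_pow_clog (by norm_num) K)
  obtain ⟨j, _, hj, hf⟩ := coset_chain_max
    (fun a b => (L.l ((s a)⁻¹ * s b) : ℤ) - L.β i (g⁻¹ * s a) - L.β i (g⁻¹ * s b)) L.δ
    (by
      intro a b c
      have h1 := L.β_hyp i (g⁻¹ * s a) (g⁻¹ * s c) (g⁻¹ * s b)
      have e1 : (g⁻¹ * s a)⁻¹ * (g⁻¹ * s c) = (s a)⁻¹ * s c := by group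
      have e2 : (g⁻¹ * s a)⁻¹ * (g⁻¹ * s b) = (s a)⁻¹ * s b := by group
      have e3 : (g⁻¹ * s c)⁻¹ * (g⁻¹ * s b) = ((s b)⁻¹ * s c)⁻¹ := by group
      rw [e1, e2, e3, L.inv] at h1
      omega) (Nat.clog 2 K) 0 m hpos hK
  have h2 := L.β_on i _ h0
  have h3 := L.β_on i _ hm1
  have h4 : (L.l ((s j)⁻¹ * s (j + 1)) : ℤ) - L.β i (g⁻¹ * s j) - L.β i (g⁻¹ * s (j + 1)) ≤
      max r L.δ := by
    rcases hstep j hj with h | ⟨i', hi', hne⟩
    · omega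
    · have h5 := L.β_sep i i' (g⁻¹ * s j) (fun h6 h7 => hne ⟨h6.symm, h7⟩) 1 (one_mem _) _ hi'
      have e4 : g⁻¹ * s j * ((s j)⁻¹ * s (j + 1)) = g⁻¹ * s (j + 1) := by group
      rw [e4, mul_one, inv_one, one_mul] at h5
      omega
  have h6 : (L.l ((s 0)⁻¹ * s m) : ℤ) ≤ max r L.δ + L.δ * Nat.clog 2 K + 2 * L.δ := by
    omega
  exact_mod_cast h6

end

end Pool.Agent.REL
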