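import Pool.Agent.REL.Rl
import Pool.Agent.REL.Cos
import Pool.Agent.REL.ClaimA
/-!
# Relative geodesics are close to geodesics
-/
namespace Pool.Agent.REL
open Pool.Agent.SLX

section
variable {G ι : Type} [Group G] {P : ι → Subgroup G} {A : Set G}

/-- A chain of `m` steps from `p` to `q`. -/
private def B5St (Rr : G → G → Prop) (m : ℕ) (p q : G) : Prop :=
  ∃ s : ℕ → G, s 0 = p ∧ s m = q ∧ ∀ j, j < m → Rr (s j) (s (j + 1))

omit [Group G] in
private theorem B5_zero (Rr : G → G → Prop) (p : G) : B5St Rr 0 p p :=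
  ⟨fun _ => p, rfl, rfl, fun _ hj => absurd hj (Nat.not_lt_zero _)⟩

omit [Group G] in
private theorem B5_snoc {Rr : G → G → Prop} {m : ℕ} {p q q' : G} (h : B5St Rr m p q)
    (h' : Rr q q') : B5St Rr (m + 1) p q' := by
  obtain ⟨s, h0, hm, hs⟩ := h
  refine ⟨fun j => if j ≤ m then s j else q', ?_, ?_, ?_⟩
  · show (if 0 ≤ m then s 0 else q') = p
    rw [if_pos (Nat.zero_le m), h0]
  · show (if m + 1 ≤ m then s (m + 1) else q') = q'
    rw [if_neg (by omega)]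
  · intro j hj
    show Rr (if j ≤ m then s j else q') (if j + 1 ≤ m then s (j + 1) else q')
    by_cases h1 : j < m
    · rw [if_pos h1.le, if_pos (show j + 1 ≤ m from h1)]
      exact hs j h1
    · have h2 : j = m := by omega
      rw [if_pos h2.le, if_neg (by omega), h2, hm]
      exact h'

omit [Group G] in
private theorem B5_down {Rr : G → G → Prop} (x : ℕ → G) (a d : ℕ) :
    ∀ (m : ℕ) (p : G), B5St Rr m p (x (a + d)) →
      (∀ e, a ≤ e → e < a + d → Rr (x (e + 1)) (x e)) → B5St Rr (m + d) p (x a) := by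
  induction d with
  | zero => intro m p h _; exact h
  | succ d ih =>
    intro m p h hx
    have h1 : Rr (x (a + d + 1)) (x (a + d)) := hx (a + d) (by omega) (by omega)
    have h2 : B5St Rr (m + 1) p (x (a + d)) := B5_snoc h h1
    have h3 := ih (m + 1) p h2 (fun e he he' => hx e he (by omega))
    have h4 : m + 1 + d = m + (d + 1) := by omega
    rw [h4] at h3
    exact h3

private theorem B5_sum (L : PLen P A) (x : ℕ → G) (μ c d : ℕ)
    (h : ∀ t, c ≤ t → t < c + d → L.l ((x t)⁻¹ * x (t + 1)) ≤ μ) :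
    L.l ((x c)⁻¹ * x (c + d)) ≤ d * μ := by
  induction d with
  | zero => simp [L.one]
  | succ d ih =>
    have h1 := ih (fun t ht ht' => h t ht (by omega))
    have h2 := h (c + d) (by omega) (by omega)
    have h3 : (x c)⁻¹ * x (c + (d + 1)) =
        ((x c)⁻¹ * x (c + d)) * ((x (c + d))⁻¹ * x (c + d + 1)) := by
      rw [← add_assoc]; group
    rw [h3]
    refine (L.mul _ _).trans ?_
    have h4 : (d + 1) * μ = d * μ + μ := by ring
    omega

private theorem B5_symm (L : PLen P A) (a b : G) : L.l (a⁻¹ * b) = L.l (b⁻¹ * a) := by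
  rw [← L.inv (a⁻¹ * b), mul_inv_rev, inv_inv]

private theorem B5_two {k : ℕ} {x : ℕ → G} (hx : RGeo P A k x) {s t : ℕ} (hst : s + 2 ≤ t)
    (ht : t ≤ k) {i : ι} (h : (x s)⁻¹ * x t ∈ P i) : False := by
  have h1 := hx.2 s t (by omega) ht
  have h2 : rl P A ((x s)⁻¹ * x t) ≤ 1 := rl_letter (Or.inr ⟨i, h⟩)
  omega

/-- a long step of the piece is in the pair of the step of the geodesic -/
private theorem B5_chain (L : PLen P A) {R1 lam : ℕ}
    (hlam : ∀ (i : ι) (g : G) (m : ℕ) (s : ℕ → G), m ≤ 2 * R1 + 3 →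
      (∀ j, j < m → L.l ((s j)⁻¹ * s (j + 1)) ≤ max R1 1 ∨
        ∃ i', (s j)⁻¹ * s (j + 1) ∈ P i' ∧ ¬ (i' = i ∧ g⁻¹ * s j ∈ P i)) →
      g⁻¹ * s 0 ∈ P i → g⁻¹ * s m ∈ P i → L.l ((s 0)⁻¹ * s m) ≤ lam)
    {k : ℕ} {x : ℕ → G} (hx : RGeo P A k x) {a b : ℕ} (hab : b ≤ a + (2 * R1 + 1)) (hbk : b ≤ k)
    {u v : G} (hu : L.l (u⁻¹ * x a) ≤ R1) (hv : L.l (v⁻¹ * x b) ≤ R1) {t : ℕ} (hat : a ≤ t)
    (htb : t < b) {i' : ι} (hi' : (x t)⁻¹ * x (t + 1) ∈ P i')
    (huv : L.l (u⁻¹ * v) ≤ max R1 1 ∨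
      ∃ i'', u⁻¹ * v ∈ P i'' ∧ ¬ (i'' = i' ∧ (x t)⁻¹ * u ∈ P i')) :
    L.l ((x t)⁻¹ * x (t + 1)) ≤ lam := by
  set Rr : G → G → Prop := fun p q => L.l (p⁻¹ * q) ≤ max R1 1 ∨
    ∃ i'', p⁻¹ * q ∈ P i'' ∧ ¬ (i'' = i' ∧ (x t)⁻¹ * p ∈ P i') with hRr
  obtain ⟨d, rfl⟩ := Nat.exists_eq_add_of_le hat
  obtain ⟨d', rfl⟩ := Nat.exists_eq_add_of_le (show a + d + 1 ≤ b from htb)
  have hlet : ∀ e, e < k → (∀ i'', (x e)⁻¹ * x (e + 1) ∈ P i'' →
      ¬ (i'' = i' ∧ (x (a + d))⁻¹ * x (e + 1) ∈ P i')) → Rr (x (e + 1)) (x e) := by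
    intro e he hne
    rcases hx.1 e he with h | ⟨i'', h⟩
    · left
      rw [B5_symm]
      exact (L.le_one _ h).trans (le_max_right _ _)
    · right
      refine ⟨i'', ?_, hne i'' h⟩
      have := (P i'').inv_mem h
      rwa [mul_inv_rev, inv_inv] at this
  have c0 : B5St Rr 0 (x (a + d)) (x (a + d)) := B5_zero _ _
  have c1 : B5St Rr (0 + d) (x (a + d)) (x a) := by
    apply B5_down x a d 0 _ c0
    intro e he he'
    apply hlet e (by omega)
    rintro i'' h1 ⟨rfl, h2⟩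
    have h3 : (x e)⁻¹ * x (a + d + 1) ∈ P i'' := by
      have h4 : (x e)⁻¹ * x (a + d + 1) = ((x e)⁻¹ * x (e + 1)) *
          ((x (a + d))⁻¹ * x (e + 1))⁻¹ * ((x (a + d))⁻¹ * x (a + d + 1)) := by group
      rw [h4]
      exact (P i'').mul_mem ((P i'').mul_mem h1 ((P i'').inv_mem h2)) hi'
    exact B5_two hx (by omega) (by omega) h3
  have c2 : B5St Rr (0 + d + 1) (x (a + d)) u := by
    apply B5_snoc c1
    left
    rw [B5_symm]
    exact hu.trans (le_max_left _ _)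
  have c3 : B5St Rr (0 + d + 1 + 1) (x (a + d)) v := B5_snoc c2 huv
  have c4 : B5St Rr (0 + d + 1 + 1 + 1) (x (a + d)) (x (a + d + 1 + d')) := by
    apply B5_snoc c3
    left
    exact hv.trans (le_max_left _ _)
  have c5 : B5St Rr (0 + d + 1 + 1 + 1 + d') (x (a + d)) (x (a + d + 1)) := by
    apply B5_down x (a + d + 1) d' _ _ c4
    intro e he he'
    apply hlet e (by omega)
    rintro i'' _ ⟨_, h2⟩
    exact B5_two hx (by omega) (by omega) h2
  obtain ⟨s, hs0, hsm, hs⟩ := c5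
  have h5 := hlam i' (x (a + d)) _ s (by omega) hs
    (by rw [hs0, inv_mul_cancel]; exact (P i').one_mem) (by rw [hsm]; exact hi')
  rw [hs0, hsm] at h5
  exact h5

/-! B5 (ClaimB.lean; uses B1, B3, B4) -/
theorem claimB (L : PLen P A) : ∃ R : ℕ, ∀ (n : ℕ) (z : ℕ → G) (k : ℕ) (x : ℕ → G),
    GeoP L.l P A n z → RGeo P A k x → x 0 = z 0 → x k = z n →
    ∀ i, i ≤ k → ∃ j, j ≤ n ∧ L.l ((x i)⁻¹ * z j) ≤ R := by
  obtain ⟨R1, hR1⟩ := claimA L 1 0
  obtain ⟨lam, hlam⟩ := coset_chain L (max R1 1) (2 * R1 + 3)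
  refine ⟨(2 * R1 + 1) * max lam 1 + R1, ?_⟩
  intro n z k x hz hx h0 hk i hik
  -- the points of the geodesic are close to the relative geodesic
  have hA : ∀ j, j ≤ n → ∃ i, i ≤ k ∧ L.l ((z j)⁻¹ * x i) ≤ R1 := by
    apply hR1 n z k x hz h0 hk
    · intro i hi
      rcases hx.1 i hi with h | h
      · exact Or.inl (L.le_one _ h)
      · exact Or.inr h
    · intro i j hij hj
      rw [hx.2 i j hij hj]
      omega
  rcases Nat.eq_zero_or_pos n with hn | hn
  · subst hn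
    have h1 := hx.2 0 k (Nat.zero_le _) le_rfl
    have h2 : (x 0)⁻¹ * x k = 1 := by rw [h0, hk, inv_mul_cancel]
    rw [h2, rl_one] at h1
    have h3 : i = 0 := by omega
    refine ⟨0, le_rfl, ?_⟩
    rw [h3, h0, inv_mul_cancel, L.one]
    omega
  have hf : ∃ f : ℕ → ℕ, f 0 = 0 ∧ f n = k ∧ ∀ j, j ≤ n → f j ≤ k ∧
      L.l ((z j)⁻¹ * x (f j)) ≤ R1 := by
    choose! f hf1 using hA
    refine ⟨fun j => if j = 0 then 0 else if j = n then k else f j, ?_, ?_, ?_⟩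
    · simp
    · show (if n = 0 then 0 else if n = n then k else f n) = k
      rw [if_neg (by omega), if_pos rfl]
    · intro j hj
      show (if j = 0 then 0 else if j = n then k else f j) ≤ k ∧
        L.l ((z j)⁻¹ * x (if j = 0 then 0 else if j = n then k else f j)) ≤ R1
      by_cases h1 : j = 0
      · rw [if_pos h1, h1, h0, inv_mul_cancel, L.one]
        omega
      · by_cases h2 : j = n
        · rw [if_neg h1, if_pos h2, h2, hk, inv_mul_cancel, L.one]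
          omega
        · rw [if_neg h1, if_neg h2]
          exact hf1 j hj
  obtain ⟨f, hf0, hfn, hf⟩ := hf
  -- the piece of the relative geodesic which contains the point
  have hj : ∃ j, j < n ∧ f j ≤ i ∧ i ≤ f (j + 1) := by
    by_contra hcon
    push Not at hcon
    have h1 : ∀ j, j ≤ n → f j ≤ i := by
      intro j
      induction j with
      | zero => intro _; rw [hf0]; exact Nat.zero_le _
      | succ j ih =>
        intro hj
        exact (hcon j hj (ih (by omega))).le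
    obtain ⟨n', rfl⟩ : ∃ n', n = n' + 1 := ⟨n - 1, by omega⟩
    have h2 := hcon n' (by omega) (h1 n' (by omega))
    omega
  obtain ⟨j, hjn, hj1, hj2⟩ := hj
  obtain ⟨hak, hu⟩ := hf j hjn.le
  obtain ⟨hbk, hv⟩ := hf (j + 1) hjn
  generalize f j = a at hj1 hak hu
  generalize f (j + 1) = b at hj2 hbk hv
  have huv := (hz.1 j hjn).1
  have hab : b ≤ a + (2 * R1 + 1) := by
    have h1 := hx.2 a b (by omega) hbk
    have h2 : (x a)⁻¹ * x b = ((x a)⁻¹ * z j) * ((z j)⁻¹ * z (j + 1)) *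
        ((z (j + 1))⁻¹ * x b) := by group
    have h3 := rl_mul L (((x a)⁻¹ * z j) * ((z j)⁻¹ * z (j + 1))) ((z (j + 1))⁻¹ * x b)
    have h4 := rl_mul L ((x a)⁻¹ * z j) ((z j)⁻¹ * z (j + 1))
    have h5 := rl_letter huv
    have h6 := rl_le L ((x a)⁻¹ * z j)
    have h7 := rl_le L ((z (j + 1))⁻¹ * x b)
    rw [B5_symm] at h6
    rw [← h2] at h3
    omega
  set u := z j with hudef
  set v := z (j + 1) with hvdef
  set μ := max lam 1 with hμ
  -- long steps
  have hbad : ∀ t, a ≤ t → t < b → μ < L.l ((x t)⁻¹ * x (t + 1)) → ∃ i', (x t)⁻¹ * x (t + 1) ∈ P i' ∧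
      u⁻¹ * v ∈ P i' ∧ (x t)⁻¹ * u ∈ P i' ∧ ∀ i'', u⁻¹ * v ∈ P i'' → i'' = i' := by
    intro t hat htb hl
    have hl1 : lam < L.l ((x t)⁻¹ * x (t + 1)) := lt_of_le_of_lt (le_max_left _ _) hl
    have hl2 : 1 < L.l ((x t)⁻¹ * x (t + 1)) := lt_of_le_of_lt (le_max_right _ _) hl
    rcases hx.1 t (by omega) with h | ⟨i', hi'⟩
    · exact absurd (L.le_one _ h) (by omega)
    have hno : ¬ (L.l (u⁻¹ * v) ≤ max R1 1 ∨
        ∃ i'', u⁻¹ * v ∈ P i'' ∧ ¬ (i'' = i' ∧ (x t)⁻¹ * u ∈ P i')) := by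
      intro hcon
      have := B5_chain L hlam hx hab hbk hu hv hat htb hi' hcon
      omega
    push Not at hno
    obtain ⟨hno1, hno2⟩ := hno
    rcases huv with h | ⟨i'', h⟩
    · exact absurd ((L.le_one _ h).trans (le_max_right R1 1)) (by omega)
    have h3 := hno2 i'' h
    refine ⟨i', hi', ?_, h3.2, fun k hk => (hno2 k hk).1⟩
    rw [← h3.1]
    exact h
  by_cases hall : ∀ t, a ≤ t → t < i → L.l ((x t)⁻¹ * x (t + 1)) ≤ μ
  · refine ⟨j, hjn.le, ?_⟩
    obtain ⟨d, rfl⟩ := Nat.exists_eq_add_of_le hj1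
    have h1 := B5_sum L x μ a d hall
    have h2 : (x (a + d))⁻¹ * u = ((x a)⁻¹ * x (a + d))⁻¹ * ((x a)⁻¹ * u) := by group
    rw [h2]
    refine (L.mul _ _).trans ?_
    rw [L.inv, B5_symm L (x a) u]
    have h3 : d * μ ≤ (2 * R1 + 1) * μ := Nat.mul_le_mul_right _ (by omega)
    omega
  · push Not at hall
    obtain ⟨t1, ht1, ht1', ht1''⟩ := hall
    obtain ⟨i1, e1, e2, e3, e4⟩ := hbad t1 ht1 (by omega) ht1''
    have hall2 : ∀ t, i ≤ t → t < b → L.l ((x t)⁻¹ * x (t + 1)) ≤ μ := by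
      intro t2 ht2 ht2'
      by_contra hcon
      push Not at hcon
      obtain ⟨i2, f1, f2, f3, f4⟩ := hbad t2 (by omega) ht2' hcon
      have hi : i2 = i1 := e4 i2 f2
      subst hi
      have h3 : (x t1)⁻¹ * x (t2 + 1) ∈ P i2 := by
        have h4 : (x t1)⁻¹ * x (t2 + 1) = ((x t1)⁻¹ * u) * ((x t2)⁻¹ * u)⁻¹ *
            ((x t2)⁻¹ * x (t2 + 1)) := by group
        rw [h4]
        exact (P i2).mul_mem ((P i2).mul_mem e3 ((P i2).inv_mem f3)) f1
      exact B5_two hx (by omega) (by omega) h3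
    refine ⟨j + 1, hjn, ?_⟩
    obtain ⟨d, rfl⟩ := Nat.exists_eq_add_of_le hj2
    have h1 := B5_sum L x μ i d hall2
    have h2 : (x i)⁻¹ * v = ((x i)⁻¹ * x (i + d)) * ((x (i + d))⁻¹ * v) := by group
    rw [h2]
    refine (L.mul _ _).trans ?_
    rw [B5_symm L (x (i + d)) v]
    have h3 : d * μ ≤ (2 * R1 + 1) * μ := Nat.mul_le_mul_right _ (by omega)
    omega

end
end Pool.Agent.REL
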