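import Mathlib
import Pool.Agent.SLX.Defs
import Pool.Agent.REL.RelDef
/-!
# Relatively hyperbolic groups: abstract length functions, relative length, normal forms
-/
namespace Pool.Agent.REL
open Pool.Agent.SLX

section
variable {G ι : Type} [Group G]

/-- Letters: generators and peripheral elements. -/
def Letter (P : ι → Subgroup G) (A : Set G) (s : G) : Prop := s ∈ A ∨ ∃ i, s ∈ P i

/-- A path of letters. -/
def RPath (P : ι → Subgroup G) (A : Set G) (n : ℕ) (z : ℕ → G) : Prop :=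
  ∀ j, j < n → Letter P A ((z j)⁻¹ * z (j + 1))

/-- The relative length. -/
noncomputable def rl (P : ι → Subgroup G) (A : Set G) (g : G) : ℕ :=
  sInf {n | ∃ z : ℕ → G, z 0 = 1 ∧ z n = g ∧ RPath P A n z}

/-- A relative geodesic. -/
def RGeo (P : ι → Subgroup G) (A : Set G) (n : ℕ) (z : ℕ → G) : Prop :=
  RPath P A n z ∧ ∀ i j, i ≤ j → j ≤ n → rl P A ((z i)⁻¹ * z j) = j - i

/-- A geodesic for the length `l`, seen as a path of letters. -/
def GeoP (l : G → ℕ) (P : ι → Subgroup G) (A : Set G) (n : ℕ) (z : ℕ → G) : Prop :=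
  (∀ j, j < n → Letter P A ((z j)⁻¹ * z (j + 1)) ∧ 1 ≤ l ((z j)⁻¹ * z (j + 1))) ∧
  ∀ i j k, i ≤ j → j ≤ k → k ≤ n →
    l ((z i)⁻¹ * z k) = l ((z i)⁻¹ * z j) + l ((z j)⁻¹ * z k)

/-- The restriction to `G` of the metric of the cusped graph, with the horofunctions `β i` of the
horoballs of the subgroups `P i`. -/
structure PLen (P : ι → Subgroup G) (A : Set G) where
  l : G → ℕ
  one : l 1 = 0
  mul : ∀ g h, l (g * h) ≤ l g + l h
  inv : ∀ g, l g⁻¹ = l g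
  fin : ∀ n, {g | l g ≤ n}.Finite
  sym : ∀ a ∈ A, a⁻¹ ∈ A
  le_one : ∀ a ∈ A, l a ≤ 1
  δ : ℕ
  hyp : ∀ x y z w : G, l (x⁻¹ * z) + l (y⁻¹ * w) ≤
    max (l (x⁻¹ * y) + l (z⁻¹ * w)) (l (x⁻¹ * w) + l (y⁻¹ * z)) + δ
  geo : ∀ g, ∃ (n : ℕ) (z : ℕ → G), z 0 = 1 ∧ z n = g ∧ GeoP l P A n z
  β : ι → G → ℕ
  β_lip : ∀ i x y, β i x ≤ β i y + l (x⁻¹ * y)
  β_on : ∀ i, ∀ p ∈ P i, β i p ≤ δ
  β_hyp : ∀ i x y z, l (x⁻¹ * y) + β i z ≤
    max (l (x⁻¹ * z) + β i y) (l (y⁻¹ * z) + β i x) + δ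
  β_sep : ∀ i j (g : G), (i = j → g ∉ P i) → ∀ p ∈ P j, ∀ q ∈ P j,
    l (p⁻¹ * q) ≤ max (β i (g * p)) (β i (g * q)) + δ

/-- `g` has minimal relative length in its coset `g (P i)`. -/
def Minc (P : ι → Subgroup G) (A : Set G) (i : ι) (g : G) : Prop :=
  ∀ p ∈ P i, rl P A g ≤ rl P A (g * p)

variable {P : ι → Subgroup G} {A : Set G}

/-- The points of minimal relative length of a coset are at distance at most `N`. -/
def EntryB (L : PLen P A) (N : ℕ) : Prop :=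
  ∀ (i : ι) (g p : G), p ∈ P i → Minc P A i g → rl P A (g * p) = rl P A g → L.l p ≤ N

/-- Relative geodesics with the same start, and ends at distance at most `M`, are close. -/
def NearB (L : PLen P A) (M N : ℕ) : Prop :=
  ∀ (k k' : ℕ) (x y : ℕ → G), RGeo P A k x → RGeo P A k' y → x 0 = y 0 →
    L.l ((x k)⁻¹ * y k') ≤ M → ∀ i, i ≤ k → ∃ j, j ≤ k' ∧ L.l ((x i)⁻¹ * y j) ≤ N

/-- They penetrate the same cosets deeply, at the same times and at close points. -/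
def PenB (L : PLen P A) (M N : ℕ) : Prop :=
  ∀ (k k' : ℕ) (x y : ℕ → G), RGeo P A k x → RGeo P A k' y → x 0 = 1 → y 0 = 1 →
    L.l ((x k)⁻¹ * y k') ≤ M → ∀ (i : ι) (t : ℕ), t < k → (x t)⁻¹ * x (t + 1) ∈ P i →
      N < L.l ((x t)⁻¹ * x (t + 1)) →
      t < k' ∧ (y t)⁻¹ * y (t + 1) ∈ P i ∧ (x t)⁻¹ * y t ∈ P i ∧ L.l ((x t)⁻¹ * y t) ≤ N ∧
        L.l ((x (t + 1))⁻¹ * y (t + 1)) ≤ N

/-- The same relative lengths (up to a constant) on the ball of radius `N`. -/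
def Loc (L : PLen P A) (N : ℕ) (g g' : G) : Prop :=
  ∀ y, L.l y ≤ N → rl P A (g * y) + rl P A g' = rl P A (g' * y) + rl P A g

/-- Test elements: each nontrivial `P i` has an element of length in `(N, T]`. -/
def Tst (L : PLen P A) (N T : ℕ) : Prop :=
  ∀ i, P i = ⊥ ∨ ∃ p ∈ P i, N < L.l p ∧ L.l p ≤ T

/-- Equivariant choice of a point in each finite nonempty subset of `H`. -/
def IsCh (H : Subgroup G) (ch : Set G → G) : Prop :=
  ∀ Y : Set G, Y.Finite → Y.Nonempty → Y ⊆ (H : Set G) →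
    ch Y ∈ Y ∧ ∀ p ∈ H, ch ((fun y => p * y) '' Y) = p * ch Y

/-- The points of minimal relative length of the coset `g (P i)`, seen from `g`. -/
def Ent (P : ι → Subgroup G) (A : Set G) (i : ι) (g : G) : Set G :=
  {p | p ∈ P i ∧ Minc P A i (g * p)}

/-- `g` is the canonical entry point of the coset `g (P i)`. -/
def Can (P : ι → Subgroup G) (A : Set G) (ch : ι → Set G → G) (i : ι) (g : G) : Prop :=
  ch i (Ent P A i g) = 1

end

/-- The data for the normal forms. -/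
structure Nd {G ι : Type} [Group G] (P : ι → Subgroup G) (A : Set G) where
  L : PLen P A
  ch : ι → Set G → G
  isch : ∀ i, IsCh (P i) (ch i)
  NE : ℕ
  hE : EntryB L NE
  B : ℕ
  hEB : NE ≤ B
  h0 : PenB L 0 B
  hδ : 2 * L.δ ≤ B
  h1 : 1 ≤ B
  ord : G → ℕ
  ord_inj : ∀ s t, L.l s ≤ B → L.l t ≤ B → ord s = ord t → s = t

section
variable {G ι : Type} [Group G] {P : ι → Subgroup G} {A : Set G}

/-- `h` is far from the canonical entry point of one of its cosets. -/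
def Far (D : Nd P A) (h : G) : Prop :=
  ∃ (i : ι) (p : G), p ∈ P i ∧ D.B < D.L.l p ∧ Can P A D.ch i (h * p⁻¹)

/-- The letter `s` leads from `g` to `g * s` in the normal form of `g * s`. -/
def Step (D : Nd P A) (g s : G) : Prop :=
  rl P A s = 1 ∧ rl P A (g * s) = rl P A g + 1 ∧
    ((∃ i, s ∈ P i ∧ D.B < D.L.l s ∧ Can P A D.ch i g) ∨
     (D.L.l s ≤ D.B ∧ ¬ Far D (g * s) ∧ ∀ t, rl P A t = 1 → D.L.l t ≤ D.B →
       rl P A (g * s * t⁻¹) + 1 = rl P A (g * s) → D.ord s ≤ D.ord t))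

/-- The word `w` of letters can be continued from `g` as a normal form. -/
def Vd (D : Nd P A) : G → List G → Prop
  | _, [] => True
  | g, s :: w => Step D g s ∧ Vd D (g * s) w

end

/-- The data for the automatic structure: the normal form data, and automatic structures with
unique representatives for the subgroups `P i`. -/
structure Ld {G ι : Type} [Group G] (P : ι → Subgroup G) (A : Set G) where
  D : Nd P A
  M0 : ℕ
  NP : ℕ
  hP : PenB D.L M0 NP
  hN : NearB D.L M0 NP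
  B4 : ℕ
  h4 : D.B + 2 * NP ≤ B4
  Bt : ι → Type
  btfin : ∀ i, Finite (Bt i)
  ψ : ∀ i, Bt i → G
  Lg : ∀ i, Language (Bt i)
  reg : ∀ i, (Lg i).IsRegular
  mem : ∀ i, ∀ u ∈ Lg i, val (ψ i) u ∈ P i
  onto : ∀ i, ∀ p ∈ P i, ∃ u ∈ Lg i, val (ψ i) u = p
  uniq : ∀ i, ∀ u ∈ Lg i, ∀ v ∈ Lg i, val (ψ i) u = val (ψ i) v → u = v
  ft : ∀ (i : ι) (h : G), ∃ F : Set G, F.Finite ∧ ∀ u ∈ Lg i, ∀ v ∈ Lg i,
    val (ψ i) u * h = val (ψ i) v → ∀ t, (val (ψ i) (u.take t))⁻¹ * val (ψ i) (v.take t) ∈ F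
  len : ∀ (i : ι) (h : G), ∃ c : ℕ, ∀ u ∈ Lg i, ∀ v ∈ Lg i,
    val (ψ i) u * h = val (ψ i) v → u.length ≤ v.length + c ∧ v.length ≤ u.length + c

section
variable {G ι : Type} [Group G] {P : ι → Subgroup G} {A : Set G}

/-- The alphabet. -/
abbrev Alp (E : Ld P A) : Type := {s : G // E.D.L.l s ≤ E.B4} ⊕ (Σ i, E.Bt i)

/-- The value of a letter of the alphabet. -/
def Ψ (E : Ld P A) : Alp E → G
  | Sum.inl s => s.1
  | Sum.inr b => E.ψ b.1 b.2

/-- `u` is the string of the letter `s`. -/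
def Tw (E : Ld P A) (s : G) (u : List (Alp E)) : Prop :=
  (∃ h : E.D.L.l s ≤ E.B4, u = [Sum.inl ⟨s, h⟩]) ∨
  (E.B4 < E.D.L.l s ∧ ∃ i, s ∈ P i ∧ ∃ v ∈ E.Lg i, val (E.ψ i) v = s ∧
    u = v.map (fun b => Sum.inr ⟨i, b⟩))

/-- The strings of the normal forms continued from `g`. -/
def NFw (E : Ld P A) (g : G) : Language (Alp E) :=
  {u | ∃ (w : List G) (us : List (List (Alp E))), Vd E.D g w ∧ List.Forall₂ (Tw E) w us ∧
    u = us.flatten}

end

/-- Paths in a finite graph whose edges carry languages. -/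
inductive GP {Q S : Type} (R : Q → Q → Language S) : Q → List S → Q → Prop
  | nil (q : Q) : GP R q [] q
  | cons {q q' q'' : Q} {u v : List S} (h : u ∈ R q q') (h' : GP R q' v q'') :
      GP R q (u ++ v) q''

end Pool.Agent.REL
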