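import Pool.Agent.REL.Defs
import Pool.Agent.REL.Rl
import Pool.Agent.REL.Cos
import Pool.Agent.REL.ClaimA
import Pool.Agent.REL.ClaimB
/-!
# The points of minimal relative length of a coset are close
-/
namespace Pool.Agent.REL
open Pool.Agent.SLX

section
variable {G ι : Type} [Group G] {P : ι → Subgroup G} {A : Set G}

/-- A chain down a relative geodesic, over to another one, and up. -/
private theorem b7_chain (L : PLen P A) (i : ι) (g : G) (m r K R : ℕ)
    (hR : ∀ (n : ℕ) (c : ℕ → G), n ≤ K →
      (∀ j, j < n → L.l ((c j)⁻¹ * c (j + 1)) ≤ r ∨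
        ∃ i', (c j)⁻¹ * c (j + 1) ∈ P i' ∧ ¬ (i' = i ∧ g⁻¹ * c j ∈ P i)) →
      g⁻¹ * c 0 ∈ P i → g⁻¹ * c n ∈ P i → L.l ((c 0)⁻¹ * c n) ≤ R)
    (hr : 1 ≤ r) (hmin : ∀ h : G, g⁻¹ * h ∈ P i → m ≤ rl P A h)
    (x y : ℕ → G) (hx : RPath P A m x) (hy : RPath P A m y)
    (hxl : ∀ j, j ≤ m → rl P A (x j) = j) (hyl : ∀ j, j ≤ m → rl P A (y j) = j)
    (hxm : x m = g) (hym : g⁻¹ * y m ∈ P i) (s t : ℕ) (hs : s ≤ m) (ht : t ≤ m)
    (hst : L.l ((y t)⁻¹ * x s) ≤ r) (hK : (m - s) + 1 + (m - t) ≤ K) :
    L.l (g⁻¹ * y m) ≤ R := by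
  have key := hR ((m - s) + 1 + (m - t))
    (fun j => if j ≤ m - s then x (m - j) else y (t + (j - (m - s) - 1))) hK ?_ ?_ ?_
  · simp only [Nat.zero_le, if_true, Nat.sub_zero] at key
    rw [if_neg (by omega)] at key
    rw [hxm] at key
    have e : t + ((m - s) + 1 + (m - t) - (m - s) - 1) = m := by omega
    rw [e] at key
    exact key
  · intro j hj
    by_cases h1 : j < m - s
    · -- a step down `x`
      have e1 : (if j ≤ m - s then x (m - j) else y (t + (j - (m - s) - 1))) = x (m - j) :=
        if_pos (by omega)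
      have e2 : (if j + 1 ≤ m - s then x (m - (j + 1)) else y (t + (j + 1 - (m - s) - 1))) =
          x (m - (j + 1)) := if_pos (by omega)
      simp only [e1, e2]
      have h2 := hx (m - (j + 1)) (by omega)
      have e3 : m - (j + 1) + 1 = m - j := by omega
      rw [e3] at h2
      have e4 : (x (m - j))⁻¹ * x (m - (j + 1)) = ((x (m - (j + 1)))⁻¹ * x (m - j))⁻¹ := by
        group
      rcases h2 with h2 | ⟨i', h2⟩
      · left
        rw [e4, L.inv]
        exact le_trans (L.le_one _ h2) hr
      · right
        refine ⟨i', ?_, ?_⟩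
        · rw [e4]
          exact inv_mem h2
        · rintro ⟨rfl, h3⟩
          have h4 : g⁻¹ * x (m - (j + 1)) ∈ P i' := by
            have e5 : g⁻¹ * x (m - (j + 1)) =
                (g⁻¹ * x (m - j)) * ((x (m - (j + 1)))⁻¹ * x (m - j))⁻¹ := by group
            rw [e5]
            exact mul_mem h3 (inv_mem h2)
          have h5 := hmin _ h4
          rw [hxl _ (by omega)] at h5
          omega
    · by_cases h2 : j = m - s
      · -- the step over
        have e1 : (if j ≤ m - s then x (m - j) else y (t + (j - (m - s) - 1))) = x s := by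
          rw [if_pos (by omega)]
          have : m - j = s := by omega
          rw [this]
        have e2 : (if j + 1 ≤ m - s then x (m - (j + 1)) else y (t + (j + 1 - (m - s) - 1))) =
            y t := by
          rw [if_neg (by omega)]
          have : t + (j + 1 - (m - s) - 1) = t := by omega
          rw [this]
        simp only [e1, e2]
        left
        have e4 : (x s)⁻¹ * y t = ((y t)⁻¹ * x s)⁻¹ := by group
        rw [e4, L.inv]
        exact hst
      · -- a step up `y`
        have e1 : (if j ≤ m - s then x (m - j) else y (t + (j - (m - s) - 1))) =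
            y (t + (j - (m - s) - 1)) := if_neg (by omega)
        have e2 : (if j + 1 ≤ m - s then x (m - (j + 1)) else y (t + (j + 1 - (m - s) - 1))) =
            y (t + (j - (m - s) - 1) + 1) := by
          rw [if_neg (by omega)]
          have : t + (j + 1 - (m - s) - 1) = t + (j - (m - s) - 1) + 1 := by omega
          rw [this]
        simp only [e1, e2]
        have h3 := hy (t + (j - (m - s) - 1)) (by omega)
        rcases h3 with h3 | ⟨i', h3⟩
        · left
          exact le_trans (L.le_one _ h3) hr
        · right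
          refine ⟨i', h3, ?_⟩
          rintro ⟨rfl, h4⟩
          have h5 := hmin _ h4
          rw [hyl _ (by omega)] at h5
          omega
  · have e1 : (if (0 : ℕ) ≤ m - s then x (m - 0) else y (t + (0 - (m - s) - 1))) = g := by
      rw [if_pos (by omega), Nat.sub_zero, hxm]
    simp only [e1]
    rw [inv_mul_cancel]
    exact one_mem _
  · have e1 : (if (m - s) + 1 + (m - t) ≤ m - s then x (m - ((m - s) + 1 + (m - t)))
        else y (t + ((m - s) + 1 + (m - t) - (m - s) - 1))) = y m := by
      rw [if_neg (by omega)]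
      have : t + ((m - s) + 1 + (m - t) - (m - s) - 1) = m := by omega
      rw [this]
    simp only [e1]
    exact hym

theorem exists_entry (L : PLen P A) : ∃ N : ℕ, EntryB L N := by
  obtain ⟨RA, hA⟩ := claimA L 1 2
  obtain ⟨RB, hB⟩ := claimB L
  obtain ⟨R, hR⟩ := coset_chain L (max (RA + RB) 1) (3 * (RA + RB) + 5)
  refine ⟨R, ?_⟩
  intro i g p hp hg hgp
  obtain ⟨x, hx0, hx1, hx⟩ := exists_rgeo L g
  obtain ⟨y, hy0, hy1, hy⟩ := exists_rgeo L (g * p)
  obtain ⟨n, z, hz0, hz1, hz⟩ := L.geo (g * p)
  rw [hgp] at hy1 hy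
  have hxl : ∀ j, j ≤ rl P A g → rl P A (x j) = j := by
    intro j hj
    have h := hx.2 0 j (Nat.zero_le _) hj
    rw [hx0, inv_one, one_mul, Nat.sub_zero] at h
    exact h
  have hyl : ∀ j, j ≤ rl P A g → rl P A (y j) = j := by
    intro j hj
    have h := hy.2 0 j (Nat.zero_le _) hj
    rw [hy0, inv_one, one_mul, Nat.sub_zero] at h
    exact h
  have hmin : ∀ h : G, g⁻¹ * h ∈ P i → rl P A g ≤ rl P A h := by
    intro h hh
    have h1 := hg _ hh
    rw [mul_inv_cancel_left] at h1
    exact h1
  have hym : g⁻¹ * y (rl P A g) ∈ P i := by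
    rw [hy1, inv_mul_cancel_left]
    exact hp
  have hend : ∀ s t : ℕ, s ≤ rl P A g → t ≤ rl P A g →
      L.l ((y t)⁻¹ * x s) ≤ max (RA + RB) 1 →
      (rl P A g - s) + 1 + (rl P A g - t) ≤ 3 * (RA + RB) + 5 → L.l p ≤ R := by
    intro s t hs ht hst hK
    have h := b7_chain L i g (rl P A g) (max (RA + RB) 1) (3 * (RA + RB) + 5) R
      (fun n c h1 h2 h3 h4 => hR i g n c h1 h2 h3 h4) (le_max_right _ _) hmin x y hx.1 hy.1
      hxl hyl hx1 hym s t hs ht hst hK
    rw [hy1, inv_mul_cancel_left] at h
    exact h
  by_cases hm : rl P A g < RA + RB + 3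
  · refine hend 0 0 (Nat.zero_le _) (Nat.zero_le _) ?_ (by omega)
    rw [hx0, hy0, inv_one, one_mul, L.one]
    exact Nat.zero_le _
  · push Not at hm
    obtain ⟨t, ht⟩ : ∃ t, t + (RA + RB + 2) = rl P A g := ⟨rl P A g - (RA + RB + 2), by omega⟩
    obtain ⟨j, hj, hj1⟩ := hB n z (rl P A g) y hz hy (by rw [hy0, hz0]) (by rw [hy1, hz1]) t
      (by omega)
    obtain ⟨s, hs, hs1⟩ := hA n z (rl P A g + 1)
      (fun q => if q ≤ rl P A g then x q else g * p) hz
      (by simp only [Nat.zero_le, if_true]; rw [hx0, hz0])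
      (by
        have e : (if rl P A g + 1 ≤ rl P A g then x (rl P A g + 1) else g * p) = g * p :=
          if_neg (by omega)
        simp only [e]
        rw [hz1])
      (by
        intro q hq
        have e1 : (if q ≤ rl P A g then x q else g * p) = x q := if_pos (by omega)
        simp only [e1]
        by_cases hq1 : q < rl P A g
        · have e2 : (if q + 1 ≤ rl P A g then x (q + 1) else g * p) = x (q + 1) :=
            if_pos (by omega)
          simp only [e2]
          rcases hx.1 q hq1 with h | h
          · exact Or.inl (L.le_one _ h)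
          · exact Or.inr h
        · have e2 : (if q + 1 ≤ rl P A g then x (q + 1) else g * p) = g * p :=
            if_neg (by omega)
          have e3 : q = rl P A g := by omega
          simp only [e2]
          right
          refine ⟨i, ?_⟩
          rw [e3, hx1, inv_mul_cancel_left]
          exact hp)
      (by
        intro a b hab hb
        by_cases hb1 : b ≤ rl P A g
        · have e1 : (if a ≤ rl P A g then x a else g * p) = x a := if_pos (by omega)
          have e2 : (if b ≤ rl P A g then x b else g * p) = x b := if_pos hb1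
          simp only [e1, e2]
          rw [hx.2 a b hab hb1]
          omega
        · have e2 : (if b ≤ rl P A g then x b else g * p) = g * p := if_neg hb1
          by_cases ha1 : a ≤ rl P A g
          · have e1 : (if a ≤ rl P A g then x a else g * p) = x a := if_pos ha1
            simp only [e1, e2]
            have h1 := hx.2 a (rl P A g) ha1 le_rfl
            rw [hx1] at h1
            have h2 := rl_mul L ((x a)⁻¹ * (g * p)) p⁻¹
            have e3 : (x a)⁻¹ * (g * p) * p⁻¹ = (x a)⁻¹ * g := by group
            have h3 : rl P A p⁻¹ ≤ 1 := rl_letter (Or.inr ⟨i, inv_mem hp⟩)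
            rw [e3, h1] at h2
            omega
          · omega)
      j hj
    by_cases hs2 : s ≤ rl P A g
    · rw [if_pos hs2] at hs1
      have h1 : L.l ((y t)⁻¹ * x s) ≤ RA + RB := by
        have h := L.mul ((y t)⁻¹ * z j) ((z j)⁻¹ * x s)
        have e : (y t)⁻¹ * z j * ((z j)⁻¹ * x s) = (y t)⁻¹ * x s := by group
        rw [e] at h
        omega
      have h2 : rl P A ((y t)⁻¹ * x s) ≤ RA + RB := le_trans (rl_le L _) h1
      have h3 : t ≤ s + (RA + RB) := by
        have h := rl_mul L (x s) ((y t)⁻¹ * x s)⁻¹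
        have e : x s * ((y t)⁻¹ * x s)⁻¹ = y t := by group
        rw [e, rl_inv L, hyl t (by omega), hxl s hs2] at h
        omega
      exact hend s t hs2 (by omega) (le_trans h1 (le_max_left _ _)) (by omega)
    · exfalso
      rw [if_neg hs2] at hs1
      have h1 : L.l ((y t)⁻¹ * (g * p)) ≤ RA + RB := by
        have h := L.mul ((y t)⁻¹ * z j) ((z j)⁻¹ * (g * p))
        have e : (y t)⁻¹ * z j * ((z j)⁻¹ * (g * p)) = (y t)⁻¹ * (g * p) := by group
        rw [e] at h
        omega
      have h2 : rl P A ((y t)⁻¹ * (g * p)) ≤ RA + RB := le_trans (rl_le L _) h1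
      have h := rl_mul L (y t) ((y t)⁻¹ * (g * p))
      rw [mul_inv_cancel_left, hyl t (by omega), hgp] at h
      omega

end

end Pool.Agent.REL
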