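import Pool.Agent.REL.Defs
import Pool.Agent.VH.FC
/-!
# The finiteness property for translation numbers passes to the peripheral subgroups
-/
namespace Pool.Agent.REL
open Pool.Agent.SLX

section
variable {G ι : Type} [Group G] {P : ι → Subgroup G} {A : Set G}

/-- The peripheral subgroups are malnormal (elements of infinite order). -/
theorem fcl_malnormal (L : PLen P A) (i : ι) {u v w : G} (hv : v ∈ P i) (hw : w ∈ P i)
    (h : w = u * v * u⁻¹) (hinf : ¬ IsOfFinOrder v) : u ∈ P i := by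
  by_contra hu
  have h1 : ∀ n : ℕ, L.l (v ^ n) ≤ L.l u + L.δ + L.δ := by
    intro n
    have h2 := L.β_sep i i u (fun _ => hu) (v ^ n) ((P i).pow_mem hv n) 1 (P i).one_mem
    have h3 : L.l ((v ^ n)⁻¹ * 1) = L.l (v ^ n) := by rw [mul_one, L.inv]
    have h4 : u * v ^ n = w ^ n * u := by
      rw [h, conj_pow, inv_mul_cancel_right]
    have h5 : L.β i (u * v ^ n) ≤ L.δ + L.l u := by
      rw [h4]
      have h6 := L.β_lip i (w ^ n * u) (w ^ n)
      have h7 : (w ^ n * u)⁻¹ * w ^ n = u⁻¹ := by group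
      rw [h7, L.inv] at h6
      have h8 := L.β_on i (w ^ n) ((P i).pow_mem hw n)
      omega
    have h9 : L.β i (u * 1) ≤ L.δ + L.l u := by
      rw [mul_one]
      have h6 := L.β_lip i u 1
      rw [mul_one, L.inv] at h6
      have h8 := L.β_on i 1 (P i).one_mem
      omega
    rw [h3] at h2
    have h10 : max (L.β i (u * v ^ n)) (L.β i (u * 1)) ≤ L.δ + L.l u := max_le h5 h9
    omega
  obtain ⟨m, -, m', -, hne, heq⟩ := Set.infinite_univ.exists_ne_map_eq_of_mapsTo
    (f := fun n : ℕ => v ^ n) (t := {g | L.l g ≤ L.l u + L.δ + L.δ})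
    (fun n _ => h1 n) (L.fin _)
  apply hinf
  rw [isOfFinOrder_iff_pow_eq_one]
  have key : ∀ m m' : ℕ, m < m' → v ^ m = v ^ m' → ∃ n : ℕ, 0 < n ∧ v ^ n = 1 := by
    intro m m' hlt he
    refine ⟨m' - m, by omega, ?_⟩
    have h2 : v ^ m * v ^ (m' - m) = v ^ m * 1 := by
      rw [← pow_add, mul_one, he]
      congr 1
      omega
    exact mul_left_cancel h2
  rcases lt_or_gt_of_ne hne with h2 | h2
  · exact key m m' h2 heq
  · exact key m' m h2 heq.symm

theorem fcl_periph (L : PLen P A) (h : VH.FCl G) (i : ι)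
    (ht : ∀ p ∈ P i, IsOfFinOrder p → p = 1) : VH.FCl (P i) := by
  classical
  obtain ⟨l, κ, h1, h2, h3, h4⟩ := h
  refine ⟨fun x => l (x : G), κ, h1, fun x y => h2 _ _, fun x => h3 _, fun T => ?_⟩
  obtain ⟨S, hS, hS'⟩ := h4 T
  -- choose representatives
  let W : G → Prop := fun s => ∃ (w : P i) (x : G), x⁻¹ * (w : G) * x = s
  let f : G → P i := fun s => if hs : W s then hs.choose else 1
  refine ⟨insert 1 (f '' S), (hS.image f).insert 1, ?_⟩
  rintro w ⟨c, hc⟩
  by_cases hw1 : w = 1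
  · exact ⟨1, Or.inl (by rw [hw1]; group)⟩
  obtain ⟨x, hx⟩ := hS' (w : G) ⟨c, fun n => hc n⟩
  have hW : W (x⁻¹ * (w : G) * x) := ⟨w, x, rfl⟩
  obtain ⟨y, hy⟩ := hW.choose_spec
  have hf : f (x⁻¹ * (w : G) * x) = hW.choose := dif_pos hW
  set v : P i := hW.choose with hv
  have hconj : (w : G) = (x * y⁻¹) * (v : G) * (x * y⁻¹)⁻¹ := by
    have h5 : (w : G) = x * (x⁻¹ * (w : G) * x) * x⁻¹ := by group
    rw [h5, ← hy]
    group
  have hinf : ¬ IsOfFinOrder (v : G) := by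
    intro hfin
    have h6 := ht (v : G) v.2 hfin
    apply hw1
    apply Subtype.ext
    rw [hconj, h6]
    simp
  have hu : x * y⁻¹ ∈ P i := fcl_malnormal L i v.2 w.2 hconj hinf
  refine ⟨⟨x * y⁻¹, hu⟩, Or.inr ⟨_, hx, ?_⟩⟩
  rw [hf]
  apply Subtype.ext
  show (v : G) = (x * y⁻¹)⁻¹ * (w : G) * (x * y⁻¹)
  rw [hconj]
  group

end

end Pool.Agent.REL
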