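import Pool.Agent.REL.Defs
/-!
# Paths in a finite graph whose edges carry regular languages form a regular language
-/
namespace Pool.Agent.REL

section
variable {Q S : Type} {R : Q → Q → Language S}

private theorem gp_trans {q q1 q2 : Q} {u v : List S} (h : GP R q u q1) (h' : GP R q1 v q2) :
    GP R q (u ++ v) q2 := by
  induction h with
  | nil q => simpa using h'
  | cons h1 _ ih =>
    rw [List.append_assoc]
    exact GP.cons h1 (ih h')

private theorem gp_split {q q' : Q} {w : List S} (h : GP R q w q') :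
    ∀ u y, w = u ++ y →
      (∃ (u1 s t r : List S) (q1 q2 : Q), u = u1 ++ s ∧ y = t ++ r ∧ GP R q u1 q1 ∧
        s ++ t ∈ R q1 q2 ∧ GP R q2 r q') ∨ (y = [] ∧ GP R q u q') := by
  induction h with
  | nil q =>
    intro u y hw
    have h0 := List.append_eq_nil_iff.1 hw.symm
    right
    refine ⟨h0.2, ?_⟩
    rw [h0.1]
    exact GP.nil q
  | @cons q q1 q2 a v ha hv ih =>
    intro u y hw
    rcases List.append_eq_append_iff.1 hw with ⟨c, hc1, hc2⟩ | ⟨c, hc1, hc2⟩
    · rcases ih c y hc2 with ⟨u1, s, t, r, p1, p2, e1, e2, g1, g2, g3⟩ | ⟨e1, g1⟩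
      · left
        refine ⟨a ++ u1, s, t, r, p1, p2, ?_, e2, GP.cons ha g1, g2, g3⟩
        rw [hc1, e1, List.append_assoc]
      · right
        refine ⟨e1, ?_⟩
        rw [hc1]
        exact GP.cons ha g1
    · left
      refine ⟨[], u, c, v, q, q1, rfl, hc2, GP.nil q, ?_, hv⟩
      rw [← hc1]
      exact ha

end

theorem gp_regular {Q S : Type} [Finite Q] (R : Q → Q → Language S)
    (hR : ∀ q q', (R q q').IsRegular) (q : Q) :
    Language.IsRegular {u : List S | ∃ q', GP R q u q'} := by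
  classical
  apply Language.IsRegular.of_finite_range_leftQuotient
  set T : Set (Language S × Q) :=
    ⋃ q1 : Q, ⋃ q2 : Q, (fun X => (X, q2)) '' Set.range (R q1 q2).leftQuotient with hT
  have hTf : T.Finite := by
    apply Set.finite_iUnion
    intro q1
    apply Set.finite_iUnion
    intro q2
    exact (hR q1 q2).finite_range_leftQuotient.image _
  let Φ : Set (Language S × Q) × Prop → Language S := fun a =>
    {y | (∃ x ∈ a.1, ∃ t r : List S, y = t ++ r ∧ t ∈ x.1 ∧ ∃ q', GP R x.2 r q') ∨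
      (a.2 ∧ y = [])}
  have hfin : (Φ '' (T.powerset ×ˢ (Set.univ : Set Prop))).Finite :=
    (hTf.powerset.prod Set.finite_univ).image Φ
  apply hfin.subset
  rintro _ ⟨u, rfl⟩
  refine ⟨({x | ∃ (u1 s : List S) (q1 : Q), u = u1 ++ s ∧ GP R q u1 q1 ∧
    x.1 = (R q1 x.2).leftQuotient s}, ∃ q', GP R q u q'), ⟨?_, trivial⟩, ?_⟩
  · rintro ⟨X, q2⟩ ⟨u1, s, q1, _, _, hX⟩
    simp only at hX
    rw [hT]
    simp only [Set.mem_iUnion]
    exact ⟨q1, q2, X, ⟨s, hX.symm⟩, rfl⟩
  · ext y
    constructor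
    · rintro (⟨x, ⟨u1, s, q1, e1, g1, hx⟩, t, r, e2, ht, q', g3⟩ | ⟨⟨q', g⟩, hy⟩)
      · rw [hx] at ht
        have ht' : s ++ t ∈ R q1 x.2 := ht
        have h2 : GP R q (u1 ++ ((s ++ t) ++ r)) q' := gp_trans g1 (GP.cons ht' g3)
        have h3 : u ++ y = u1 ++ ((s ++ t) ++ r) := by
          rw [e1, e2]
          simp [List.append_assoc]
        refine (Language.mem_leftQuotient _ _).2 ⟨q', ?_⟩
        rw [h3]
        exact h2
      · refine (Language.mem_leftQuotient _ _).2 ⟨q', ?_⟩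
        rw [hy, List.append_nil]
        exact g
    · intro hy
      obtain ⟨q', hg⟩ := (Language.mem_leftQuotient _ _).1 hy
      rcases gp_split hg u y rfl with ⟨u1, s, t, r, q1, q2, e1, e2, g1, g2, g3⟩ | ⟨e1, g1⟩
      · left
        exact ⟨((R q1 q2).leftQuotient s, q2), ⟨u1, s, q1, e1, g1, rfl⟩, t, r, e2, g2, q', g3⟩
      · right
        exact ⟨⟨q', g1⟩, e1⟩

end Pool.Agent.REL
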