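import Pool.Agent.REL.Defs
import Pool.Agent.HYP.Defs
/-!
# Hyperbolic groups: the case of no peripheral subgroups
-/
namespace Pool.Agent.REL

/-- A group which is hyperbolic relative to the empty family is word-hyperbolic. -/
theorem rhyp_of_plen {G ι : Type} [Group G] [IsEmpty ι] {P : ι → Subgroup G} {A : Set G}
    (L : PLen P A) : HYP.RHyp G := by
  refine ⟨{ l := L.l, one := L.one, mul := L.mul, inv := L.inv, fin := L.fin, c := 0,
            geo := ?_, δ := L.δ, hyp := L.hyp }⟩
  intro g n hn
  obtain ⟨m, z, hz0, hzm, hz1, hz2⟩ := L.geo g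
  have hstep : ∀ j, j < m → L.l ((z j)⁻¹ * z (j + 1)) = 1 := by
    intro j hj
    obtain ⟨h1, h2⟩ := hz1 j hj
    refine le_antisymm ?_ h2
    rcases h1 with h1 | ⟨i, _⟩
    · exact L.le_one _ h1
    · exact (IsEmpty.false i).elim
  have hl : ∀ j, j ≤ m → L.l ((z 0)⁻¹ * z j) = j := by
    intro j
    induction j with
    | zero => intro _; rw [inv_mul_cancel]; exact L.one
    | succ j ih =>
      intro hj
      rw [hz2 0 j (j + 1) (by omega) (by omega) hj, ih (by omega), hstep j (by omega)]
  have hgm : L.l g = m := by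
    have := hl m le_rfl
    rw [hz0, hzm, inv_one, one_mul] at this
    exact this
  refine ⟨z n, ?_, ?_⟩
  · have := hl n (by omega)
    rw [hz0, inv_one, one_mul] at this
    omega
  · have h1 := hz2 0 n m (by omega) (by omega) le_rfl
    rw [hl m le_rfl, hl n (by omega), hzm] at h1
    omega

end Pool.Agent.REL
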