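import Pool.Agent.REL.Rl
import Pool.Agent.REL.ClaimA
import Pool.Agent.REL.ClaimB
/-!
# Relative geodesics with the same start and close ends are close
-/
namespace Pool.Agent.REL
open Pool.Agent.SLX

section
variable {G ι : Type} [Group G] {P : ι → Subgroup G} {A : Set G}

/-- translate of a geodesic -/
theorem near_geo (L : PLen P A) (a b : G) :
    ∃ (n : ℕ) (z : ℕ → G), z 0 = a ∧ z n = b ∧ GeoP L.l P A n z := by
  obtain ⟨n, z, h0, hn, h1, h2⟩ := L.geo (a⁻¹ * b)
  have key : ∀ i j, (a * z i)⁻¹ * (a * z j) = (z i)⁻¹ * z j := by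
    intro i j
    group
  refine ⟨n, fun j => a * z j, ?_, ?_, ?_, ?_⟩
  · show a * z 0 = a
    rw [h0, mul_one]
  · show a * z n = b
    rw [hn]
    group
  · intro j hj
    show Letter P A ((a * z j)⁻¹ * (a * z (j + 1))) ∧ 1 ≤ L.l ((a * z j)⁻¹ * (a * z (j + 1)))
    rw [key]
    exact h1 j hj
  · intro i j k hij hjk hk
    show L.l ((a * z i)⁻¹ * (a * z k)) = L.l ((a * z i)⁻¹ * (a * z j)) +
      L.l ((a * z j)⁻¹ * (a * z k))
    rw [key, key, key]
    exact h2 i j k hij hjk hk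

theorem near_tri (L : PLen P A) (a b c : G) :
    L.l (a⁻¹ * c) ≤ L.l (a⁻¹ * b) + L.l (b⁻¹ * c) := by
  have h := L.mul (a⁻¹ * b) (b⁻¹ * c)
  have h' : a⁻¹ * b * (b⁻¹ * c) = a⁻¹ * c := by group
  rwa [h'] at h

theorem near_sym (L : PLen P A) (a b : G) : L.l (a⁻¹ * b) = L.l (b⁻¹ * a) := by
  rw [← L.inv (a⁻¹ * b)]
  congr 1
  group

theorem exists_near (L : PLen P A) (M : ℕ) : ∃ N : ℕ, NearB L M N := by
  obtain ⟨RA, hA⟩ := claimA L (max 1 M) (M + 1)
  obtain ⟨RB, hB⟩ := claimB L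
  refine ⟨RA + RB + M, ?_⟩
  intro k k' x y hx hy h0 hM i hi
  obtain ⟨n, z, hz0, hzn, hz⟩ := near_geo L (x 0) (x k)
  obtain ⟨j, hj, hxz⟩ := hB n z k x hz hx hz0.symm hzn.symm i hi
  let y' : ℕ → G := fun t => if t ≤ k' then y t else x k
  have hy1 : ∀ t, t ≤ k' → y' t = y t := fun t ht => if_pos ht
  have hy2 : y' (k' + 1) = x k := if_neg (by omega)
  have hM' : L.l ((y k')⁻¹ * x k) ≤ M := by
    rw [near_sym]
    exact hM
  obtain ⟨t, ht, hzt⟩ := hA n z (k' + 1) y' hz (by rw [hy1 0 (Nat.zero_le _), hz0, h0])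
    (by rw [hy2, hzn]) (by
      intro t ht
      rcases Nat.lt_or_ge t k' with h | h
      · rw [hy1 t h.le, hy1 (t + 1) h]
        rcases hy.1 t h with h' | h'
        · exact Or.inl ((L.le_one _ h').trans (le_max_left _ _))
        · exact Or.inr h'
      · have h' : t = k' := by omega
        subst h'
        rw [hy1 t le_rfl, hy2]
        exact Or.inl (hM'.trans (le_max_right _ _))) (by
      intro a b hab hb
      rcases Nat.lt_or_ge k' b with h | h
      · have h' : b = k' + 1 := by omega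
        subst h'
        rcases Nat.lt_or_ge k' a with h2 | h2
        · omega
        · rw [hy1 a h2, hy2]
          have h3 := hy.2 a k' h2 le_rfl
          have h4 := rl_mul L ((y a)⁻¹ * x k) ((x k)⁻¹ * y k')
          have h5 : (y a)⁻¹ * x k * ((x k)⁻¹ * y k') = (y a)⁻¹ * y k' := by group
          rw [h5, h3] at h4
          have h6 := rl_le L ((x k)⁻¹ * y k')
          omega
      · rw [hy1 a (hab.trans h), hy1 b h, hy.2 a b hab h]
        omega) j hj
  rcases Nat.lt_or_ge k' t with h | h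
  · have h' : t = k' + 1 := by omega
    subst h'
    rw [hy2] at hzt
    refine ⟨k', le_rfl, ?_⟩
    have h1 := near_tri L (x i) (z j) (y k')
    have h2 := near_tri L (z j) (x k) (y k')
    omega
  · rw [hy1 t h] at hzt
    refine ⟨t, h, ?_⟩
    have h1 := near_tri L (x i) (z j) (y t)
    omega

theorem near_mono {L : PLen P A} {M M' N N' : ℕ} (h : NearB L M N) (hM : M' ≤ M) (hN : N ≤ N') :
    NearB L M' N' := by
  intro k k' x y hx hy h0 hm i hi
  obtain ⟨j, hj, hl⟩ := h k k' x y hx hy h0 (hm.trans hM) i hi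
  exact ⟨j, hj, hl.trans hN⟩

theorem near_split {L : PLen P A} {M N : ℕ} (hN : NearB L M N) (g h y : G)
    (hgh : rl P A (g * h) = rl P A g + rl P A h) (hy : L.l y ≤ M) :
    ∃ z, L.l z ≤ N ∧ rl P A (g * h * y) = rl P A (g * z) + rl P A (z⁻¹ * h * y) := by
  obtain ⟨x, hx0, hx1, hx2, hx⟩ := exists_rgeo_through L g h hgh
  obtain ⟨w, hw0, hw1, hw⟩ := exists_rgeo L (g * h * y)
  obtain ⟨j, hj, hl⟩ := hN _ _ x w hx hw (hx0.trans hw0.symm) (by
    rw [hx2, hw1]
    have : (g * h)⁻¹ * (g * h * y) = y := by group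
    rw [this]
    exact hy) (rl P A g) (Nat.le_add_right _ _)
  rw [hx1] at hl
  refine ⟨g⁻¹ * w j, hl, ?_⟩
  have h1 := hw.2 0 j (Nat.zero_le _) hj
  have h2 := hw.2 j _ hj le_rfl
  rw [hw0, inv_one, one_mul] at h1
  rw [hw1] at h2
  have h3 : g * (g⁻¹ * w j) = w j := by group
  have h4 : (g⁻¹ * w j)⁻¹ * h * y = (w j)⁻¹ * (g * h * y) := by group
  rw [h3, h4, h1, h2]
  omega

end

end Pool.Agent.REL
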