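import Pool.Agent.REL.Rl
import Pool.Agent.REL.Can
/-!
# REL, row C2a: every element has exactly one last letter of its normal form
-/
namespace Pool.Agent.REL

section
variable {G ι : Type} [Group G] {P : ι → Subgroup G} {A : Set G}

private theorem c2a_rl_eq_one (L : PLen P A) {i : ι} {s : G} (hs : s ∈ P i) (h : s ≠ 1) :
    rl P A s = 1 := by
  have h1 : rl P A s ≤ 1 := rl_letter (Or.inr ⟨i, hs⟩)
  have h2 : rl P A s ≠ 0 := fun h2 => h (rl_zero L h2)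
  omega

private theorem c2a_short (D : Nd P A) {h : G} (hne : h ≠ 1) (hf : ¬ Far D h) :
    ∃ s, rl P A s = 1 ∧ D.L.l s ≤ D.B ∧ rl P A (h * s⁻¹) + 1 = rl P A h := by
  have h0 : rl P A h ≠ 0 := fun h0 => hne (rl_zero D.L h0)
  obtain ⟨m, hm⟩ : ∃ m, rl P A h = m + 1 := ⟨rl P A h - 1, by omega⟩
  obtain ⟨s, hs, hsm⟩ := rl_pred D.L hm
  by_cases hl : D.L.l s ≤ D.B
  · exact ⟨s, hs, hl, by rw [hsm, hm]⟩
  · push Not at hl
    obtain ⟨i, hi⟩ := long_letter D.L hs (lt_of_le_of_lt D.h1 hl)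
    have hmin : Minc P A i (h * s⁻¹) := by
      refine minc_of_step D.L hi ?_
      rw [inv_mul_cancel_right, hsm, hm]
    obtain ⟨p, ⟨hp, hpc⟩, -⟩ := can_unique D i (h * s⁻¹)
    have hpm := can_minc D hpc
    have e1 : h * (p⁻¹ * s)⁻¹ = h * s⁻¹ * p := by group
    have hs' : p⁻¹ * s ∈ P i := mul_mem (inv_mem hp) hi
    have hrl : rl P A (h * (p⁻¹ * s)⁻¹) = m := by
      rw [e1]
      have h1 := hmin p hp
      have h2 := hpm p⁻¹ (inv_mem hp)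
      rw [mul_inv_cancel_right] at h2
      omega
    refine ⟨p⁻¹ * s, ?_, ?_, by rw [hrl, hm]⟩
    · refine c2a_rl_eq_one D.L hs' ?_
      intro h1
      rw [h1, inv_one, mul_one] at hrl
      omega
    · by_contra h1
      push Not at h1
      exact hf ⟨i, p⁻¹ * s, hs', h1, by rw [e1]; exact hpc⟩

private theorem c2a_long (D : Nd P A) {h s t : G} {i j : ι} (hs1 : rl P A s = 1)
    (ht1 : rl P A t = 1) (hs : rl P A h = rl P A (h * s⁻¹) + 1)
    (ht : rl P A h = rl P A (h * t⁻¹) + 1) (hi : s ∈ P i) (hj : t ∈ P j)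
    (hsl : D.B < D.L.l s) (htl : D.B < D.L.l t) (hsc : Can P A D.ch i (h * s⁻¹))
    (htc : Can P A D.ch j (h * t⁻¹)) : s = t := by
  obtain ⟨x, hx0, hx1, hx2, hx⟩ := exists_rgeo_through D.L (h * s⁻¹) s (by
    rw [inv_mul_cancel_right, hs1]
    exact hs)
  obtain ⟨y, hy0, hy1, hy2, hy⟩ := exists_rgeo_through D.L (h * t⁻¹) t (by
    rw [inv_mul_cancel_right, ht1]
    exact ht)
  rw [inv_mul_cancel_right] at hx2 hy2
  have hm : rl P A (h * s⁻¹) = rl P A (h * t⁻¹) := by omega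
  have e0 : D.L.l ((x (rl P A (h * s⁻¹) + rl P A s))⁻¹ * y (rl P A (h * t⁻¹) + rl P A t)) ≤ 0 := by
    rw [hx2, hy2, inv_mul_cancel, D.L.one]
  have e1 : (x (rl P A (h * s⁻¹)))⁻¹ * x (rl P A (h * s⁻¹) + 1) = s := by
    rw [hx1]
    rw [hs1] at hx2
    rw [hx2]
    group
  have key := D.h0 _ _ x y hx hy hx0 hy0 e0 i (rl P A (h * s⁻¹)) (by rw [hs1]; omega)
    (by rw [e1]; exact hi) (by rw [e1]; exact hsl)
  obtain ⟨-, k1, k2, -⟩ := key
  rw [hm, hy1] at k1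
  rw [ht1] at hy2
  rw [hy2] at k1
  have e2 : (h * t⁻¹)⁻¹ * h = t := by group
  rw [e2] at k1
  have hij : i = j := long_unique D.L k1 hj (lt_of_le_of_lt D.hδ htl)
  subst hij
  rw [hx1, hm, hy1] at k2
  have e3 : (h * s⁻¹)⁻¹ * (h * t⁻¹) = s * t⁻¹ := by group
  rw [e3] at k2
  have hu := can_unique D i (h * s⁻¹)
  have h1 := hu.unique (y₁ := 1) (y₂ := s * t⁻¹) ⟨one_mem _, by rw [mul_one]; exact hsc⟩
    ⟨k2, by
      have e4 : h * s⁻¹ * (s * t⁻¹) = h * t⁻¹ := by group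
      rw [e4]
      exact htc⟩
  exact (mul_inv_eq_one.1 h1.symm)

theorem step_pred (D : Nd P A) {h : G} (hne : h ≠ 1) : ∃! s, Step D (h * s⁻¹) s := by
  have hex : ∃ s, Step D (h * s⁻¹) s := by
    by_cases hf : Far D h
    · obtain ⟨i, p, hp, hl, hc⟩ := hf
      refine ⟨p, ?_, ?_, Or.inl ⟨i, hp, hl, hc⟩⟩
      · refine c2a_rl_eq_one D.L hp ?_
        intro h1
        rw [h1, D.L.one] at hl
        omega
      · exact minc_step D.L D.hE hp (can_minc D hc) (lt_of_le_of_lt D.hEB hl)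
    · obtain ⟨s0, hs0⟩ := c2a_short D hne hf
      let S : Set G := {s | rl P A s = 1 ∧ D.L.l s ≤ D.B ∧ rl P A (h * s⁻¹) + 1 = rl P A h}
      obtain ⟨s, hs, hmin⟩ := (InvImage.wf D.ord Nat.lt_wfRel.wf).has_min S ⟨s0, hs0⟩
      obtain ⟨hs1, hs2, hs3⟩ := hs
      refine ⟨s, hs1, by rw [inv_mul_cancel_right]; omega, Or.inr ⟨hs2, ?_, ?_⟩⟩
      · rw [inv_mul_cancel_right]
        exact hf
      · intro t ht1 ht2 ht3
        rw [inv_mul_cancel_right] at ht3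
        exact not_lt.1 (hmin t ⟨ht1, ht2, ht3⟩)
  obtain ⟨s, hs⟩ := hex
  refine ⟨s, hs, ?_⟩
  intro t ht
  obtain ⟨hs1, hs2, hs3⟩ := hs
  obtain ⟨ht1, ht2, ht3⟩ := ht
  rw [inv_mul_cancel_right] at hs2 ht2 hs3 ht3
  rcases hs3 with ⟨i, hi, hsl, hsc⟩ | ⟨hsl, hsf, hso⟩
  · rcases ht3 with ⟨j, hj, htl, htc⟩ | ⟨htl, htf, hto⟩
    · exact (c2a_long D hs1 ht1 hs2 ht2 hi hj hsl htl hsc htc).symm
    · exact absurd ⟨i, s, hi, hsl, hsc⟩ htf
  · rcases ht3 with ⟨j, hj, htl, htc⟩ | ⟨htl, htf, hto⟩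
    · exact absurd ⟨j, t, hj, htl, htc⟩ hsf
    · have h1 := hso t ht1 htl (by omega)
      have h2 := hto s hs1 hsl (by omega)
      exact D.ord_inj t s htl hsl (le_antisymm h2 h1)

end

end Pool.Agent.REL
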