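import Pool.Agent.REL.Rl
import Pool.Agent.REL.NfStep
/-!
# Normal forms of relatively hyperbolic groups
-/
namespace Pool.Agent.REL
open Pool.Agent.SLX

section
variable {G ι : Type} [Group G] {P : ι → Subgroup G} {A : Set G}

theorem vd_append (D : Nd P A) (g : G) (w w' : List G) :
    Vd D g (w ++ w') ↔ Vd D g w ∧ Vd D (g * w.prod) w' := by
  induction w generalizing g with
  | nil => simp [Vd]
  | cons s w ih =>
    show Step D g s ∧ Vd D (g * s) (w ++ w') ↔ (Step D g s ∧ Vd D (g * s) w) ∧ _
    rw [ih, List.prod_cons, mul_assoc, and_assoc]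

theorem vd_rl (D : Nd P A) {g : G} {w : List G} (h : Vd D g w) :
    rl P A (g * w.prod) = rl P A g + w.length ∧ rl P A w.prod = w.length := by
  have h1 : ∀ (w : List G) (g : G), Vd D g w → rl P A (g * w.prod) = rl P A g + w.length ∧
      rl P A w.prod ≤ w.length := by
    intro w
    induction w with
    | nil =>
      intro g _
      rw [List.prod_nil, mul_one, List.length_nil, rl_one]
      exact ⟨rfl, le_rfl⟩
    | cons s w ih =>
      rintro g ⟨hs, hw⟩
      obtain ⟨e1, e2⟩ := ih (g * s) hw
      rw [List.prod_cons, List.length_cons]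
      constructor
      · rw [← mul_assoc, e1, hs.2.1]
        omega
      · have e3 := rl_mul D.L s w.prod
        rw [hs.1] at e3
        omega
  obtain ⟨e1, e2⟩ := h1 w g h
  refine ⟨e1, ?_⟩
  have e3 := rl_mul D.L g w.prod
  omega

theorem nf_exists (D : Nd P A) (g : G) : ∃ w, Vd D 1 w ∧ w.prod = g := by
  induction hn : rl P A g generalizing g with
  | zero =>
    refine ⟨[], trivial, ?_⟩
    rw [rl_zero D.L hn]
    rfl
  | succ n ih =>
    have hne : g ≠ 1 := by
      rintro rfl
      rw [rl_one] at hn
      omega
    obtain ⟨s, hs, -⟩ := step_pred D hne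
    have h1 : rl P A (g * s⁻¹) = n := by
      have h2 := hs.2.1
      rw [inv_mul_cancel_right] at h2
      omega
    obtain ⟨w, hw, hwp⟩ := ih (g * s⁻¹) h1
    refine ⟨w ++ [s], ?_, ?_⟩
    · rw [vd_append, one_mul, hwp]
      exact ⟨hw, hs, trivial⟩
    · rw [List.prod_append, hwp, List.prod_singleton, inv_mul_cancel_right]

theorem nf_unique (D : Nd P A) {w w' : List G} (h : Vd D 1 w) (h' : Vd D 1 w')
    (he : w.prod = w'.prod) : w = w' := by
  induction hn : w.length generalizing w w' with
  | zero =>
    have h1 := (vd_rl D h).2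
    have h2 := (vd_rl D h').2
    rw [← he, h1, hn] at h2
    rw [List.eq_nil_of_length_eq_zero hn, List.eq_nil_of_length_eq_zero h2.symm]
  | succ n ih =>
    have h1 := (vd_rl D h).2
    have h2 := (vd_rl D h').2
    rw [← he, h1, hn] at h2
    obtain ⟨v, s, rfl⟩ := List.eq_nil_or_concat' w |>.resolve_left (by
      rintro rfl
      simp at hn)
    obtain ⟨v', s', rfl⟩ := List.eq_nil_or_concat' w' |>.resolve_left (by
      rintro rfl
      simp at h2)
    rw [vd_append, one_mul] at h h'
    rw [List.prod_append, List.prod_append, List.prod_singleton, List.prod_singleton] at he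
    have hne : v.prod * s ≠ 1 := by
      intro h3
      rw [List.prod_append, List.prod_singleton, h3, rl_one, List.length_append,
        List.length_singleton] at h1
      omega
    obtain ⟨t, -, ht⟩ := step_pred D hne
    have e1 : s = t := ht s (by
      show Step D (v.prod * s * s⁻¹) s
      rw [mul_inv_cancel_right]
      exact h.2.1)
    have e2 : s' = t := ht s' (by
      show Step D (v.prod * s * s'⁻¹) s'
      rw [he, mul_inv_cancel_right]
      exact h'.2.1)
    have e3 : s = s' := e1.trans e2.symm
    subst e3
    have e4 := mul_right_cancel he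
    rw [List.length_append, List.length_singleton] at hn
    rw [ih h.1 h'.1 e4 (by omega)]

end

end Pool.Agent.REL
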