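import Pool.Agent.REL.Defs
import Pool.Agent.REL.Rl
import Pool.Agent.REL.Cos
import Pool.Agent.REL.Near
import Pool.Agent.REL.Entry
/-!
# Row B8: relative geodesics penetrate the same cosets
-/
namespace Pool.Agent.REL
open Pool.Agent.SLX

section
variable {G ι : Type} [Group G] {P : ι → Subgroup G} {A : Set G}

/-- a letter of `P i` which raises the relative length starts at a minimal point -/
private theorem B8_minc (L : PLen P A) {i : ι} {g q : G} (hq : q ∈ P i)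
    (h : rl P A (g * q) = rl P A g + 1) : Minc P A i g := by
  intro p hp
  have h1 : g * q = (g * p) * (p⁻¹ * q) := by group
  have h2 : rl P A (p⁻¹ * q) ≤ 1 :=
    rl_letter (Or.inr ⟨i, (P i).mul_mem ((P i).inv_mem hp) hq⟩)
  have h3 := rl_mul L (g * p) (p⁻¹ * q)
  rw [← h1, h] at h3
  omega

/-- a letter is short or peripheral -/
private theorem B8_letter (L : PLen P A) {s : G} (hs : Letter P A s) (r : ℕ) (hr : 1 ≤ r) :
    L.l s ≤ r ∨ ∃ i, s ∈ P i := by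
  rcases hs with h | h
  · exact Or.inl ((L.le_one s h).trans hr)
  · exact Or.inr h

private theorem B8_dist_symm (L : PLen P A) (x y : G) : L.l (x⁻¹ * y) = L.l (y⁻¹ * x) := by
  rw [← L.inv, mul_inv_rev, inv_inv]

/-- chains along a path of letters, upwards -/
private theorem B8_up (L : PLen P A) (r K R : ℕ) (hr : 1 ≤ r)
    (hR : ∀ (i : ι) (g : G) (m : ℕ) (s : ℕ → G), m ≤ K →
      (∀ j, j < m → L.l ((s j)⁻¹ * s (j + 1)) ≤ r ∨
        ∃ i', (s j)⁻¹ * s (j + 1) ∈ P i' ∧ ¬ (i' = i ∧ g⁻¹ * s j ∈ P i)) →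
      g⁻¹ * s 0 ∈ P i → g⁻¹ * s m ∈ P i → L.l ((s 0)⁻¹ * s m) ≤ R)
    (i : ι) (g : G) (k : ℕ) (y : ℕ → G) (hy : RPath P A k y) (a b : ℕ) (hab : a ≤ b)
    (hb : b ≤ k) (hK : b - a + 2 ≤ K) (u v : G) (hu : L.l (u⁻¹ * y a) ≤ r)
    (hv : L.l ((y b)⁻¹ * v) ≤ r) (huC : g⁻¹ * u ∈ P i) (hvC : g⁻¹ * v ∈ P i)
    (hno : ∀ t, a ≤ t → t < b → ¬ ((y t)⁻¹ * y (t + 1) ∈ P i ∧ g⁻¹ * y t ∈ P i)) :
    L.l (u⁻¹ * v) ≤ R := by
  set s : ℕ → G := fun j => if j = 0 then u else if j ≤ b - a + 1 then y (a + (j - 1)) else v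
    with hs
  have hs0 : s 0 = u := by simp [hs]
  have hs1 : ∀ j, j ≤ b - a → s (j + 1) = y (a + j) := by
    intro j hj
    simp only [hs]
    rw [if_neg (by omega), if_pos (by omega)]
    congr 1
  have hs2 : s (b - a + 2) = v := by
    simp only [hs]
    rw [if_neg (by omega), if_neg (by omega)]
  have := hR i g (b - a + 2) s hK (by
    intro j hj
    rcases Nat.eq_zero_or_pos j with h0 | h0
    · subst h0
      left
      rw [hs0, hs1 0 (by omega), Nat.add_zero]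
      exact hu
    · obtain ⟨j', rfl⟩ : ∃ j', j = j' + 1 := ⟨j - 1, by omega⟩
      rcases Nat.lt_or_ge j' (b - a) with h1 | h1
      · rw [hs1 j' (by omega), hs1 (j' + 1) (by omega)]
        have hl := hy (a + j') (by omega)
        rcases B8_letter L hl r hr with h2 | ⟨i', h2⟩
        · exact Or.inl h2
        · right
          refine ⟨i', h2, ?_⟩
          rintro ⟨rfl, h3⟩
          exact hno (a + j') (by omega) (by omega) ⟨h2, h3⟩
      · have h2 : j' = b - a := by omega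
        subst h2
        left
        rw [hs1 (b - a) le_rfl, hs2]
        have h3 : a + (b - a) = b := by omega
        rw [h3]
        exact hv) (by rw [hs0]; exact huC) (by rw [hs2]; exact hvC)
  rwa [hs0, hs2] at this

/-- chains along a path of letters, in both directions -/
private theorem B8_chain (L : PLen P A) (r K R : ℕ) (hr : 1 ≤ r)
    (hR : ∀ (i : ι) (g : G) (m : ℕ) (s : ℕ → G), m ≤ K →
      (∀ j, j < m → L.l ((s j)⁻¹ * s (j + 1)) ≤ r ∨
        ∃ i', (s j)⁻¹ * s (j + 1) ∈ P i' ∧ ¬ (i' = i ∧ g⁻¹ * s j ∈ P i)) →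
      g⁻¹ * s 0 ∈ P i → g⁻¹ * s m ∈ P i → L.l ((s 0)⁻¹ * s m) ≤ R)
    (i : ι) (g : G) (k : ℕ) (y : ℕ → G) (hy : RPath P A k y) (a b : ℕ)
    (ha : a ≤ k) (hb : b ≤ k) (hK : b - a + 2 ≤ K) (hK' : a - b + 2 ≤ K) (u v : G)
    (hu : L.l (u⁻¹ * y a) ≤ r)
    (hv : L.l (v⁻¹ * y b) ≤ r) (huC : g⁻¹ * u ∈ P i) (hvC : g⁻¹ * v ∈ P i)
    (hno : ∀ t, (a ≤ t ∨ b ≤ t) → (t < a ∨ t < b) →
      ¬ ((y t)⁻¹ * y (t + 1) ∈ P i ∧ g⁻¹ * y t ∈ P i)) :
    L.l (u⁻¹ * v) ≤ R := by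
  rcases le_total a b with hab | hab
  · exact B8_up L r K R hr hR i g k y hy a b hab hb hK u v hu (by rwa [B8_dist_symm]) huC hvC
      (fun t h1 h2 => hno t (Or.inl h1) (Or.inr h2))
  · rw [B8_dist_symm]
    exact B8_up L r K R hr hR i g k y hy b a hab ha hK' v u hv (by rwa [B8_dist_symm]) hvC huC
      (fun t h1 h2 => hno t (Or.inr h1) (Or.inl h2))

private theorem B8_rl {k : ℕ} {x : ℕ → G} (hx : RGeo P A k x) (hx0 : x 0 = 1)
    {t : ℕ} (ht : t ≤ k) : rl P A (x t) = t := by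
  have h := hx.2 0 t (Nat.zero_le _) ht
  rw [hx0, inv_one, one_mul, Nat.sub_zero] at h
  exact h

private theorem B8_rl_le (L : PLen P A) (x y : G) {N : ℕ} (h : L.l (x⁻¹ * y) ≤ N) :
    rl P A y ≤ rl P A x + N := by
  have h1 := rl_mul L x (x⁻¹ * y)
  rw [mul_inv_cancel_left] at h1
  exact h1.trans (Nat.add_le_add_left ((rl_le L _).trans h) _)

theorem exists_pen (L : PLen P A) (M : ℕ) : ∃ N : ℕ, PenB L M N := by
  obtain ⟨N0, hN0⟩ := exists_near L M
  obtain ⟨NE, hNE⟩ := exists_entry L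
  obtain ⟨R, hR⟩ := coset_chain L (max N0 1) (2 * N0 + 3)
  have hr1 : 1 ≤ max N0 1 := le_max_right _ _
  have hrN : N0 ≤ max N0 1 := le_max_left _ _
  refine ⟨NE + R, ?_⟩
  intro k k' x y hx hy hx0 hy0 hM i t ht hxi hl
  -- the points of `y` near `x t`, `x (t + 1)`
  obtain ⟨a, ha, hda⟩ := hN0 k k' x y hx hy (by rw [hx0, hy0]) hM t ht.le
  obtain ⟨b, hb, hdb⟩ := hN0 k k' x y hx hy (by rw [hx0, hy0]) hM (t + 1) ht
  have hxt := B8_rl hx hx0 ht.le
  have hxt1 := B8_rl hx hx0 (Nat.succ_le_of_lt ht)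
  have hya := B8_rl hy hy0 ha
  have hyb := B8_rl hy hy0 hb
  have ha1 := B8_rl_le L _ _ hda
  have ha2 := B8_rl_le L (y a) (x t) (N := N0) (by rwa [B8_dist_symm])
  have hb1 := B8_rl_le L _ _ hdb
  have hb2 := B8_rl_le L (y b) (x (t + 1)) (N := N0) (by rwa [B8_dist_symm])
  have hxt1' : rl P A (x (t + 1)) = t + 1 := hxt1
  rw [hxt, hya] at ha1 ha2
  rw [hxt1', hyb] at hb1 hb2
  -- minimality
  have hmin : Minc P A i (x t) := by
    apply B8_minc L hxi
    rw [mul_inv_cancel_left, hxt1', hxt]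
  have hmem1 : (x t)⁻¹ * x t ∈ P i := by
    rw [inv_mul_cancel]; exact (P i).one_mem
  -- every step of `y` in the coset is the step number `t`
  have hpair : ∀ t', t' < k' → (y t')⁻¹ * y (t' + 1) ∈ P i → (x t)⁻¹ * y t' ∈ P i →
      t' = t ∧ L.l ((x t)⁻¹ * y t') ≤ NE := by
    intro t' ht' h1 h2
    have e1 := B8_rl hy hy0 ht'.le
    have e2 : rl P A (y (t' + 1)) = t' + 1 := B8_rl hy hy0 (Nat.succ_le_of_lt ht')
    have hmin' : Minc P A i (y t') := by
      apply B8_minc L h1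
      rw [mul_inv_cancel_left, e2, e1]
    have h3 := hmin _ h2
    rw [mul_inv_cancel_left, hxt, e1] at h3
    have h4 := hmin' ((y t')⁻¹ * x t) (by
      have := (P i).inv_mem h2
      rwa [mul_inv_rev, inv_inv] at this)
    rw [mul_inv_cancel_left, hxt, e1] at h4
    have h5 : t' = t := le_antisymm h4 h3
    refine ⟨h5, ?_⟩
    apply hNE i (x t) _ h2 hmin
    rw [mul_inv_cancel_left, hxt, e1, h5]
  -- some step of `y` between `a` and `b` is in the coset
  have hex : ∃ t', t' < k' ∧ (y t')⁻¹ * y (t' + 1) ∈ P i ∧ (x t)⁻¹ * y t' ∈ P i := by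
    by_contra hcon
    push Not at hcon
    have h1 := B8_chain L _ _ R hr1 hR i (x t) k' y hy.1 a b ha hb (by omega) (by omega) (x t)
      (x (t + 1)) (hda.trans hrN) (hdb.trans hrN) hmem1 hxi (by
        intro t' _ h2 h3
        exact hcon t' (by omega) h3.1 h3.2)
    omega
  obtain ⟨t', ht'k, ht'1, ht'2⟩ := hex
  obtain ⟨rfl, hdt⟩ := hpair t' ht'k ht'1 ht'2
  have hmemy : (x t')⁻¹ * y (t' + 1) ∈ P i := by
    have := (P i).mul_mem ht'2 ht'1
    have e : (x t')⁻¹ * y t' * ((y t')⁻¹ * y (t' + 1)) = (x t')⁻¹ * y (t' + 1) := by group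
    rwa [e] at this
  refine ⟨ht'k, ht'1, ht'2, by omega, ?_⟩
  rcases Nat.lt_or_ge t' b with hbt | hbt
  · have h1 := B8_chain L _ _ R hr1 hR i (x t') k' y hy.1 b (t' + 1) hb (by omega) (by omega)
      (by omega) (x (t' + 1)) (y (t' + 1)) (hdb.trans hrN) (by
        rw [inv_mul_cancel, L.one]; exact Nat.zero_le _) hxi hmemy (by
        intro s _ h2 h3
        have := (hpair s (by omega) h3.1 h3.2).1
        omega)
    omega
  · exfalso
    have h1 := B8_chain L _ _ R hr1 hR i (x t') k' y hy.1 b t' hb (by omega) (by omega)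
      (by omega) (x (t' + 1)) (y t') (hdb.trans hrN) (by
        rw [inv_mul_cancel, L.one]; exact Nat.zero_le _) hxi ht'2 (by
        intro s _ h2 h3
        have := (hpair s (by omega) h3.1 h3.2).1
        omega)
    have h2 := L.mul ((x t')⁻¹ * y t') ((y t')⁻¹ * x (t' + 1))
    have e : (x t')⁻¹ * y t' * ((y t')⁻¹ * x (t' + 1)) = (x t')⁻¹ * x (t' + 1) := by group
    rw [e, B8_dist_symm L (y t') (x (t' + 1))] at h2
    omega

theorem pen_mono {L : PLen P A} {M M' N N' : ℕ} (h : PenB L M N) (hM : M' ≤ M) (hN : N ≤ N') :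
    PenB L M' N' := by
  intro k k' x y hx hy hx0 hy0 hd i t ht hxi hl
  obtain ⟨h1, h2, h3, h4, h5⟩ := h k k' x y hx hy hx0 hy0 (hd.trans hM) i t ht hxi
    (lt_of_le_of_lt hN hl)
  exact ⟨h1, h2, h3, h4.trans hN, h5.trans hN⟩

theorem pen_split {L : PLen P A} {M N NE : ℕ} (hN : PenB L M N) (hE : EntryB L NE) (h : NE ≤ N)
    (i : ι) (g p y : G) (hg : Minc P A i g) (hp : p ∈ P i) (hl : N < L.l p) (hy : L.l y ≤ M) :
    ∃ c ∈ P i, L.l c ≤ N ∧ rl P A (g * p * y) = rl P A g + 1 + rl P A (c⁻¹ * y) := by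
  have hp1 : rl P A p ≤ 1 := rl_letter (Or.inr ⟨i, hp⟩)
  have hgp1 := rl_mul L g p
  have hgp2 := hg p hp
  have hgp3 : rl P A (g * p) ≠ rl P A g := by
    intro heq
    have := hE i g p hp hg heq
    omega
  have hgp : rl P A (g * p) = rl P A g + 1 := by omega
  have hp2 : rl P A p = 1 := by omega
  obtain ⟨x, hx0, hxg, hxgp, hx⟩ := exists_rgeo_through L g p (by rw [hgp, hp2])
  obtain ⟨z, hz0, hzk, hz⟩ := exists_rgeo L (g * p * y)
  rw [hp2] at hxgp hx
  obtain ⟨h1, h2, h3, -, h5⟩ := hN _ _ x z hx hz hx0 hz0 (by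
    rw [hxgp, hzk]
    have e : (g * p)⁻¹ * (g * p * y) = y := by group
    rwa [e]) i (rl P A g) (Nat.lt_succ_self _) (by
    rw [hxg, hxgp, inv_mul_cancel_left]; exact hp) (by
    rw [hxg, hxgp, inv_mul_cancel_left]; exact hl)
  rw [hxg] at h3
  rw [hxgp] at h5
  refine ⟨(g * p)⁻¹ * z (rl P A g + 1), ?_, h5, ?_⟩
  · have h6 := (P i).mul_mem ((P i).inv_mem hp) ((P i).mul_mem h3 h2)
    have e : p⁻¹ * (g⁻¹ * z (rl P A g) * ((z (rl P A g))⁻¹ * z (rl P A g + 1))) =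
        (g * p)⁻¹ * z (rl P A g + 1) := by group
    rwa [e] at h6
  · have h6 := hz.2 (rl P A g + 1) _ h1 le_rfl
    rw [hzk] at h6
    have e : ((g * p)⁻¹ * z (rl P A g + 1))⁻¹ * y =
        (z (rl P A g + 1))⁻¹ * (g * p * y) := by group
    rw [e, h6]
    have h7 : rl P A g + 1 ≤ rl P A (g * p * y) := h1
    omega

end

end Pool.Agent.REL
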