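import Pool.Agent.REL.Rl
import Pool.Agent.REL.Near
import Pool.Agent.REL.Can
/-!
# The local data at `g` determine the local data at `g * h`
-/
namespace Pool.Agent.REL
open Pool.Agent.SLX

section
variable {G ι : Type} [Group G] {P : ι → Subgroup G} {A : Set G}

/-- one half of the comparison at `g h y` -/
theorem types_half {L : PLen P A} {T2 N : ℕ} (hN : NearB L T2 N) {g g' : G}
    (hg : Loc L N g g') {h y : G} (hgh : rl P A (g * h) = rl P A g + rl P A h)
    (hy : L.l y ≤ T2) :
    rl P A (g' * h * y) + rl P A g ≤ rl P A (g * h * y) + rl P A g' := by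
  obtain ⟨z, hz, he⟩ := near_split hN g h y hgh hy
  have h1 := hg z hz
  have h2 : rl P A (g' * h * y) ≤ rl P A (g' * z) + rl P A (z⁻¹ * h * y) := by
    have h3 := rl_mul L (g' * z) (z⁻¹ * h * y)
    have h4 : g' * z * (z⁻¹ * h * y) = g' * h * y := by group
    rw [h4] at h3
    exact h3
  omega

theorem types_loc_symm {L : PLen P A} {N : ℕ} {g g' : G} (hg : Loc L N g g') :
    Loc L N g' g := by
  intro y hy
  exact (hg y hy).symm

/-- the local comparison at `g h` -/
theorem types_loc {L : PLen P A} {T2 N : ℕ} (hN : NearB L T2 N) {g g' : G}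
    (hg : Loc L N g g') {h : G} (hgh : rl P A (g * h) = rl P A g + rl P A h)
    (hgh' : rl P A (g' * h) = rl P A g' + rl P A h) : Loc L T2 (g * h) (g' * h) := by
  intro y hy
  have h1 := types_half hN hg hgh hy
  have h2 := types_half hN (types_loc_symm hg) hgh' hy
  omega

theorem types (L : PLen P A) {NE T T2 N : ℕ} (hE : EntryB L NE) (hT : Tst L NE T) (hTT : T ≤ T2)
    (h1 : 1 ≤ T2) (h2 : T2 ≤ N) (hN : NearB L T2 N) (g g' : G) (hg : Loc L N g g') :
    ∀ h : G, rl P A (g * h) = rl P A g + rl P A h →
      rl P A (g' * h) = rl P A g' + rl P A h ∧ Loc L T2 (g * h) (g' * h) := by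
  have key : ∀ (m : ℕ) (h : G), rl P A h = m → rl P A (g * h) = rl P A g + rl P A h →
      rl P A (g' * h) = rl P A g' + rl P A h := by
    intro m
    induction m with
    | zero =>
      intro h hm _
      have hh : h = 1 := rl_zero L hm
      subst hh
      rw [mul_one, hm, add_zero]
    | succ m ih =>
      intro h hm hgh
      obtain ⟨s, hs, hs'⟩ := rl_pred L hm
      have e : h = h * s⁻¹ * s := by group
      have a1 : g * h = g * (h * s⁻¹) * s := by group
      have a2 : g' * h = g' * (h * s⁻¹) * s := by group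
      have b1 : rl P A (g * (h * s⁻¹)) = rl P A g + rl P A (h * s⁻¹) := by
        have c1 := rl_mul L g (h * s⁻¹)
        have c2 := rl_mul L (g * (h * s⁻¹)) s
        rw [← a1] at c2
        omega
      have b2 := ih (h * s⁻¹) hs' b1
      have b3 : Loc L T2 (g * (h * s⁻¹)) (g' * (h * s⁻¹)) := types_loc hN hg b1 b2
      by_cases hls : L.l s ≤ T2
      · have c1 := b3 s hls
        rw [← a1, ← a2] at c1
        omega
      · have hls' : T2 < L.l s := not_le.mp hls
        obtain ⟨i, hi⟩ := long_letter L hs (by omega)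
        have hst : rl P A (g * (h * s⁻¹) * s) = rl P A (g * (h * s⁻¹)) + 1 := by
          rw [← a1]
          omega
        have hmin : Minc P A i (g * (h * s⁻¹)) := minc_of_step L hi hst
        rcases hT i with hbot | ⟨τ, hτ, hτ1, hτ2⟩
        · rw [hbot, Subgroup.mem_bot] at hi
          rw [hi, rl_one] at hs
          omega
        · have d1 := minc_step L hE hτ hmin hτ1
          have d2 := b3 τ (le_trans hτ2 hTT)
          have d3 : rl P A (g' * (h * s⁻¹) * τ) = rl P A (g' * (h * s⁻¹)) + 1 := by omega
          have d4 : Minc P A i (g' * (h * s⁻¹)) := minc_of_step L hτ d3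
          have d5 := minc_step L hE hi d4 (by omega)
          rw [← a2] at d5
          omega
  intro h hgh
  have hgh' := key _ h rfl hgh
  exact ⟨hgh', types_loc hN hg hgh hgh'⟩

end
end Pool.Agent.REL
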