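import Pool.Agent.REL.CanLoc
import Pool.Agent.REL.Can
import Pool.Agent.REL.Nf
import Pool.Agent.REL.Types

/-!
# Normal forms only depend on the local types
-/

namespace Pool.Agent.REL
open Pool.Agent.SLX

variable {G ι : Type} [Group G] {P : ι → Subgroup G} {A : Set G}

theorem step_loc (D : Nd P A) {T T2 : ℕ} (hT : Tst D.L D.NE T)
    (h2 : D.B + 3 * D.NE + 2 * T + 1 ≤ T2) {g g' s : G} (h : Loc D.L T2 g g')
    (hs : Loc D.L T2 (g * s) (g' * s)) (hst : Step D g s) : Step D g' s := by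
  obtain ⟨h1, hrl, hcase⟩ := hst
  have hs' : Loc D.L T2 (g' * s) (g * s) := fun y hy => (hs y hy).symm
  rcases hcase with ⟨i, hsi, hB, hcan⟩ | ⟨hB, hfar, hord⟩
  · have hcan' : Can P A D.ch i g' := can_loc D hT (by omega) (by omega) h i hcan
    have hNE : D.NE < D.L.l s := lt_of_le_of_lt D.hEB hB
    exact ⟨h1, minc_step D.L D.hE hsi (can_minc D hcan') hNE, Or.inl ⟨i, hsi, hB, hcan'⟩⟩
  · have h3 := h s (by omega)
    refine ⟨h1, by omega, Or.inr ⟨hB, fun hf => hfar (far_loc D hT h2 hs' hf), ?_⟩⟩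
    intro t ht htB hrt
    refine hord t ht htB ?_
    have h4 := hs t⁻¹ (by rw [D.L.inv]; omega)
    omega

theorem vd_loc (D : Nd P A) {T T2 N : ℕ} (hT : Tst D.L D.NE T)
    (h2 : D.B + 3 * D.NE + 2 * T + 1 ≤ T2) (h3 : T2 ≤ N) (hN : NearB D.L T2 N) {g g' : G}
    (h : Loc D.L N g g') {w : List G} (hw : Vd D g w) : Vd D g' w := by
  induction w using List.reverseRecOn with
  | nil => trivial
  | append_singleton w s ih =>
    have htype : ∀ v : List G, Vd D g v → Loc D.L T2 (g * v.prod) (g' * v.prod) := by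
      intro v hv
      obtain ⟨ha, hb⟩ := vd_rl D hv
      exact (types D.L D.hE hT (by omega) (by omega) h3 hN g g' h v.prod (by omega)).2
    have hw' := (vd_append D g w [s]).1 hw
    rw [vd_append]
    refine ⟨ih hw'.1, ?_⟩
    have h4 := htype w hw'.1
    have h5 := htype (w ++ [s]) hw
    rw [List.prod_append, List.prod_singleton, ← mul_assoc, ← mul_assoc] at h5
    exact ⟨step_loc D hT h2 h4 h5 hw'.2.1, trivial⟩

end Pool.Agent.REL
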