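import Pool.Agent.REL.Rl
import Pool.Agent.REL.Pen

/-!
# Types after a long peripheral letter
-/
namespace Pool.Agent.REL
open Pool.Agent.SLX

section
variable {G ι : Type} [Group G] {P : ι → Subgroup G} {A : Set G}

private theorem theta_le (L : PLen P A) {NE N N' : ℕ} (hE : EntryB L NE) (hN : PenB L N N')
    (hNE : NE ≤ N') (i : ι) (g g' p p' : G) (hg : Minc P A i g)
    (hp : p ∈ P i) (hp' : p' ∈ P i) (hl : N' < L.l p) (y : G) (hy : L.l y ≤ N) :
    rl P A (g' * p' * y) + rl P A g ≤ rl P A (g * p * y) + rl P A g' := by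
  obtain ⟨c, hc, -, h⟩ := pen_split hN hE hNE i g p y hg hp hl hy
  have h1 : g' * p' * y = g' * (p' * c) * (c⁻¹ * y) := by group
  have h2 : rl P A (p' * c) ≤ 1 := rl_letter (Or.inr ⟨i, (P i).mul_mem hp' hc⟩)
  have h3 := rl_mul L (g' * (p' * c)) (c⁻¹ * y)
  have h4 := rl_mul L g' (p' * c)
  rw [← h1] at h3
  omega

theorem theta (L : PLen P A) {NE : ℕ} (hE : EntryB L NE) (N : ℕ) : ∃ B3 : ℕ,
    ∀ (i : ι) (g g' p p' : G), Minc P A i g → Minc P A i g' → p ∈ P i → p' ∈ P i →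
      B3 < L.l p → B3 < L.l p' → Loc L N (g * p) (g' * p') := by
  obtain ⟨N₀, hN₀⟩ := exists_pen L N
  have hN : PenB L N (max N₀ NE) := pen_mono hN₀ le_rfl (le_max_left _ _)
  refine ⟨max N₀ NE, fun i g g' p p' hg hg' hp hp' hl hl' => ?_⟩
  have key : ∀ y, L.l y ≤ N →
      rl P A (g * p * y) + rl P A g' = rl P A (g' * p' * y) + rl P A g := fun y hy =>
    le_antisymm
      (theta_le L hE hN (le_max_right _ _) i g' g p' p hg' hp' hp hl' y hy)
      (theta_le L hE hN (le_max_right _ _) i g g' p p' hg hp hp' hl y hy)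
  intro y hy
  have h1 := key y hy
  have h2 := key 1 (by rw [L.one]; exact Nat.zero_le _)
  rw [mul_one, mul_one] at h2
  omega

end

end Pool.Agent.REL
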