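import Pool.Agent.REL.Rl
import Pool.Agent.REL.Near
import Pool.Agent.REL.Can
import Pool.Agent.REL.Theta
import Pool.Agent.REL.StepLoc
import Pool.Agent.REL.Gnfa
import Pool.Agent.SLA.Reg
import Pool.Agent.SLA.Uni
/-!
# The normal forms are a regular language
-/
namespace Pool.Agent.REL
open Pool.Agent.SLX Pool.Agent.SLA

theorem c7_fin {B : Type} {K : Set (List B)} (h : K.Finite) : Language.IsRegular (K : Language B) := by
  classical
  have : Finite K := h.to_subtype
  have h1 := reg_iUnion (ι := K) (fun i => singL i.1) (fun i => reg_sing i.1)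
  have h2 : ({w | ∃ i : K, w ∈ singL i.1} : Set (List B)) = K := by
    ext w
    constructor
    · rintro ⟨i, hi⟩
      have h3 : w = i.1 := hi
      rw [h3]
      exact i.2
    · intro hw
      exact ⟨⟨w, hw⟩, rfl⟩
  rw [h2] at h1
  exact h1

theorem c7_diff {B : Type} {K : Language B} (hK : K.IsRegular) {F : Set (List B)}
    (hF : F.Finite) : Language.IsRegular ({w | w ∈ K ∧ w ∉ F} : Set (List B)) := by
  have h1 : ((F : Language B)ᶜ : Language B).IsRegular := (c7_fin hF).compl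
  have h2 := Language.IsRegular.inf hK h1
  exact h2

section
variable {G ι : Type} [Group G] {P : ι → Subgroup G} {A : Set G}

theorem c7_bd (L : PLen P A) (N : ℕ) (g y : G) (hy : L.l y ≤ N) :
    (rl P A (g * y) : ℤ) - rl P A g ∈ Set.Icc (-(N : ℤ)) N := by
  have h1 := rl_mul L g y
  have h2 := rl_le L y
  have h3 := rl_mul L (g * y) y⁻¹
  rw [mul_inv_cancel_right, rl_inv L] at h3
  constructor <;> omega

/-- The type of `g`: the relative lengths on the ball of radius `N`. -/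
noncomputable def c7ty (L : PLen P A) (N : ℕ) (g : G) :
    {y : G // L.l y ≤ N} → Set.Icc (-(N : ℤ)) N :=
  fun y => ⟨(rl P A (g * y.1) : ℤ) - rl P A g, c7_bd L N g y.1 y.2⟩

theorem c7_ty (L : PLen P A) (N : ℕ) {g g' : G} : c7ty L N g = c7ty L N g' ↔ Loc L N g g' := by
  constructor
  · intro h y hy
    have h1 := congrArg Subtype.val (congrFun h ⟨y, hy⟩)
    change (rl P A (g * y) : ℤ) - rl P A g = (rl P A (g' * y) : ℤ) - rl P A g' at h1
    omega
  · intro h
    funext y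
    apply Subtype.ext
    change (rl P A (g * y.1) : ℤ) - rl P A g = (rl P A (g' * y.1) : ℤ) - rl P A g'
    have h1 := h y.1 y.2
    omega

/-- The strings of the steps between elements of given types. -/
def c7R (E : Ld P A) (N : ℕ) (q q' : {y : G // E.D.L.l y ≤ N} → Set.Icc (-(N : ℤ)) N) :
    Language (Alp E) :=
  {u | ∃ g s, c7ty E.D.L N g = q ∧ Step E.D g s ∧ c7ty E.D.L N (g * s) = q' ∧ Tw E s u}

theorem c7_le (E : Ld P A) (N : ℕ) : ∀ (w : List G) (us : List (List (Alp E))) (g : G),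
    Vd E.D g w → List.Forall₂ (Tw E) w us →
    ∃ q', GP (c7R E N) (c7ty E.D.L N g) us.flatten q' := by
  intro w
  induction w with
  | nil =>
    intro us g _ h
    cases h
    exact ⟨_, GP.nil _⟩
  | cons s w ih =>
    intro us g hv h
    cases h with
    | cons h1 h2 =>
      obtain ⟨hs, hv'⟩ := hv
      obtain ⟨q', hq'⟩ := ih _ (g * s) hv' h2
      exact ⟨q', GP.cons ⟨g, s, rfl, hs, rfl, h1⟩ hq'⟩

theorem c7_ge (E : Ld P A) {N : ℕ}
    (hN : ∀ (g g' : G) (w : List G), Loc E.D.L N g g' → Vd E.D g w → Vd E.D g' w)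
    {q q' : {y : G // E.D.L.l y ≤ N} → Set.Icc (-(N : ℤ)) N} {u : List (Alp E)}
    (h : GP (c7R E N) q u q') : ∀ g, c7ty E.D.L N g = q → u ∈ NFw E g := by
  induction h with
  | nil q =>
    intro g _
    exact ⟨[], [], trivial, List.Forall₂.nil, rfl⟩
  | cons h1 _ ih =>
    intro g hg
    obtain ⟨g0, s, hg0, hs, hgs, htw⟩ := h1
    obtain ⟨w, us, hw, hus, hu⟩ := ih (g0 * s) hgs
    refine ⟨s :: w, _ :: us, hN g0 g _ ?_ ⟨hs, hw⟩, List.Forall₂.cons htw hus, ?_⟩
    · exact (c7_ty E.D.L N).1 (hg0.trans hg.symm)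
    · rw [hu]
      rfl

theorem c7_small (E : Ld P A) [Finite ι] (K : ℕ) :
    {u : List (Alp E) | ∃ s, E.D.L.l s ≤ K ∧ Tw E s u}.Finite := by
  classical
  have h1 : {u : List (Alp E) | ∃ s, E.D.L.l s ≤ K ∧ Tw E s u} ⊆
      (⋃ s ∈ {s | E.D.L.l s ≤ K}, ({u | ∃ h : E.D.L.l s ≤ E.B4, u = [Sum.inl ⟨s, h⟩]} ∪
        ⋃ i, (fun v : List (E.Bt i) => v.map (fun b => (Sum.inr ⟨i, b⟩ : Alp E))) ''
          {v | v ∈ E.Lg i ∧ val (E.ψ i) v = s})) := by
    rintro u ⟨s, hs, h | ⟨_, i, _, v, hv, hvs, hu⟩⟩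
    · refine Set.mem_biUnion hs (Or.inl h)
    · refine Set.mem_biUnion hs (Or.inr (Set.mem_iUnion.2 ⟨i, v, ⟨hv, hvs⟩, hu.symm⟩))
  refine Set.Finite.subset ?_ h1
  refine Set.Finite.biUnion (E.D.L.fin K) fun s _ => Set.Finite.union ?_ ?_
  · refine Set.Subsingleton.finite ?_
    rintro u ⟨h, hu⟩ u' ⟨h', hu'⟩
    rw [hu, hu']
  · refine Set.finite_iUnion fun i => Set.Finite.image _ ?_
    refine Set.Subsingleton.finite ?_
    rintro v ⟨hv, hvs⟩ v' ⟨hv', hvs'⟩
    exact E.uniq i v hv v' hv' (hvs.trans hvs'.symm)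

theorem c7_long (E : Ld P A) (K : ℕ) (i : ι) : Language.IsRegular
    ({v | v ∈ E.Lg i ∧ K < E.D.L.l (val (E.ψ i) v)} : Set (List (E.Bt i))) := by
  classical
  have hF : {v | v ∈ E.Lg i ∧ E.D.L.l (val (E.ψ i) v) ≤ K}.Finite := by
    apply Set.Finite.of_finite_image (f := val (E.ψ i))
    · refine (E.D.L.fin K).subset ?_
      rintro _ ⟨v, hv, rfl⟩
      exact hv.2
    · rintro v hv v' hv' h
      exact E.uniq i v hv.1 v' hv'.1 h
  have h1 := c7_diff (E.reg i) hF
  have h2 : ({w | w ∈ E.Lg i ∧ w ∉ {v | v ∈ E.Lg i ∧ E.D.L.l (val (E.ψ i) v) ≤ K}} :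
      Set (List (E.Bt i))) = {v | v ∈ E.Lg i ∧ K < E.D.L.l (val (E.ψ i) v)} := by
    ext v
    constructor
    · rintro ⟨hv, hn⟩
      refine ⟨hv, ?_⟩
      by_contra hc
      exact hn ⟨hv, not_lt.1 hc⟩
    · rintro ⟨hv, hn⟩
      refine ⟨hv, ?_⟩
      rintro ⟨_, hc⟩
      exact absurd hn (not_lt.2 hc)
  rw [h2] at h1
  exact h1

theorem c7_reg (E : Ld P A) [Finite ι] (N B3 : ℕ) (hB : E.B4 ≤ B3)
    (hth : ∀ (i : ι) (g g' p p' : G), Minc P A i g → Minc P A i g' → p ∈ P i → p' ∈ P i →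
      B3 < E.D.L.l p → B3 < E.D.L.l p' → Loc E.D.L N (g * p) (g' * p'))
    (q q' : {y : G // E.D.L.l y ≤ N} → Set.Icc (-(N : ℤ)) N) : (c7R E N q q').IsRegular := by
  classical
  have hBB : E.D.B ≤ E.B4 := le_trans (Nat.le_add_right _ _) E.h4
  -- long steps
  let cond : ι → Prop := fun i => ∃ g s, c7ty E.D.L N g = q ∧ Step E.D g s ∧
    c7ty E.D.L N (g * s) = q' ∧ B3 < E.D.L.l s ∧ s ∈ P i
  let M : ι → Language (Alp E) := fun i => if cond i then
    lmap (fun b => (Sum.inr ⟨i, b⟩ : Alp E))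
      ({v | v ∈ E.Lg i ∧ B3 < E.D.L.l (val (E.ψ i) v)} : Set (List (E.Bt i))) else 0
  have hM : ∀ i, (M i).IsRegular := by
    intro i
    by_cases hi : cond i
    · have : M i = lmap (fun b => (Sum.inr ⟨i, b⟩ : Alp E))
        ({v | v ∈ E.Lg i ∧ B3 < E.D.L.l (val (E.ψ i) v)} : Set (List (E.Bt i))) := if_pos hi
      rw [this]
      refine reg_map ?_ (c7_long E B3 i)
      intro b b' hbb
      have h1 := Sum.inr_injective hbb
      exact eq_of_heq (Sigma.mk.inj h1).2
    · have : M i = 0 := if_neg hi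
      rw [this]
      exact reg_zero
  -- short steps
  let K1 : Language (Alp E) :=
    {u : List (Alp E) | (∃ s, E.D.L.l s ≤ B3 ∧ Tw E s u) ∧ u ∈ c7R E N q q'}
  let K2 : Language (Alp E) := {w : List (Alp E) | ∃ i, w ∈ M i}
  have hS : Set.Finite {u : List (Alp E) | (∃ s, E.D.L.l s ≤ B3 ∧ Tw E s u) ∧ u ∈ c7R E N q q'} :=
    (c7_small E B3).subset fun u hu => hu.1
  have h1 : (K1 + K2).IsRegular := Language.IsRegular.add (c7_fin hS) (reg_iUnion M hM)
  have h2 : c7R E N q q' = K1 + K2 := by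
    ext u
    rw [Language.mem_add]
    constructor
    · intro hu
      obtain ⟨g, s, hg, hs, hgs, htw⟩ := id hu
      by_cases hl : E.D.L.l s ≤ B3
      · exact Or.inl ⟨⟨s, hl, htw⟩, hu⟩
      · rw [not_le] at hl
        right
        rcases htw with ⟨h, _⟩ | ⟨_, i, hi, v, hv, hvs, huv⟩
        · exact absurd hl (not_lt.2 (le_trans h hB))
        · refine ⟨i, ?_⟩
          have hc : cond i := ⟨g, s, hg, hs, hgs, hl, hi⟩
          have : M i = lmap (fun b => (Sum.inr ⟨i, b⟩ : Alp E))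
            ({v | v ∈ E.Lg i ∧ B3 < E.D.L.l (val (E.ψ i) v)} : Set (List (E.Bt i))) := if_pos hc
          rw [this]
          exact ⟨v, ⟨hv, by rw [hvs]; exact hl⟩, huv⟩
    · rintro (hu | ⟨i, hu⟩)
      · exact hu.2
      · by_cases hc : cond i
        · have : M i = lmap (fun b => (Sum.inr ⟨i, b⟩ : Alp E))
            ({v | v ∈ E.Lg i ∧ B3 < E.D.L.l (val (E.ψ i) v)} : Set (List (E.Bt i))) := if_pos hc
          rw [this] at hu
          obtain ⟨v, ⟨hv, hvl⟩, huv⟩ := hu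
          obtain ⟨g, s0, hg, hs0, hgs0, hl0, hi0⟩ := hc
          -- `g` is the canonical entry point
          have hcan : Can P A E.D.ch i g := by
            rcases hs0.2.2 with ⟨j, hj, _, hjc⟩ | ⟨hle, _⟩
            · have hij : j = i := long_unique E.D.L hj hi0
                (lt_of_le_of_lt (le_trans E.D.hδ (le_trans hBB hB)) hl0)
              rw [← hij]
              exact hjc
            · exact absurd hl0 (not_lt.2 (le_trans hle (le_trans hBB hB)))
          have hminc := can_minc E.D hcan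
          have hp : val (E.ψ i) v ∈ P i := E.mem i v hv
          have hBl : E.D.B < E.D.L.l (val (E.ψ i) v) :=
            lt_of_le_of_lt (le_trans hBB hB) hvl
          have hr1 : rl P A (val (E.ψ i) v) = 1 := by
            have h3 : rl P A (val (E.ψ i) v) ≤ 1 := rl_letter (Or.inr ⟨i, hp⟩)
            have h4 : rl P A (val (E.ψ i) v) ≠ 0 := by
              intro h5
              have h6 := rl_zero E.D.L h5
              rw [h6, E.D.L.one] at hvl
              exact absurd hvl (Nat.not_lt_zero _)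
            omega
          have hr2 := minc_step E.D.L E.D.hE hp hminc (lt_of_le_of_lt E.D.hEB hBl)
          refine ⟨g, val (E.ψ i) v, hg, ⟨hr1, hr2, Or.inl ⟨i, hp, hBl, hcan⟩⟩, ?_, ?_⟩
          · rw [← hgs0, c7_ty]
            exact hth i g g _ _ hminc hminc hp hi0 hvl hl0
          · exact Or.inr ⟨lt_of_le_of_lt hB hvl, i, hp, v, hv, rfl, huv⟩
        · have : M i = 0 := if_neg hc
          rw [this] at hu
          exact absurd hu (Language.notMem_zero _)
  rw [h2]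
  exact h1

theorem nfw_regular [Finite ι] (E : Ld P A)
    (ht : ∀ i, ∀ p ∈ P i, IsOfFinOrder p → p = 1) : (NFw E 1).IsRegular := by
  classical
  obtain ⟨T, hT⟩ := exists_tst E.D.L ht E.D.NE
  obtain ⟨N0, hN0⟩ := exists_near E.D.L (E.D.B + 3 * E.D.NE + 2 * T + 1)
  obtain ⟨N, hN1, hN2⟩ : ∃ N : ℕ, E.D.B + 3 * E.D.NE + 2 * T + 1 ≤ N ∧ N0 ≤ N :=
    ⟨max (E.D.B + 3 * E.D.NE + 2 * T + 1) N0, le_max_left _ _, le_max_right _ _⟩
  have hN := near_mono hN0 le_rfl hN2
  obtain ⟨B, hB⟩ := theta E.D.L E.D.hE N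
  have : Finite {y : G // E.D.L.l y ≤ N} := (E.D.L.fin N).to_subtype
  have key : NFw E 1 = {u | ∃ q', GP (c7R E N) (c7ty E.D.L N 1) u q'} := by
    ext u
    constructor
    · rintro ⟨w, us, hw, hus, rfl⟩
      exact c7_le E N w us 1 hw hus
    · rintro ⟨q', hq'⟩
      exact c7_ge E (fun g g' w h hw => vd_loc E.D hT le_rfl hN1 hN h hw) hq' 1 rfl
  rw [key]
  refine gp_regular (c7R E N) (fun q q' => c7_reg E N (max B E.B4) (le_max_right _ _) ?_ q q') _
  intro i g g' p p' hg hg' hp hp' hl hl'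
  exact hB i g g' p p' hg hg' hp hp' (lt_of_le_of_lt (le_max_left _ _) hl)
    (lt_of_le_of_lt (le_max_left _ _) hl')

end

end Pool.Agent.REL
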