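import Pool.Agent.REL.Defs
import Pool.Agent.SLA.ProdA
/-!
# Automatic structures with unique representatives for a subgroup
-/
namespace Pool.Agent.REL
open Pool.Agent.SLX Pool.Agent.SLA

section
variable {G : Type} [Group G]

private theorem uap_val {H : Subgroup G} {B : Type} (π : B → H) (u : List B) :
    val (fun b => (π b : G)) u = (val π u : H) := by
  induction u with
  | nil => rfl
  | cons b u ih =>
    have e1 : val (fun b => (π b : G)) (b :: u) = (π b : G) * val (fun b => (π b : G)) u := rfl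
    have e2 : val π (b :: u) = π b * val π u := rfl
    rw [e1, e2, ih, Subgroup.coe_mul]

theorem exists_uap {H : Subgroup G} (h : Automatic H) : ∃ (B : Type) (_ : Finite B) (ψ : B → G)
    (Lg : Language B), Lg.IsRegular ∧ (∀ u ∈ Lg, val ψ u ∈ H) ∧
    (∀ p ∈ H, ∃ u ∈ Lg, val ψ u = p) ∧
    (∀ u ∈ Lg, ∀ v ∈ Lg, val ψ u = val ψ v → u = v) ∧
    (∀ h : G, ∃ F : Set G, F.Finite ∧ ∀ u ∈ Lg, ∀ v ∈ Lg, val ψ u * h = val ψ v →
      ∀ t, (val ψ (u.take t))⁻¹ * val ψ (v.take t) ∈ F) ∧
    (∀ h : G, ∃ c : ℕ, ∀ u ∈ Lg, ∀ v ∈ Lg, val ψ u * h = val ψ v →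
      u.length ≤ v.length + c ∧ v.length ≤ u.length + c) := by
  obtain ⟨B, hB, π, Lg, hst, _, huniq⟩ := exists_unique_structure h
  have hft := ftp_of_structure hst
  have hlen := lbp_unique hst.1 hft huniq
  obtain ⟨hreg, hs, _⟩ := hst
  refine ⟨B, hB, fun b => (π b : G), Lg, hreg, ?_, ?_, ?_, ?_, ?_⟩
  · intro u _
    rw [uap_val]
    exact (val π u).2
  · intro p hp
    obtain ⟨u, hu, hup⟩ := hs ⟨p, hp⟩
    exact ⟨u, hu, by rw [uap_val, hup]⟩
  · intro u hu v hv huv
    rw [uap_val, uap_val] at huv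
    exact huniq u hu v hv (Subtype.ext huv)
  · intro g
    by_cases hg : g ∈ H
    · obtain ⟨D, hD, hDD⟩ := hft ⟨g, hg⟩
      refine ⟨(fun x : H => (x : G)) '' D, hD.image _, ?_⟩
      intro u hu v hv huv t
      rw [uap_val, uap_val] at huv
      refine ⟨_, hDD u hu v hv (Subtype.ext huv) t, ?_⟩
      rw [uap_val, uap_val]
      rfl
    · refine ⟨∅, Set.finite_empty, ?_⟩
      intro u _ v _ huv t
      exfalso
      apply hg
      rw [uap_val, uap_val] at huv
      have h1 : g = ((val π u : H) : G)⁻¹ * (val π v : H) := by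
        rw [← huv]
        group
      rw [h1]
      exact H.mul_mem (H.inv_mem (val π u).2) (val π v).2
  · intro g
    by_cases hg : g ∈ H
    · obtain ⟨c, hc⟩ := hlen ⟨g, hg⟩
      refine ⟨c, ?_⟩
      intro u hu v hv huv
      rw [uap_val, uap_val] at huv
      exact hc u hu v hv (Subtype.ext huv)
    · refine ⟨0, ?_⟩
      intro u _ v _ huv
      exfalso
      apply hg
      rw [uap_val, uap_val] at huv
      have h1 : g = ((val π u : H) : G)⁻¹ * (val π v : H) := by
        rw [← huv]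
        group
      rw [h1]
      exact H.mul_mem (H.inv_mem (val π u).2) (val π v).2

end

end Pool.Agent.REL
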