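import Pool.Agent.REL.Entry
import Pool.Agent.REL.Pen
import Pool.Agent.REL.Near
import Pool.Agent.REL.Ch
import Pool.Agent.REL.Nf
import Pool.Agent.REL.Reg
import Pool.Agent.REL.Ftp
import Pool.Agent.REL.Uap
/-!
# C10: groups hyperbolic relative to torsion free automatic subgroups are automatic (assembly)
-/
namespace Pool.Agent.REL
open Pool.Agent.SLX Pool.Agent.SLA
open scoped Pointwise

section
variable {G ι : Type} [Group G] {P : ι → Subgroup G} {A : Set G}

/-- the data for the normal forms exist -/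
theorem C10_nd (L : PLen P A) (ht : ∀ i, ∀ p ∈ P i, IsOfFinOrder p → p = 1) :
    ∃ D : Nd P A, D.L = L := by
  obtain ⟨NE, hE⟩ := exists_entry L
  obtain ⟨N0, h0⟩ := exists_pen L 0
  have hch : ∀ i, ∃ ch : Set G → G, IsCh (P i) ch := fun i => exists_ch (P i) (ht i)
  choose ch hch using hch
  set B : ℕ := max (max NE N0) (max (2 * L.δ) 1) with hB
  obtain ⟨ord, hord⟩ := Set.countable_iff_exists_injOn.1 (L.fin B).countable
  refine ⟨{ L := L, ch := ch, isch := hch, NE := NE, hE := hE, B := B, hEB := ?_, h0 := ?_,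
            hδ := ?_, h1 := ?_, ord := ord, ord_inj := ?_ }, rfl⟩
  · exact (le_max_left _ _).trans (le_max_left _ _)
  · exact pen_mono h0 le_rfl ((le_max_right _ _).trans (le_max_left _ _))
  · exact (le_max_left _ _).trans (le_max_right _ _)
  · exact (le_max_right _ _).trans (le_max_right _ _)
  · intro s t hs ht' h
    exact hord hs ht' h

/-- the data for the automatic structure exist -/
theorem C10_ld (L : PLen P A) (ht : ∀ i, ∀ p ∈ P i, IsOfFinOrder p → p = 1)
    (ha : ∀ i, Automatic (P i)) : ∃ E : Ld P A, E.D.L = L ∧ E.M0 = 1 := by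
  obtain ⟨D, rfl⟩ := C10_nd L ht
  obtain ⟨N1, h1⟩ := exists_pen D.L 1
  obtain ⟨N2, h2⟩ := exists_near D.L 1
  have hu := fun i => exists_uap (ha i)
  choose Bt btfin ψ Lg reg mem onto uniq ft len using hu
  exact ⟨{ D := D, M0 := 1, NP := max N1 N2, hP := pen_mono h1 le_rfl (le_max_left _ _),
           hN := near_mono h2 le_rfl (le_max_right _ _), B4 := D.B + 2 * max N1 N2, h4 := le_rfl,
           Bt := Bt, btfin := btfin, ψ := ψ, Lg := Lg, reg := reg, mem := mem, onto := onto,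
           uniq := uniq, ft := ft, len := len }, rfl, rfl⟩

theorem C10_fin [Finite ι] (E : Ld P A) : Finite (Alp E) := by
  have h1 : Finite {s : G // E.D.L.l s ≤ E.B4} := (E.D.L.fin E.B4).to_subtype
  have h2 : ∀ i, Finite (E.Bt i) := E.btfin
  have h3 : Finite (Σ i, E.Bt i) := inferInstance
  exact inferInstanceAs (Finite ({s : G // E.D.L.l s ≤ E.B4} ⊕ (Σ i, E.Bt i)))

theorem C10_val_map (E : Ld P A) (i : ι) (v : List (E.Bt i)) :
    val (Ψ E) (v.map (fun b => (Sum.inr ⟨i, b⟩ : Alp E))) = val (E.ψ i) v := by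
  unfold val
  rw [List.map_map]
  rfl

theorem C10_val_tw (E : Ld P A) {s : G} {u : List (Alp E)} (h : Tw E s u) :
    val (Ψ E) u = s := by
  rcases h with ⟨h, rfl⟩ | ⟨_, i, _, v, _, hv, rfl⟩
  · simp [val, Ψ]
  · rw [C10_val_map, hv]

theorem C10_val_flat (E : Ld P A) {w : List G} {us : List (List (Alp E))}
    (h : List.Forall₂ (Tw E) w us) : val (Ψ E) us.flatten = w.prod := by
  induction h with
  | nil => rfl
  | cons h1 _ ih =>
    rw [List.flatten_cons, List.prod_cons, ← C10_val_tw E h1, ← ih]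
    unfold val
    rw [List.map_append, List.prod_append]

/-- every letter of a normal form has a string -/
theorem C10_tw (E : Ld P A) {g s : G} (h : Step E.D g s) : ∃ u, Tw E s u := by
  by_cases hs : E.D.L.l s ≤ E.B4
  · exact ⟨[Sum.inl ⟨s, hs⟩], Or.inl ⟨hs, rfl⟩⟩
  · have hB : E.D.B ≤ E.B4 := by have := E.h4; omega
    rcases h.2.2 with ⟨i, hi, _, _⟩ | ⟨h1, _⟩
    · obtain ⟨v, hv, hvs⟩ := E.onto i s hi
      exact ⟨_, Or.inr ⟨by omega, i, hi, v, hv, hvs, rfl⟩⟩
    · omega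

theorem C10_strings (E : Ld P A) (w : List G) : ∀ g : G, Vd E.D g w →
    ∃ us, List.Forall₂ (Tw E) w us := by
  induction w with
  | nil => exact fun _ _ => ⟨[], List.Forall₂.nil⟩
  | cons s w ih =>
    intro g h
    obtain ⟨h1, h2⟩ := h
    obtain ⟨us, hus⟩ := ih _ h2
    obtain ⟨u, hu⟩ := C10_tw E h1
    exact ⟨u :: us, List.Forall₂.cons hu hus⟩

theorem C10_onto (E : Ld P A) (g : G) : ∃ u ∈ NFw E 1, val (Ψ E) u = g := by
  obtain ⟨w, hw, hg⟩ := nf_exists E.D g
  obtain ⟨us, hus⟩ := C10_strings E w 1 hw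
  exact ⟨us.flatten, ⟨w, us, hw, hus, rfl⟩, by rw [C10_val_flat E hus, hg]⟩

theorem C10_ftp [Finite ι] (hA : Subgroup.closure A = ⊤) (E : Ld P A) (hM : 1 ≤ E.M0) :
    FTP (Ψ E) (NFw E 1) := by
  intro g
  have hg : g ∈ Subgroup.closure A := by rw [hA]; trivial
  induction hg using Subgroup.closure_induction with
  | mem a ha => exact nfw_ftp E a ((E.D.L.le_one a ha).trans hM)
  | one => exact nfw_ftp E 1 (by rw [E.D.L.one]; exact Nat.zero_le _)
  | mul x y _ _ hx hy =>
    obtain ⟨F1, hF1, h1⟩ := hx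
    obtain ⟨F2, hF2, h2⟩ := hy
    refine ⟨F1 * F2, hF1.mul hF2, ?_⟩
    intro u hu v hv huv t
    obtain ⟨m, hm, hmx⟩ := C10_onto E (val (Ψ E) u * x)
    refine Set.mem_mul.2 ⟨_, h1 u hu m hm hmx.symm t, _, h2 m hm v hv ?_ t, by group⟩
    rw [hmx, mul_assoc]
    exact huv
  | inv x _ hx =>
    obtain ⟨F, hF, h⟩ := hx
    refine ⟨F⁻¹, hF.inv, ?_⟩
    intro u hu v hv huv t
    have h1 := h v hv u hu (by rw [← huv]; group) t
    rw [Set.mem_inv]
    have e : ((val (Ψ E) (u.take t))⁻¹ * val (Ψ E) (v.take t))⁻¹ =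
        (val (Ψ E) (v.take t))⁻¹ * val (Ψ E) (u.take t) := by group
    rw [e]
    exact h1

/-! C10 (RelAut.lean; uses everything) -/
theorem plen_automatic [Finite ι] (hAf : A.Finite) (hA : Subgroup.closure A = ⊤)
    (L : PLen P A) (ht : ∀ i, ∀ p ∈ P i, IsOfFinOrder p → p = 1)
    (ha : ∀ i, Automatic (P i)) : Automatic G := by
  obtain ⟨E, _, hM⟩ := C10_ld L ht ha
  exact ⟨Alp E, C10_fin E, Ψ E, NFw E 1,
    structure_of_ftp (nfw_regular E ht) (C10_onto E) (C10_ftp hA E hM.ge)⟩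

end

end Pool.Agent.REL
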