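import Pool.Agent.REL.Defs
import Pool.Agent.SLA.Uni
import Pool.Agent.VH.FC3
/-!
# Statements of the modules
-/
namespace Pool.Agent.REL
open Pool.Agent.SLX Pool.Agent.SLA

/-! ## A rows: the cusped graph -/
section
variable {G ι : Type} [Group G] {A : Set G} {S : ι → Set G} {P : ι → Subgroup G}

/-! A1 (CAct.lean) -/
theorem cd_act (g : G) (x y : G × Option (ι × ℕ)) :
    (cusped A S).dist (g * x.1, x.2) (g * y.1, y.2) = (cusped A S).dist x y := by sorry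

theorem cd_conn (hA : Subgroup.closure A = ⊤) : (cusped A S).Connected := by sorry

/-! A2 (CDep.lean) -/
theorem cd_depth (hA : Subgroup.closure A = ⊤) (hS : ∀ i, Subgroup.closure (S i) = P i)
    (x g : G) (i : ι) (N : ℕ) : N + 1 ≤ (cusped A S).dist (x, none) (g, some (i, N)) := by sorry

theorem cd_depth2 (hA : Subgroup.closure A = ⊤) (hS : ∀ i, Subgroup.closure (S i) = P i)
    (g h : G) (i j : ι) (N : ℕ) (hne : i = j → g⁻¹ * h ∉ P i) :
    2 * (N + 1) ≤ (cusped A S).dist (g, some (i, N)) (h, some (j, N)) := by sorry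

/-! A3 (CFin.lean) -/
theorem cd_fin [Finite ι] (hA : Subgroup.closure A = ⊤) (hAf : A.Finite)
    (hSf : ∀ i, (S i).Finite) (n : ℕ) :
    {g : G | (cusped A S).dist (1, none) (g, none) ≤ n}.Finite := by sorry

/-! A4 (CGeo.lean) -/
theorem cd_geo (hA : Subgroup.closure A = ⊤) (hS : ∀ i, Subgroup.closure (S i) = P i) (g : G) :
    ∃ (n : ℕ) (z : ℕ → G), z 0 = 1 ∧ z n = g ∧
      GeoP (fun x => (cusped A S).dist (1, none) (x, none)) P (A ∪ {a | a⁻¹ ∈ A}) n z := by sorry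

/-! A5 (CRay.lean) -/
theorem cd_ray (hA : Subgroup.closure A = ⊤) (hsym : ∀ i, ∀ s ∈ S i, s⁻¹ ∈ S i)
    (hS : ∀ i, Subgroup.closure (S i) = P i) (i : ι) (p : G) (hp : p ∈ P i) :
    ∃ N0 : ℕ, ∀ N, N0 ≤ N → (cusped A S).dist (p, none) (1, some (i, N)) ≤ N + 2 := by sorry

theorem cd_ray_mono (hA : Subgroup.closure A = ⊤) (x : G) (i : ι) (N : ℕ) :
    (cusped A S).dist (x, none) (1, some (i, N + 1)) ≤
      (cusped A S).dist (x, none) (1, some (i, N)) + 1 := by sorry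

end

/-! A6 (CPlen.lean; uses A1-A5) -/
theorem exists_plen {G ι : Type} [Group G] [Finite ι] (P : ι → Subgroup G) (h : RelHyp P) :
    ∃ A : Set G, A.Finite ∧ Subgroup.closure A = ⊤ ∧
      (∀ i, ∃ S : Set G, S.Finite ∧ Subgroup.closure S = P i) ∧ Nonempty (PLen P A) := by sorry

/-! ## B rows: geometry -/
section
variable {G ι : Type} [Group G] {P : ι → Subgroup G} {A : Set G}

/-! B1 (Rl.lean) -/
theorem rl_one : rl P A (1 : G) = 0 := by sorry
theorem rl_letter {s : G} (hs : Letter P A s) : rl P A s ≤ 1 := by sorry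
theorem rl_mul (L : PLen P A) (g h : G) : rl P A (g * h) ≤ rl P A g + rl P A h := by sorry
theorem rl_inv (L : PLen P A) (g : G) : rl P A g⁻¹ = rl P A g := by sorry
theorem rl_le (L : PLen P A) (g : G) : rl P A g ≤ L.l g := by sorry
theorem rl_zero (L : PLen P A) {g : G} (h : rl P A g = 0) : g = 1 := by sorry
theorem letter_of_rl (L : PLen P A) {s : G} (h : rl P A s = 1) : Letter P A s := by sorry
theorem rl_pred (L : PLen P A) {g : G} {m : ℕ} (h : rl P A g = m + 1) :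
    ∃ s, rl P A s = 1 ∧ rl P A (g * s⁻¹) = m := by sorry
theorem rgeo_of {n : ℕ} {z : ℕ → G} (L : PLen P A) (h : RPath P A n z)
    (h' : rl P A ((z 0)⁻¹ * z n) = n) : RGeo P A n z := by sorry
theorem exists_rgeo (L : PLen P A) (g : G) :
    ∃ z : ℕ → G, z 0 = 1 ∧ z (rl P A g) = g ∧ RGeo P A (rl P A g) z := by sorry
/-- A relative geodesic through `g`. -/
theorem exists_rgeo_through (L : PLen P A) (g h : G)
    (hgh : rl P A (g * h) = rl P A g + rl P A h) :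
    ∃ z : ℕ → G, z 0 = 1 ∧ z (rl P A g) = g ∧ z (rl P A g + rl P A h) = g * h ∧
      RGeo P A (rl P A g + rl P A h) z := by sorry
/-- A long letter is peripheral. -/
theorem long_letter (L : PLen P A) {s : G} (h : rl P A s = 1) (h' : 1 < L.l s) :
    ∃ i, s ∈ P i := by sorry
/-- A long letter lies in only one of the subgroups. -/
theorem long_unique (L : PLen P A) {s : G} {i j : ι} (hi : s ∈ P i) (hj : s ∈ P j)
    (h : 2 * L.δ < L.l s) : i = j := by sorry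

/-! B2 (Chain.lean) -/
theorem chain_max (f : ℕ → ℕ → ℤ) (δ : ℕ)
    (h : ∀ a b c, f a c ≤ max (f a b) (f b c) + δ) (k : ℕ) :
    ∀ m n, m < n → n - m ≤ 2 ^ k → ∃ j, m ≤ j ∧ j < n ∧ f m n ≤ f j (j + 1) + δ * k := by sorry

theorem log_bound (a b c d : ℕ) : ∃ R : ℕ, ∀ D m : ℕ, m ≤ c * D + d →
    (∀ k : ℕ, m ≤ 2 ^ k → D ≤ a + b * k) → D ≤ R := by sorry

/-! B3 (Cos.lean; uses B2): a chain of few steps outside of a coset, with both ends in the coset -/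
theorem coset_chain (L : PLen P A) (r K : ℕ) : ∃ R : ℕ, ∀ (i : ι) (g : G) (m : ℕ) (s : ℕ → G),
    m ≤ K →
    (∀ j, j < m → L.l ((s j)⁻¹ * s (j + 1)) ≤ r ∨
      ∃ i', (s j)⁻¹ * s (j + 1) ∈ P i' ∧ ¬ (i' = i ∧ g⁻¹ * s j ∈ P i)) →
    g⁻¹ * s 0 ∈ P i → g⁻¹ * s m ∈ P i → L.l ((s 0)⁻¹ * s m) ≤ R := by sorry

/-! B4 (ClaimA.lean; uses B1, B2): the points of a geodesic are close to a relative quasi-geodesic -/
theorem claimA (L : PLen P A) (r b : ℕ) : ∃ R : ℕ, ∀ (n : ℕ) (z : ℕ → G) (k : ℕ) (x : ℕ → G),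
    GeoP L.l P A n z → x 0 = z 0 → x k = z n →
    (∀ i, i < k → L.l ((x i)⁻¹ * x (i + 1)) ≤ r ∨ ∃ i', (x i)⁻¹ * x (i + 1) ∈ P i') →
    (∀ i j, i ≤ j → j ≤ k → j - i ≤ rl P A ((x i)⁻¹ * x j) + b) →
    ∀ j, j ≤ n → ∃ i, i ≤ k ∧ L.l ((z j)⁻¹ * x i) ≤ R := by sorry

/-! B5 (ClaimB.lean; uses B1, B3, B4) -/
theorem claimB (L : PLen P A) : ∃ R : ℕ, ∀ (n : ℕ) (z : ℕ → G) (k : ℕ) (x : ℕ → G),
    GeoP L.l P A n z → RGeo P A k x → x 0 = z 0 → x k = z n →
    ∀ i, i ≤ k → ∃ j, j ≤ n ∧ L.l ((x i)⁻¹ * z j) ≤ R := by sorry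

/-! B6 (Near.lean; uses B1, B4, B5) -/
theorem exists_near (L : PLen P A) (M : ℕ) : ∃ N : ℕ, NearB L M N := by sorry
theorem near_mono {L : PLen P A} {M M' N N' : ℕ} (h : NearB L M N) (hM : M' ≤ M) (hN : N ≤ N') :
    NearB L M' N' := by sorry
theorem near_split {L : PLen P A} {M N : ℕ} (hN : NearB L M N) (g h y : G)
    (hgh : rl P A (g * h) = rl P A g + rl P A h) (hy : L.l y ≤ M) :
    ∃ z, L.l z ≤ N ∧ rl P A (g * h * y) = rl P A (g * z) + rl P A (z⁻¹ * h * y) := by sorry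

/-! B7 (Entry.lean; uses B1, B3, B4, B5) -/
theorem exists_entry (L : PLen P A) : ∃ N : ℕ, EntryB L N := by sorry

/-! B8 (Pen.lean; uses B1, B3, B6, B7) -/
theorem exists_pen (L : PLen P A) (M : ℕ) : ∃ N : ℕ, PenB L M N := by sorry
theorem pen_mono {L : PLen P A} {M M' N N' : ℕ} (h : PenB L M N) (hM : M' ≤ M) (hN : N ≤ N') :
    PenB L M' N' := by sorry
theorem pen_split {L : PLen P A} {M N NE : ℕ} (hN : PenB L M N) (hE : EntryB L NE) (h : NE ≤ N)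
    (i : ι) (g p y : G) (hg : Minc P A i g) (hp : p ∈ P i) (hl : N < L.l p) (hy : L.l y ≤ M) :
    ∃ c ∈ P i, L.l c ≤ N ∧ rl P A (g * p * y) = rl P A g + 1 + rl P A (c⁻¹ * y) := by sorry

/-! ## C rows: normal forms and automata -/

/-! C0 (Ch.lean) -/
theorem exists_ch (H : Subgroup G) (ht : ∀ p ∈ H, IsOfFinOrder p → p = 1) :
    ∃ ch : Set G → G, IsCh H ch := by sorry

/-! C1 (Can.lean; uses B1) -/
theorem minc_of_step (L : PLen P A) {i : ι} {g p : G} (hp : p ∈ P i)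
    (h : rl P A (g * p) = rl P A g + 1) : Minc P A i g := by sorry
theorem minc_step (L : PLen P A) {NE : ℕ} (hE : EntryB L NE) {i : ι} {g p : G} (hp : p ∈ P i)
    (hg : Minc P A i g) (hl : NE < L.l p) : rl P A (g * p) = rl P A g + 1 := by sorry
theorem exists_tst [Finite ι] (L : PLen P A) (ht : ∀ i, ∀ p ∈ P i, IsOfFinOrder p → p = 1)
    (N : ℕ) : ∃ T, Tst L N T := by sorry
theorem can_minc (D : Nd P A) {i : ι} {g : G} (h : Can P A D.ch i g) : Minc P A i g := by sorry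
theorem can_unique (D : Nd P A) (i : ι) (g : G) : ∃! p, p ∈ P i ∧ Can P A D.ch i (g * p) := by
  sorry

/-! C2 (Nf.lean; uses B1, C1) -/
theorem step_pred (D : Nd P A) {h : G} (hne : h ≠ 1) : ∃! s, Step D (h * s⁻¹) s := by sorry
theorem vd_append (D : Nd P A) (g : G) (w w' : List G) :
    Vd D g (w ++ w') ↔ Vd D g w ∧ Vd D (g * w.prod) w' := by sorry
theorem vd_rl (D : Nd P A) {g : G} {w : List G} (h : Vd D g w) :
    rl P A (g * w.prod) = rl P A g + w.length ∧ rl P A w.prod = w.length := by sorry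
theorem nf_exists (D : Nd P A) (g : G) : ∃ w, Vd D 1 w ∧ w.prod = g := by sorry
theorem nf_unique (D : Nd P A) {w w' : List G} (h : Vd D 1 w) (h' : Vd D 1 w')
    (he : w.prod = w'.prod) : w = w' := by sorry

/-! C3 (Types.lean; uses B1, B6, C1) -/
theorem types (L : PLen P A) {NE T T2 N : ℕ} (hE : EntryB L NE) (hT : Tst L NE T) (hTT : T ≤ T2)
    (h1 : 1 ≤ T2) (h2 : T2 ≤ N) (hN : NearB L T2 N) (g g' : G) (hg : Loc L N g g') :
    ∀ h : G, rl P A (g * h) = rl P A g + rl P A h →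
      rl P A (g' * h) = rl P A g' + rl P A h ∧ Loc L T2 (g * h) (g' * h) := by sorry

/-! C4 (Theta.lean; uses B1, B8) -/
theorem theta (L : PLen P A) {NE : ℕ} (hE : EntryB L NE) (N : ℕ) : ∃ B3 : ℕ,
    ∀ (i : ι) (g g' p p' : G), Minc P A i g → Minc P A i g' → p ∈ P i → p' ∈ P i →
      B3 < L.l p → B3 < L.l p' → Loc L N (g * p) (g' * p') := by sorry

/-! C6 (StepLoc.lean; uses B1, C1, C2, C3) -/
theorem can_loc (D : Nd P A) {T T2 : ℕ} (hT : Tst D.L D.NE T) (h1 : D.NE ≤ T2) (h2 : T ≤ T2)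
    {g g' : G} (h : Loc D.L T2 g g') (i : ι) (hc : Can P A D.ch i g) : Can P A D.ch i g' := by
  sorry
theorem far_loc (D : Nd P A) {T T2 : ℕ} (hT : Tst D.L D.NE T)
    (h2 : D.B + 3 * D.NE + 2 * T + 1 ≤ T2) {g g' : G} (h : Loc D.L T2 g g') (hf : Far D g) :
    Far D g' := by sorry
theorem step_loc (D : Nd P A) {T T2 : ℕ} (hT : Tst D.L D.NE T)
    (h2 : D.B + 3 * D.NE + 2 * T + 1 ≤ T2) {g g' s : G} (h : Loc D.L T2 g g')
    (hs : Loc D.L T2 (g * s) (g' * s)) (hst : Step D g s) : Step D g' s := by sorry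
theorem vd_loc (D : Nd P A) {T T2 N : ℕ} (hT : Tst D.L D.NE T)
    (h2 : D.B + 3 * D.NE + 2 * T + 1 ≤ T2) (h3 : T2 ≤ N) (hN : NearB D.L T2 N) {g g' : G}
    (h : Loc D.L N g g') {w : List G} (hw : Vd D g w) : Vd D g' w := by sorry

/-! C7 (Reg.lean; uses C4, C5, C6) -/
theorem nfw_regular [Finite ι] (E : Ld P A)
    (ht : ∀ i, ∀ p ∈ P i, IsOfFinOrder p → p = 1) : (NFw E 1).IsRegular := by sorry

/-! C8 (Ftp.lean; uses C2) -/
theorem nfw_ftp [Finite ι] (E : Ld P A) (h0 : G) (hl : E.D.L.l h0 ≤ E.M0) :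
    ∃ F : Set G, F.Finite ∧ ∀ u ∈ NFw E 1, ∀ v ∈ NFw E 1, val (Ψ E) u * h0 = val (Ψ E) v →
      ∀ t, (val (Ψ E) (u.take t))⁻¹ * val (Ψ E) (v.take t) ∈ F := by sorry

/-! C9 (Uap.lean; uses SLA.exists_unique_structure, ftp_of_structure) -/
theorem exists_uap {H : Subgroup G} (h : Automatic H) : ∃ (B : Type) (_ : Finite B) (ψ : B → G)
    (Lg : Language B), Lg.IsRegular ∧ (∀ u ∈ Lg, val ψ u ∈ H) ∧
    (∀ p ∈ H, ∃ u ∈ Lg, val ψ u = p) ∧
    (∀ u ∈ Lg, ∀ v ∈ Lg, val ψ u = val ψ v → u = v) ∧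
    (∀ h : G, ∃ F : Set G, F.Finite ∧ ∀ u ∈ Lg, ∀ v ∈ Lg, val ψ u * h = val ψ v →
      ∀ t, (val ψ (u.take t))⁻¹ * val ψ (v.take t) ∈ F) ∧
    (∀ h : G, ∃ c : ℕ, ∀ u ∈ Lg, ∀ v ∈ Lg, val ψ u * h = val ψ v →
      u.length ≤ v.length + c ∧ v.length ≤ u.length + c) := by sorry

/-! C10 (RelAut.lean; uses everything) -/
theorem plen_automatic [Finite ι] (hAf : A.Finite) (hA : Subgroup.closure A = ⊤)
    (L : PLen P A) (ht : ∀ i, ∀ p ∈ P i, IsOfFinOrder p → p = 1)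
    (ha : ∀ i, Automatic (P i)) : Automatic G := by sorry

/-! D1 (Fcl.lean): the finiteness property for translation numbers passes to the `P i` -/
theorem fcl_periph (L : PLen P A) (h : VH.FCl G) (i : ι)
    (ht : ∀ p ∈ P i, IsOfFinOrder p → p = 1) : VH.FCl (P i) := by sorry

end

/-! C5 (Gnfa.lean) -/
theorem gp_regular {Q S : Type} [Finite Q] (R : Q → Q → Language S)
    (hR : ∀ q q', (R q q').IsRegular) (q : Q) :
    Language.IsRegular {u : List S | ∃ q', GP R q u q'} := by sorry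

end Pool.Agent.REL
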